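import Mathlib

/-!
A real analysis lemma: optimisation of the parameters `J` and `z` in the count of primitive
elements.
-/

open Filter

namespace H49W

private lemma core (N : ℕ) (L l t w : ℝ) (hL : L = Real.log N) (hl : l = Real.log L)
    (ht8 : t ^ 8 = L) (ht : 128 ≤ t) (hlogt : Real.log t = l / 8) (hw : w ^ 2 = l)
    (hw1 : 1 ≤ w) (hwt : w ≤ t) :
    ∃ J z : ℕ, 1 ≤ J ∧ 1 ≤ z ∧
    (N : ℝ) ^ ((1 - 1 / (J : ℝ)) / 2) * (1 + Real.log N) +
      Real.sqrt N * (1 + Real.log N) ^ (2 * z - 1) / (z : ℝ) ^ J ≤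
    Real.sqrt N * Real.exp (-(1 / 32) * Real.sqrt (Real.log N * Real.log (Real.log N))) := by
  have t0 : 0 < t := by linarith
  have w0 : 0 < w := by linarith
  have hL128 : 128 ≤ L := by
    rw [← ht8]
    calc (128 : ℝ) ≤ t := ht
      _ = t ^ 1 := (pow_one t).symm
      _ ≤ t ^ 8 := pow_le_pow_right₀ (by linarith) (by norm_num)
  have hL0 : 0 < L := by linarith
  have hN0 : (0 : ℝ) < N := by
    rcases Nat.eq_zero_or_pos N with h | h
    · subst h
      simp at hL
      linarith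
    · exact_mod_cast h
  have hs : Real.sqrt (Real.log N * Real.log (Real.log N)) = t ^ 4 * w := by
    rw [← hL, ← hl, ← ht8, ← hw]
    have : t ^ 8 * w ^ 2 = (t ^ 4 * w) ^ 2 := by ring
    rw [this]
    exact Real.sqrt_sq (by positivity)
  set s : ℝ := t ^ 4 * w with hsdef
  set J0 : ℝ := t ^ 4 / w with hJ0
  have hJ01 : 1 ≤ J0 := by
    rw [hJ0, le_div_iff₀ w0, one_mul]
    calc w ≤ t := hwt
      _ = t ^ 1 := (pow_one t).symm
      _ ≤ t ^ 4 := pow_le_pow_right₀ (by linarith) (by norm_num)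
  have hJpos : 0 < J0 := by linarith
  set J : ℕ := ⌈J0⌉₊ with hJ
  set z : ℕ := ⌈t⌉₊ with hz
  have hJl : J0 ≤ J := Nat.le_ceil J0
  have hJu : (J : ℝ) ≤ 2 * J0 := by
    have := (Nat.ceil_lt_add_one hJpos.le).le
    linarith
  have hzl : t ≤ z := Nat.le_ceil t
  have hzu : (z : ℝ) ≤ 2 * t := by
    have := (Nat.ceil_lt_add_one t0.le).le
    linarith
  have hJ1 : 1 ≤ J := Nat.ceil_pos.mpr hJpos
  have hz1 : 1 ≤ z := Nat.ceil_pos.mpr t0
  have hJr : (0 : ℝ) < J := by linarith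
  have hsq : Real.sqrt N = Real.exp (L / 2) := by
    rw [hL, ← Real.log_sqrt hN0.le, Real.exp_log (Real.sqrt_pos.mpr hN0)]
  have hexp2l : Real.exp (2 * l) = L ^ 2 := by
    rw [hl, show (2 : ℝ) * Real.log L = ((2 : ℕ) : ℝ) * Real.log L by norm_num, Real.exp_nat_mul,
      Real.exp_log hL0]
  have h1L : 1 + Real.log N ≤ Real.exp (2 * l) := by
    rw [← hL, hexp2l]
    nlinarith
  have h1L0 : 0 ≤ 1 + Real.log N := by
    rw [← hL]
    linarith
  have h1L1 : 1 ≤ 1 + Real.log N := by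
    rw [← hL]
    linarith
  -- the error bounds
  have hlt : 8 * l * t ≤ s / 16 := by
    have h1 : 128 * w ^ 2 * t ≤ t ^ 4 * w := by
      calc 128 * w ^ 2 * t ≤ t * (w * t) * t := by
            have : w ^ 2 ≤ w * t := by nlinarith
            have h2 : 128 * w ^ 2 ≤ t * (w * t) :=
              mul_le_mul ht this (by positivity) t0.le
            exact mul_le_mul_of_nonneg_right h2 t0.le
        _ = t ^ 3 * w := by ring
        _ ≤ t ^ 4 * w := by
            have : t ^ 3 ≤ t ^ 4 := pow_le_pow_right₀ (by linarith) (by norm_num)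
            exact mul_le_mul_of_nonneg_right this w0.le
    rw [← hw, hsdef]
    linarith
  have hl0 : 0 ≤ l := by
    rw [← hw]
    positivity
  have hlt2 : 2 * l ≤ s / 16 := by
    have : 2 * l ≤ 8 * l * t := by nlinarith
    linarith
  have hs128 : 128 ≤ s := by
    rw [hsdef]
    calc (128 : ℝ) ≤ t := ht
      _ = t ^ 1 := (pow_one t).symm
      _ ≤ t ^ 4 := pow_le_pow_right₀ (by linarith) (by norm_num)
      _ ≤ t ^ 4 * w := le_mul_of_one_le_right (by positivity) hw1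
  have hlog2 : Real.log 2 ≤ s / 32 := by
    have := Real.log_two_lt_d9
    linarith
  -- term (i)
  have hLJ : s / 4 ≤ L / (2 * J) := by
    have h1 : s * (2 * J0) = 2 * L := by
      rw [hsdef, hJ0, ← ht8]
      field_simp
    rw [div_le_div_iff₀ (by norm_num) (by positivity)]
    have h2 : 0 ≤ s := by linarith
    nlinarith [mul_le_mul_of_nonneg_left hJu h2]
  have hterm1 : (N : ℝ) ^ ((1 - 1 / (J : ℝ)) / 2) * (1 + Real.log N) ≤
      Real.exp (L / 2 - s / 16) := by
    rw [Real.rpow_def_of_pos hN0, ← hL]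
    rw [← hL] at h1L
    calc Real.exp (L * ((1 - 1 / (J : ℝ)) / 2)) * (1 + L)
        ≤ Real.exp (L * ((1 - 1 / (J : ℝ)) / 2)) * Real.exp (2 * l) := by gcongr
      _ = Real.exp (L * ((1 - 1 / (J : ℝ)) / 2) + 2 * l) := (Real.exp_add _ _).symm
      _ ≤ Real.exp (L / 2 - s / 16) := by
          apply Real.exp_le_exp.mpr
          have h3 : L * ((1 - 1 / (J : ℝ)) / 2) = L / 2 - L / (2 * J) := by
            field_simp
          rw [h3]
          linarith
  -- term (ii)
  have hzJ : Real.exp (s / 8) ≤ (z : ℝ) ^ J := by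
    calc Real.exp (s / 8) ≤ Real.exp (J * (l / 8)) := by
          apply Real.exp_le_exp.mpr
          have h4 : s = J0 * l := by
            rw [hsdef, hJ0, ← hw]
            field_simp
          rw [h4]
          have : J0 * l ≤ J * l := mul_le_mul_of_nonneg_right hJl hl0
          linarith
      _ = t ^ J := by rw [← hlogt, Real.exp_nat_mul, Real.exp_log t0]
      _ ≤ (z : ℝ) ^ J := pow_le_pow_left₀ t0.le hzl J
  have hnum : (1 + Real.log N) ^ (2 * z - 1) ≤ Real.exp (8 * l * t) := by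
    calc (1 + Real.log N) ^ (2 * z - 1) ≤ (1 + Real.log N) ^ (2 * z) :=
          pow_le_pow_right₀ h1L1 (by omega)
      _ ≤ Real.exp (2 * l) ^ (2 * z) := pow_le_pow_left₀ h1L0 h1L _
      _ = Real.exp (((2 * z : ℕ) : ℝ) * (2 * l)) := (Real.exp_nat_mul _ _).symm
      _ ≤ Real.exp (8 * l * t) := by
          apply Real.exp_le_exp.mpr
          push_cast
          nlinarith [mul_le_mul_of_nonneg_left hzu hl0]
  have hterm2 : Real.sqrt N * (1 + Real.log N) ^ (2 * z - 1) / (z : ℝ) ^ J ≤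
      Real.exp (L / 2 - s / 16) := by
    calc Real.sqrt N * (1 + Real.log N) ^ (2 * z - 1) / (z : ℝ) ^ J
        ≤ Real.exp (L / 2) * Real.exp (8 * l * t) / Real.exp (s / 8) := by
          rw [hsq]
          gcongr
      _ = Real.exp (L / 2 + 8 * l * t - s / 8) := by rw [← Real.exp_add, ← Real.exp_sub]
      _ ≤ Real.exp (L / 2 - s / 16) := by
          apply Real.exp_le_exp.mpr
          linarith
  refine ⟨J, z, hJ1, hz1, ?_⟩
  rw [hs]
  calc (N : ℝ) ^ ((1 - 1 / (J : ℝ)) / 2) * (1 + Real.log N) +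
        Real.sqrt N * (1 + Real.log N) ^ (2 * z - 1) / (z : ℝ) ^ J
      ≤ Real.exp (L / 2 - s / 16) + Real.exp (L / 2 - s / 16) := add_le_add hterm1 hterm2
    _ = Real.exp (Real.log 2) * Real.exp (L / 2 - s / 16) := by
        rw [Real.exp_log (by norm_num)]
        ring
    _ = Real.exp (Real.log 2 + (L / 2 - s / 16)) := (Real.exp_add _ _).symm
    _ ≤ Real.exp (L / 2 + -(1 / 32) * s) := by
        apply Real.exp_le_exp.mpr
        linarith
    _ = Real.sqrt N * Real.exp (-(1 / 32) * s) := by rw [Real.exp_add, hsq]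

theorem asymp : ∃ c : ℝ, 0 < c ∧ ∀ᶠ N : ℕ in Filter.atTop, ∃ J z : ℕ, 1 ≤ J ∧ 1 ≤ z ∧
    (N : ℝ) ^ ((1 - 1 / (J : ℝ)) / 2) * (1 + Real.log N) +
      Real.sqrt N * (1 + Real.log N) ^ (2 * z - 1) / (z : ℝ) ^ J ≤
    Real.sqrt N * Real.exp (-c * Real.sqrt (Real.log N * Real.log (Real.log N))) := by
  refine ⟨1 / 32, by norm_num, ?_⟩
  have hlog : Tendsto (fun N : ℕ => Real.log (N : ℝ)) atTop atTop :=
    Real.tendsto_log_atTop.comp tendsto_natCast_atTop_atTop
  have hev1 : ∀ᶠ L : ℝ in atTop, 128 ≤ L ^ (1 / 8 : ℝ) :=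
    (tendsto_rpow_atTop (by norm_num)).eventually_ge_atTop 128
  have hev2 : ∀ᶠ L : ℝ in atTop, 1 ≤ Real.log L := Real.tendsto_log_atTop.eventually_ge_atTop 1
  have hev3 : ∀ᶠ L : ℝ in atTop, ‖Real.log L‖ ≤ 1 * ‖L ^ (1 / 4 : ℝ)‖ :=
    (isLittleO_log_rpow_atTop (by norm_num)).def one_pos
  have hev4 : ∀ᶠ L : ℝ in atTop, 0 < L := eventually_gt_atTop 0
  filter_upwards [hlog.eventually (hev1.and (hev2.and (hev3.and hev4)))] with N hN
  obtain ⟨h1, h2, h3, h4⟩ := hN
  set L := Real.log (N : ℝ) with hL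
  have hpow : (L ^ (1 / 8 : ℝ)) ^ 8 = L := by
    rw [← Real.rpow_natCast, ← Real.rpow_mul h4.le]
    norm_num
  have hpow2 : (L ^ (1 / 8 : ℝ)) ^ 2 = L ^ (1 / 4 : ℝ) := by
    rw [← Real.rpow_natCast, ← Real.rpow_mul h4.le]
    norm_num
  have hw2 : Real.sqrt (Real.log L) ^ 2 = Real.log L := Real.sq_sqrt (by linarith)
  refine core N L (Real.log L) (L ^ (1 / 8 : ℝ)) (Real.sqrt (Real.log L)) hL rfl hpow h1 ?_ hw2 ?_ ?_
  · rw [Real.log_rpow h4]
    ring
  · rw [Real.one_le_sqrt]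
    exact h2
  · apply Real.sqrt_le_iff.mpr
    refine ⟨by positivity, ?_⟩
    rw [hpow2]
    rw [one_mul, Real.norm_of_nonneg (by linarith), Real.norm_of_nonneg (by positivity)] at h3
    exact h3

end H49W
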