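import Pool.Agent.Lib.H49W.Defs

/-!
Basic facts for MP_d0f2af_nt: sigma(n) = 2 usigma(n).
-/

namespace H49W

open Finset

/-- `r p e = σ(p^e) / (p^e + 1)` in closed form. -/
noncomputable def r (p e : ℕ) : ℚ := ((p : ℚ) - ((p : ℚ) + 1) / ((p : ℚ) ^ e + 1)) / ((p : ℚ) - 1)

/-- `lim p = p / (p - 1)`, the limit of `r p e` for `e → ∞`. -/
noncomputable def lim (p : ℕ) : ℚ := (p : ℚ) / ((p : ℚ) - 1)

theorem prod_primePow_coprime {S T : Finset ℕ} (hS : ∀ p ∈ S, p.Prime) (hT : ∀ p ∈ T, p.Prime)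
    (hST : Disjoint S T) (v w : ℕ → ℕ) :
    Nat.Coprime (∏ p ∈ S, p ^ v p) (∏ p ∈ T, p ^ w p) := by
  refine Nat.Coprime.prod_left fun p hp => Nat.Coprime.prod_right fun q hq => ?_
  refine Nat.Coprime.pow _ _ ?_
  rw [Nat.coprime_primes (hS p hp) (hT q hq)]
  rintro rfl
  exact (Finset.disjoint_left.mp hST) hp hq

theorem primeFactors_prod_pow {S : Finset ℕ} (hS : ∀ p ∈ S, p.Prime) {v : ℕ → ℕ}
    (hv : ∀ p ∈ S, v p ≠ 0) : (∏ p ∈ S, p ^ v p).primeFactors = S := by
  ext q
  rw [Nat.mem_primeFactors]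
  constructor
  · rintro ⟨hq, hd, -⟩
    rw [hq.prime.dvd_finsetProd_iff] at hd
    obtain ⟨p, hp, hqp⟩ := hd
    have := hq.dvd_of_dvd_pow hqp
    rw [Nat.prime_dvd_prime_iff_eq hq (hS p hp)] at this
    exact this ▸ hp
  · intro hq
    refine ⟨hS q hq, ?_, ?_⟩
    · exact (dvd_pow_self q (hv q hq)).trans (Finset.dvd_prod_of_mem _ hq)
    · exact Finset.prod_ne_zero_iff.mpr fun p hp => pow_ne_zero _ (hS p hp).ne_zero

theorem usigma_eq {n : ℕ} (hn : n ≠ 0) :
    usigma n = ∏ p ∈ n.primeFactors, (p ^ n.factorization p + 1) := by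
  have hPF : ∀ p ∈ n.primeFactors, p.Prime := fun p hp => Nat.prime_of_mem_primeFactors hp
  have hv : ∀ p ∈ n.primeFactors, n.factorization p ≠ 0 := by
    intro p hp
    exact Finsupp.mem_support_iff.mp (by rwa [Nat.support_factorization])
  have hself : ∏ p ∈ n.primeFactors, p ^ n.factorization p = n := by
    have := Nat.prod_factorization_pow_eq_self hn
    rw [Finsupp.prod, Nat.support_factorization] at this
    exact this
  rw [Finset.prod_add_one]
  unfold usigma
  refine Finset.sum_bij' (fun d _ => d.primeFactors) (fun S _ => ∏ p ∈ S, p ^ n.factorization p)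
    ?_ ?_ ?_ ?_ ?_
  · intro d hd
    rw [Finset.mem_filter, Nat.mem_divisors] at hd
    rw [Finset.mem_powerset]
    exact Nat.primeFactors_mono hd.1.1 hn
  · intro S hS
    rw [Finset.mem_powerset] at hS
    have hmul : (∏ p ∈ S, p ^ n.factorization p) * ∏ p ∈ n.primeFactors \ S, p ^ n.factorization p = n := by
      rw [mul_comm, Finset.prod_sdiff hS, hself]
    have hcop := prod_primePow_coprime (S := S) (T := n.primeFactors \ S)
      (fun p hp => hPF p (hS hp)) (fun p hp => hPF p (Finset.mem_sdiff.mp hp).1)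
      Finset.disjoint_sdiff n.factorization n.factorization
    rw [Finset.mem_filter, Nat.mem_divisors]
    refine ⟨⟨Dvd.intro _ hmul, hn⟩, ?_⟩
    have hpos : 0 < ∏ p ∈ S, p ^ n.factorization p :=
      Nat.pos_of_ne_zero (Finset.prod_ne_zero_iff.mpr fun p hp => pow_ne_zero _ (hPF p (hS hp)).ne_zero)
    have : n / (∏ p ∈ S, p ^ n.factorization p) = ∏ p ∈ n.primeFactors \ S, p ^ n.factorization p :=
      Nat.div_eq_of_eq_mul_right hpos hmul.symm
    rw [this]
    exact hcop
  · intro d hd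
    rw [Finset.mem_filter, Nat.mem_divisors] at hd
    obtain ⟨⟨hdn, -⟩, hcop⟩ := hd
    have hd0 : d ≠ 0 := fun h => hn (Nat.eq_zero_of_zero_dvd (h ▸ hdn))
    have h1 : ∏ p ∈ d.primeFactors, p ^ d.factorization p = d := by
      have := Nat.prod_factorization_pow_eq_self hd0
      rw [Finsupp.prod, Nat.support_factorization] at this
      exact this
    conv_rhs => rw [← h1]
    refine Finset.prod_congr rfl fun p hp => ?_
    congr 1
    have hq0 : n / d ≠ 0 := (Nat.div_pos (Nat.le_of_dvd (Nat.pos_of_ne_zero hn) hdn)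
      (Nat.pos_of_ne_zero hd0)).ne'
    have h2 : n.factorization p = d.factorization p + (n / d).factorization p := by
      conv_lhs => rw [← Nat.mul_div_cancel' hdn, Nat.factorization_mul hd0 hq0]
      rfl
    have h3 : (n / d).factorization p = 0 := by
      apply Nat.factorization_eq_zero_of_not_dvd
      intro h
      have hp' := Nat.prime_of_mem_primeFactors hp
      have := Nat.dvd_gcd (Nat.dvd_of_mem_primeFactors hp) h
      rw [hcop.gcd_eq_one] at this
      exact hp'.one_lt.ne' (Nat.dvd_one.mp this)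
    omega
  · intro S hS
    rw [Finset.mem_powerset] at hS
    exact primeFactors_prod_pow (fun p hp => hPF p (hS hp)) (fun p hp => hv p (hS hp))
  · intro d hd
    rw [Finset.mem_filter, Nat.mem_divisors] at hd
    obtain ⟨⟨hdn, -⟩, hcop⟩ := hd
    have hd0 : d ≠ 0 := fun h => hn (Nat.eq_zero_of_zero_dvd (h ▸ hdn))
    have h1 : ∏ p ∈ d.primeFactors, p ^ d.factorization p = d := by
      have := Nat.prod_factorization_pow_eq_self hd0
      rw [Finsupp.prod, Nat.support_factorization] at this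
      exact this
    conv_lhs => rw [← h1]
    refine Finset.prod_congr rfl fun p hp => ?_
    congr 1
    have hq0 : n / d ≠ 0 := (Nat.div_pos (Nat.le_of_dvd (Nat.pos_of_ne_zero hn) hdn)
      (Nat.pos_of_ne_zero hd0)).ne'
    have h2 : n.factorization p = d.factorization p + (n / d).factorization p := by
      conv_lhs => rw [← Nat.mul_div_cancel' hdn, Nat.factorization_mul hd0 hq0]
      rfl
    have h3 : (n / d).factorization p = 0 := by
      apply Nat.factorization_eq_zero_of_not_dvd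
      intro h
      have hp' := Nat.prime_of_mem_primeFactors hp
      have := Nat.dvd_gcd (Nat.dvd_of_mem_primeFactors hp) h
      rw [hcop.gcd_eq_one] at this
      exact hp'.one_lt.ne' (Nat.dvd_one.mp this)
    omega

theorem sum_pow_eq (p e : ℕ) (hp : 2 ≤ p) :
    ((∑ k ∈ range (e + 1), p ^ k : ℕ) : ℚ) = r p e * ((p : ℚ) ^ e + 1) := by
  have hp' : (2 : ℚ) ≤ p := by exact_mod_cast hp
  have h1 : ((p : ℚ) - 1) ≠ 0 := by linarith
  have h2 : ((p : ℚ) ^ e + 1) ≠ 0 := by positivity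
  have h3 := geom_sum_eq (x := (p : ℚ)) (by linarith) (e + 1)
  push_cast
  rw [h3, r]
  field_simp
  ring

theorem inA_iff {n : ℕ} (hn : n ≠ 0) :
    InA n ↔ ∏ p ∈ n.primeFactors, r p (n.factorization p) = 2 := by
  have h1 : (((∑ d ∈ n.divisors, d : ℕ)) : ℚ) =
      (∏ p ∈ n.primeFactors, r p (n.factorization p)) * ((usigma n : ℕ) : ℚ) := by
    rw [Nat.sum_divisors hn, usigma_eq hn]
    push_cast
    rw [← Finset.prod_mul_distrib]
    refine Finset.prod_congr rfl fun p hp => ?_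
    have := sum_pow_eq p (n.factorization p) (Nat.prime_of_mem_primeFactors hp).two_le
    push_cast at this
    exact this
  have h2 : ((usigma n : ℕ) : ℚ) ≠ 0 := by
    rw [usigma_eq hn]
    push_cast
    exact Finset.prod_ne_zero_iff.mpr fun p _ => by positivity
  constructor
  · intro h
    have h3 : (((∑ d ∈ n.divisors, d : ℕ)) : ℚ) = 2 * ((usigma n : ℕ) : ℚ) := by exact_mod_cast h.2
    rw [h1] at h3
    exact mul_right_cancel₀ h2 h3
  · intro h
    refine ⟨Nat.one_le_iff_ne_zero.mpr hn, ?_⟩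
    rw [h] at h1
    exact_mod_cast h1

/-! ### elementary inequalities for `r` -/

theorem r_lt_lim {p e : ℕ} (hp : 2 ≤ p) : r p e < lim p := by
  have hp' : (2 : ℚ) ≤ p := by exact_mod_cast hp
  unfold r lim
  apply div_lt_div_of_pos_right _ (by linarith)
  have : 0 < ((p : ℚ) + 1) / ((p : ℚ) ^ e + 1) := by positivity
  linarith

theorem r_mono {p e e' : ℕ} (hp : 2 ≤ p) (h : e ≤ e') : r p e ≤ r p e' := by
  have hp' : (2 : ℚ) ≤ p := by exact_mod_cast hp
  unfold r
  apply div_le_div_of_nonneg_right _ (by linarith)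
  have h1 : (p : ℚ) ^ e ≤ (p : ℚ) ^ e' := pow_le_pow_right₀ (by linarith) h
  have : ((p : ℚ) + 1) / ((p : ℚ) ^ e' + 1) ≤ ((p : ℚ) + 1) / ((p : ℚ) ^ e + 1) := by
    apply div_le_div_of_nonneg_left (by positivity) (by positivity)
    linarith
  linarith

theorem r_one {p : ℕ} (hp : 2 ≤ p) : r p 1 = 1 := by
  have hp' : (2 : ℚ) ≤ p := by exact_mod_cast hp
  unfold r
  have h2 : ((p : ℚ) + 1) ≠ 0 := by positivity
  rw [pow_one, div_self h2, div_self (by linarith)]

theorem one_lt_r {p e : ℕ} (hp : 2 ≤ p) (he : 2 ≤ e) : 1 < r p e := by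
  have hp' : (2 : ℚ) ≤ p := by exact_mod_cast hp
  unfold r
  rw [lt_div_iff₀ (by linarith)]
  have h1 : (p : ℚ) ^ 2 ≤ (p : ℚ) ^ e := pow_le_pow_right₀ (by linarith) he
  have h2 : ((p : ℚ) + 1) / ((p : ℚ) ^ e + 1) < 1 := by
    rw [div_lt_one (by positivity)]
    nlinarith
  linarith

theorem one_le_r {p e : ℕ} (hp : 2 ≤ p) (he : 1 ≤ e) : 1 ≤ r p e := by
  rw [← r_one hp]; exact r_mono hp he

theorem one_lt_lim {p : ℕ} (hp : 2 ≤ p) : 1 < lim p :=
  lt_of_lt_of_le (one_lt_r hp le_rfl) (r_lt_lim hp).le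

theorem lim_anti {p q : ℕ} (hp : 2 ≤ p) (h : p ≤ q) : lim q ≤ lim p := by
  have hp' : (2 : ℚ) ≤ p := by exact_mod_cast hp
  have hq' : (p : ℚ) ≤ q := by exact_mod_cast h
  unfold lim
  rw [div_le_div_iff₀ (by linarith) (by linarith)]
  nlinarith

theorem tendsto_r {p : ℕ} (hp : 2 ≤ p) :
    Filter.Tendsto (fun e => ((r p e : ℚ) : ℝ)) Filter.atTop (nhds ((lim p : ℚ) : ℝ)) := by
  have hp' : (2 : ℝ) ≤ p := by exact_mod_cast hp
  have h1 : Filter.Tendsto (fun e : ℕ => (p : ℝ) ^ e) Filter.atTop Filter.atTop :=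
    tendsto_pow_atTop_atTop_of_one_lt (by linarith)
  have h2 : Filter.Tendsto (fun e : ℕ => (p : ℝ) ^ e + 1) Filter.atTop Filter.atTop :=
    Filter.tendsto_atTop_add_const_right _ _ h1
  have h3 : Filter.Tendsto (fun e : ℕ => ((p : ℝ) + 1) / ((p : ℝ) ^ e + 1)) Filter.atTop (nhds 0) :=
    Filter.Tendsto.div_atTop tendsto_const_nhds h2
  have h4 : Filter.Tendsto (fun e : ℕ => ((p : ℝ) - ((p : ℝ) + 1) / ((p : ℝ) ^ e + 1)) / ((p : ℝ) - 1))
      Filter.atTop (nhds (((p : ℝ) - 0) / ((p : ℝ) - 1))) :=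
    (tendsto_const_nhds.sub h3).div_const _
  rw [sub_zero] at h4
  refine (h4.congr fun e => ?_).trans_eq ?_
  · unfold r; push_cast; rfl
  · unfold lim; push_cast; rfl

end H49W
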