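import Pool.Agent.Lib.H49W.Fin

/-!
Counting powerful elements of `A`: sums of `z ^ ω` over powerful numbers.
-/

namespace H49W

open Finset

/-- number of prime factors -/
def om (n : ℕ) : ℕ := n.primeFactors.card

/-- `H z N = ∑_{a ≤ N} z^ω(a) / a` -/
noncomputable def H (z N : ℕ) : ℝ := ∑ a ∈ Icc 1 N, (z : ℝ) ^ om a / a

theorem H_nonneg (z N : ℕ) : 0 ≤ H z N := Finset.sum_nonneg fun _ _ => by positivity

theorem H_mono {z N N' : ℕ} (h : N ≤ N') : H z N ≤ H z N' :=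
  Finset.sum_le_sum_of_subset_of_nonneg (Finset.Icc_subset_Icc_right h) fun _ _ _ => by positivity

/-- `(z+1)^ω(a) ≤ ∑_{d ∣ a} z^ω(d)`. -/
theorem succ_pow_om_le (z : ℕ) {a : ℕ} (ha : a ≠ 0) :
    ((z : ℝ) + 1) ^ om a ≤ ∑ d ∈ a.divisors, (z : ℝ) ^ om d := by
  have h1 : ((z : ℝ) + 1) ^ om a = ∑ S ∈ a.primeFactors.powerset, (z : ℝ) ^ S.card := by
    rw [om, ← Finset.prod_const, Finset.prod_add_one]
    refine Finset.sum_congr rfl fun S _ => ?_
    rw [Finset.prod_const]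
  rw [h1]
  have hprime : ∀ S ∈ a.primeFactors.powerset, ∀ p ∈ S, p.Prime := fun S hS p hp =>
    Nat.prime_of_mem_primeFactors (Finset.mem_powerset.mp hS hp)
  have hPF : ∀ S ∈ a.primeFactors.powerset, (∏ p ∈ S, p).primeFactors = S := by
    intro S hS
    have := primeFactors_prod_pow (hprime S hS) (v := fun _ => 1) (fun _ _ => one_ne_zero)
    simpa using this
  have hinj : Set.InjOn (fun S : Finset ℕ => ∏ p ∈ S, p) (a.primeFactors.powerset : Set (Finset ℕ)) := by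
    intro S hS T hT hST
    have h2 := hPF S hS
    have h3 := hPF T hT
    have hST' : ∏ p ∈ S, p = ∏ p ∈ T, p := hST
    rw [← h2, ← h3, hST']
  have h4 : ∑ S ∈ a.primeFactors.powerset, (z : ℝ) ^ S.card =
      ∑ d ∈ a.primeFactors.powerset.image (fun S => ∏ p ∈ S, p), (z : ℝ) ^ om d := by
    rw [Finset.sum_image hinj]
    refine Finset.sum_congr rfl fun S hS => ?_
    rw [om, hPF S hS]
  rw [h4]
  refine Finset.sum_le_sum_of_subset_of_nonneg ?_ fun _ _ _ => by positivity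
  intro d hd
  rw [Finset.mem_image] at hd
  obtain ⟨S, hS, rfl⟩ := hd
  rw [Nat.mem_divisors]
  refine ⟨?_, ha⟩
  exact Finset.prod_primes_dvd a (fun p hp => (hprime S hS p hp).prime) fun p hp =>
    Nat.dvd_of_mem_primeFactors (Finset.mem_powerset.mp hS hp)

/-- swapping: `∑_{a ≤ N} F a ∑_{d ∣ a} g d = ∑_{d ≤ N} g d ∑_{e ≤ N/d} F (d e)` -/
theorem sum_divisors_swap (N : ℕ) (F g : ℕ → ℝ) :
    ∑ a ∈ Icc 1 N, F a * ∑ d ∈ a.divisors, g d =
      ∑ d ∈ Icc 1 N, g d * ∑ e ∈ Icc 1 (N / d), F (d * e) := by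
  simp_rw [Finset.mul_sum]
  rw [Finset.sum_sigma', Finset.sum_sigma']
  refine Finset.sum_bij' (fun x _ => (⟨x.2, x.1 / x.2⟩ : (_ : ℕ) × ℕ))
    (fun y _ => (⟨y.1 * y.2, y.1⟩ : (_ : ℕ) × ℕ)) ?_ ?_ ?_ ?_ ?_
  · rintro ⟨a, d⟩ h
    simp only [Finset.mem_sigma, Finset.mem_Icc, Nat.mem_divisors] at h ⊢
    obtain ⟨⟨h1, h2⟩, h3, h4⟩ := h
    have hd0 : 0 < d := Nat.pos_of_dvd_of_pos h3 (by omega)
    refine ⟨⟨hd0, (Nat.le_of_dvd (by omega) h3).trans h2⟩, ?_, Nat.div_le_div_right h2⟩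
    exact Nat.div_pos (Nat.le_of_dvd (by omega) h3) hd0
  · rintro ⟨d, e⟩ h
    simp only [Finset.mem_sigma, Finset.mem_Icc, Nat.mem_divisors] at h ⊢
    obtain ⟨⟨h1, h2⟩, h3, h4⟩ := h
    have : d * e ≤ N := (Nat.mul_le_mul_left d h4).trans (Nat.mul_div_le N d)
    have h5 : 0 < d * e := Nat.mul_pos (by omega) (by omega)
    exact ⟨⟨h5, this⟩, Dvd.intro e rfl, by omega⟩
  · rintro ⟨a, d⟩ h
    simp only [Finset.mem_sigma, Finset.mem_Icc, Nat.mem_divisors] at h ⊢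
    rw [Nat.mul_div_cancel' h.2.1]
  · rintro ⟨d, e⟩ h
    simp only [Finset.mem_sigma, Finset.mem_Icc] at h ⊢
    rw [Nat.mul_div_cancel_left e (by omega)]
  · rintro ⟨a, d⟩ h
    simp only [Finset.mem_sigma, Finset.mem_Icc, Nat.mem_divisors] at h ⊢
    rw [Nat.mul_div_cancel' h.2.1]
    ring

theorem H_one_le {N : ℕ} : H 1 N ≤ 1 + Real.log N := by
  have h := harmonic_le_one_add_log N
  refine le_trans (le_of_eq ?_) h
  unfold H
  rw [harmonic_eq_sum_Icc]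
  push_cast
  refine Finset.sum_congr rfl fun a _ => ?_
  rw [one_pow, one_div]

theorem H_zero_le {N : ℕ} : H 0 N ≤ 1 := by
  unfold H
  rcases Nat.eq_zero_or_pos N with rfl | hN
  · simp
  rw [Finset.sum_eq_single_of_mem 1 (Finset.mem_Icc.mpr ⟨le_rfl, hN⟩)]
  · simp [om]
  · intro a ha ha1
    have h1 : 1 ≤ a := (Finset.mem_Icc.mp ha).1
    have h2 : om a ≠ 0 := by
      unfold om
      rw [Ne, Finset.card_eq_zero, Nat.primeFactors_eq_empty]
      omega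
    rw [Nat.cast_zero, zero_pow h2, zero_div]

theorem H_succ_le (z N : ℕ) : H (z + 1) N ≤ H z N * H 1 N := by
  have h1 : H (z + 1) N ≤ ∑ a ∈ Icc 1 N, (1 / (a : ℝ)) * ∑ d ∈ a.divisors, (z : ℝ) ^ om d := by
    refine Finset.sum_le_sum fun a ha => ?_
    have ha1 : 1 ≤ a := (Finset.mem_Icc.mp ha).1
    have h2 := succ_pow_om_le z (a := a) (by omega)
    have ha' : (0 : ℝ) < a := by exact_mod_cast ha1
    rw [div_eq_mul_one_div, mul_comm]
    push_cast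
    exact mul_le_mul_of_nonneg_left h2 (by positivity)
  refine h1.trans ?_
  rw [sum_divisors_swap N (fun a => 1 / (a : ℝ)) (fun d => (z : ℝ) ^ om d), H, Finset.sum_mul]
  refine Finset.sum_le_sum fun d hd => ?_
  have hd1 : 1 ≤ d := (Finset.mem_Icc.mp hd).1
  have hd' : (0 : ℝ) < d := by exact_mod_cast hd1
  have h3 : ∑ e ∈ Icc 1 (N / d), 1 / ((d * e : ℕ) : ℝ) ≤ (1 / (d : ℝ)) * H 1 N := by
    calc ∑ e ∈ Icc 1 (N / d), 1 / ((d * e : ℕ) : ℝ) = (1 / (d : ℝ)) * H 1 (N / d) := by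
          rw [H, Finset.mul_sum]
          refine Finset.sum_congr rfl fun e _ => ?_
          push_cast
          rw [one_pow, one_div_mul_one_div]
      _ ≤ (1 / (d : ℝ)) * H 1 N :=
          mul_le_mul_of_nonneg_left (H_mono (Nat.div_le_self N d)) (by positivity)
  calc (z : ℝ) ^ om d * ∑ e ∈ Icc 1 (N / d), 1 / ((d * e : ℕ) : ℝ)
      ≤ (z : ℝ) ^ om d * ((1 / (d : ℝ)) * H 1 N) := mul_le_mul_of_nonneg_left h3 (by positivity)
    _ = (z : ℝ) ^ om d / d * H 1 N := by ring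

theorem H_le (z N : ℕ) : H z N ≤ (1 + Real.log N) ^ z := by
  have hlog : 0 ≤ Real.log N := Real.log_natCast_nonneg N
  induction z with
  | zero => rw [pow_zero]; exact H_zero_le
  | succ z ih =>
    calc H (z + 1) N ≤ H z N * H 1 N := H_succ_le z N
      _ ≤ (1 + Real.log N) ^ z * (1 + Real.log N) :=
          mul_le_mul ih H_one_le (H_nonneg _ _) (by positivity)
      _ = _ := by rw [← pow_succ]

/-- `∑_{a ≤ Y} (z+1)^ω(a) ≤ Y * H z Y` -/
theorem sum_pow_om_le (z Y : ℕ) : ∑ a ∈ Icc 1 Y, ((z : ℝ) + 1) ^ om a ≤ Y * H z Y := by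
  have h1 : ∑ a ∈ Icc 1 Y, ((z : ℝ) + 1) ^ om a ≤
      ∑ a ∈ Icc 1 Y, (1 : ℝ) * ∑ d ∈ a.divisors, (z : ℝ) ^ om d := by
    refine Finset.sum_le_sum fun a ha => ?_
    rw [one_mul]
    exact succ_pow_om_le z (by have := (Finset.mem_Icc.mp ha).1; omega)
  refine h1.trans ?_
  rw [sum_divisors_swap Y (fun _ => 1) (fun d => (z : ℝ) ^ om d), H, Finset.mul_sum]
  refine Finset.sum_le_sum fun d hd => ?_
  have hd1 : 1 ≤ d := (Finset.mem_Icc.mp hd).1
  have hd' : (0 : ℝ) < d := by exact_mod_cast hd1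
  rw [Finset.sum_const, Nat.card_Icc, Nat.add_sub_cancel, nsmul_eq_mul, mul_one]
  have h2 : ((Y / d : ℕ) : ℝ) ≤ Y / d := Nat.cast_div_le
  calc (z : ℝ) ^ om d * ((Y / d : ℕ) : ℝ) ≤ (z : ℝ) ^ om d * (Y / d) :=
        mul_le_mul_of_nonneg_left h2 (by positivity)
    _ = Y * ((z : ℝ) ^ om d / d) := by ring

end H49W
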