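import Pool.Agent.Lib.H49W.Count1

/-!
Counting powerful elements of `A`: powerful numbers.
-/

namespace H49W

open Finset

theorem powerful_decomp {n : ℕ} (h : Powerful n) : ∃ a b : ℕ, n = a ^ 2 * b ^ 3 := by
  obtain ⟨s, c, hn, hs⟩ := Nat.sq_mul_squarefree n
  have hs0 : s ≠ 0 := hs.ne_zero
  have hdvd : s ∣ c := by
    rw [← Nat.prod_primeFactors_of_squarefree hs]
    refine Finset.prod_primes_dvd c (fun p hp => (Nat.prime_of_mem_primeFactors hp).prime) fun p hp => ?_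
    have hpp := Nat.prime_of_mem_primeFactors hp
    have hps := Nat.dvd_of_mem_primeFactors hp
    by_contra hpc
    have h1 : p ^ 2 ∣ n := h.2 p hpp (hn ▸ (hps.mul_left _))
    rw [← hn] at h1
    have hcop : Nat.Coprime (p ^ 2) (c ^ 2) :=
      Nat.Coprime.pow _ _ (hpp.coprime_iff_not_dvd.mpr hpc)
    have h2 : p ^ 2 ∣ s := hcop.dvd_of_dvd_mul_left h1
    rw [pow_two] at h2
    exact hpp.not_isUnit (hs p h2)
  obtain ⟨a, rfl⟩ := hdvd
  exact ⟨a, s, by rw [← hn]; ring⟩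

open Classical in
/-- the powerful numbers up to `N` -/
noncomputable def PF (N : ℕ) : Finset ℕ := (Icc 1 N).filter Powerful

theorem om_mul_le {a b : ℕ} (ha : a ≠ 0) (hb : b ≠ 0) : om (a ^ 2 * b ^ 3) ≤ om a + om b := by
  unfold om
  rw [Nat.primeFactors_mul (pow_ne_zero _ ha) (pow_ne_zero _ hb),
    Nat.primeFactors_pow _ (by norm_num), Nat.primeFactors_pow _ (by norm_num)]
  exact Finset.card_union_le _ _

theorem sum_PF_le (z N : ℕ) :
    ∑ n ∈ PF N, ((z : ℝ) + 1) ^ om n ≤ Nat.sqrt N * (H z (Nat.sqrt N) * H (z + 1) (Nat.sqrt N)) := by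
  classical
  set M := Nat.sqrt N with hM
  have hdec : ∀ n : ℕ, ∃ x : ℕ × ℕ, n ∈ PF N → n = x.1 ^ 2 * x.2 ^ 3 := by
    intro n
    by_cases h : n ∈ PF N
    · obtain ⟨a, b, hab⟩ := powerful_decomp (Finset.mem_filter.mp h).2
      exact ⟨(a, b), fun _ => hab⟩
    · exact ⟨(0, 0), fun h' => absurd h' h⟩
  choose φ hφ using hdec
  set T : Finset (ℕ × ℕ) := (Icc 1 M ×ˢ Icc 1 M).filter fun x => x.1 * x.2 ≤ M with hT
  have hinj : Set.InjOn φ (PF N : Set ℕ) := by
    intro n hn m hm h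
    rw [hφ n hn, hφ m hm, h]
  have hne : ∀ n ∈ PF N, (φ n).1 ≠ 0 ∧ (φ n).2 ≠ 0 := by
    intro n hn
    have h1 := hφ n hn
    have h2 : n ≠ 0 := by have := (Finset.mem_Icc.mp (Finset.mem_filter.mp hn).1).1; omega
    constructor
    · intro h; rw [h] at h1; simp at h1; exact h2 h1
    · intro h; rw [h] at h1; simp at h1; exact h2 h1
  have hmem : ∀ n ∈ PF N, φ n ∈ T := by
    intro n hn
    have h1 := hφ n hn
    obtain ⟨ha, hb⟩ := hne n hn
    have hnN : n ≤ N := (Finset.mem_Icc.mp (Finset.mem_filter.mp hn).1).2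
    have hab : (φ n).1 * (φ n).2 ≤ M := by
      rw [hM, Nat.le_sqrt']
      calc ((φ n).1 * (φ n).2) ^ 2 = (φ n).1 ^ 2 * (φ n).2 ^ 2 := mul_pow _ _ _
        _ ≤ (φ n).1 ^ 2 * (φ n).2 ^ 3 :=
            Nat.mul_le_mul_left _ (Nat.pow_le_pow_right (by omega) (by norm_num))
        _ = n := h1.symm
        _ ≤ N := hnN
    rw [hT, Finset.mem_filter, Finset.mem_product, Finset.mem_Icc, Finset.mem_Icc]
    refine ⟨⟨⟨by omega, ?_⟩, by omega, ?_⟩, hab⟩
    · exact (Nat.le_mul_of_pos_right _ (by omega)).trans hab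
    · exact (Nat.le_mul_of_pos_left _ (by omega)).trans hab
  have hstep1 : ∑ n ∈ PF N, ((z : ℝ) + 1) ^ om n ≤
      ∑ x ∈ T, ((z : ℝ) + 1) ^ om x.1 * ((z : ℝ) + 1) ^ om x.2 := by
    calc ∑ n ∈ PF N, ((z : ℝ) + 1) ^ om n
        ≤ ∑ n ∈ PF N, ((z : ℝ) + 1) ^ om (φ n).1 * ((z : ℝ) + 1) ^ om (φ n).2 := by
          refine Finset.sum_le_sum fun n hn => ?_
          rw [← pow_add]
          refine pow_le_pow_right₀ (by have : (0 : ℝ) ≤ z := Nat.cast_nonneg z; linarith) ?_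
          conv_lhs => rw [hφ n hn]
          exact om_mul_le (hne n hn).1 (hne n hn).2
      _ = ∑ x ∈ (PF N).image φ, ((z : ℝ) + 1) ^ om x.1 * ((z : ℝ) + 1) ^ om x.2 := by
          rw [Finset.sum_image hinj]
      _ ≤ _ := by
          refine Finset.sum_le_sum_of_subset_of_nonneg ?_ fun _ _ _ => by positivity
          intro x hx
          obtain ⟨n, hn, rfl⟩ := Finset.mem_image.mp hx
          exact hmem n hn
  refine hstep1.trans ?_
  have hstep2 : ∑ x ∈ T, ((z : ℝ) + 1) ^ om x.1 * ((z : ℝ) + 1) ^ om x.2 ≤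
      ∑ b ∈ Icc 1 M, ((z : ℝ) + 1) ^ om b * ∑ a ∈ Icc 1 (M / b), ((z : ℝ) + 1) ^ om a := by
    rw [hT, Finset.sum_filter, Finset.sum_product_right]
    refine Finset.sum_le_sum fun b hb => ?_
    have hb1 : 1 ≤ b := (Finset.mem_Icc.mp hb).1
    rw [Finset.mul_sum, ← Finset.sum_filter]
    have hsub : (Icc 1 M).filter (fun a => a * b ≤ M) ⊆ Icc 1 (M / b) := by
      intro a ha
      rw [Finset.mem_filter, Finset.mem_Icc] at ha
      rw [Finset.mem_Icc]
      exact ⟨ha.1.1, (Nat.le_div_iff_mul_le (by omega)).mpr ha.2⟩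
    refine le_trans (Finset.sum_le_sum_of_subset_of_nonneg hsub fun _ _ _ => by positivity) ?_
    refine Finset.sum_le_sum fun a _ => ?_
    rw [mul_comm]
  refine hstep2.trans ?_
  calc ∑ b ∈ Icc 1 M, ((z : ℝ) + 1) ^ om b * ∑ a ∈ Icc 1 (M / b), ((z : ℝ) + 1) ^ om a
      ≤ ∑ b ∈ Icc 1 M, ((z : ℝ) + 1) ^ om b * ((M : ℝ) / b * H z M) := by
        refine Finset.sum_le_sum fun b hb => ?_
        refine mul_le_mul_of_nonneg_left ?_ (by positivity)
        refine (sum_pow_om_le z (M / b)).trans ?_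
        exact mul_le_mul Nat.cast_div_le (H_mono (Nat.div_le_self M b)) (H_nonneg _ _) (by positivity)
    _ = M * (H z M * H (z + 1) M) := by
        rw [H, H, Finset.mul_sum, Finset.mul_sum]
        refine Finset.sum_congr rfl fun b _ => ?_
        push_cast
        ring

theorem sum_PF_le' (z N : ℕ) :
    ∑ n ∈ PF N, ((z : ℝ) + 1) ^ om n ≤ Real.sqrt N * (1 + Real.log N) ^ (2 * z + 1) := by
  refine (sum_PF_le z N).trans ?_
  have h1 : (Nat.sqrt N : ℝ) ≤ Real.sqrt N := Real.nat_sqrt_le_real_sqrt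
  have h2 : Real.log (Nat.sqrt N) ≤ Real.log N := by
    rcases Nat.eq_zero_or_pos (Nat.sqrt N) with h | h
    · rw [h]; simpa using Real.log_natCast_nonneg N
    · exact Real.log_le_log (by exact_mod_cast h) (by exact_mod_cast Nat.sqrt_le_self N)
  have h0 : 0 ≤ Real.log (Nat.sqrt N) := Real.log_natCast_nonneg _
  have hz : ∀ k : ℕ, H k (Nat.sqrt N) ≤ (1 + Real.log N) ^ k := fun k =>
    (H_le k _).trans (pow_le_pow_left₀ (by linarith) (by linarith) k)
  have h3 : 0 ≤ 1 + Real.log N := by linarith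
  have h4 : H z (Nat.sqrt N) * H (z + 1) (Nat.sqrt N) ≤ (1 + Real.log N) ^ (2 * z + 1) := by
    calc H z (Nat.sqrt N) * H (z + 1) (Nat.sqrt N)
        ≤ (1 + Real.log N) ^ z * (1 + Real.log N) ^ (z + 1) :=
          mul_le_mul (hz z) (hz (z + 1)) (H_nonneg _ _) (pow_nonneg h3 _)
      _ = (1 + Real.log N) ^ (2 * z + 1) := by rw [← pow_add]; congr 1; ring
  exact mul_le_mul h1 h4 (mul_nonneg (H_nonneg _ _) (H_nonneg _ _)) (Real.sqrt_nonneg _)

/-- number of powerful numbers up to `N` -/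
theorem card_PF_le (N : ℕ) : ((PF N).card : ℝ) ≤ Real.sqrt N * (1 + Real.log N) := by
  have h := sum_PF_le' 0 N
  simpa using h

/-- number of powerful numbers up to `N` with at least `J` prime factors -/
theorem card_many_le (z J N : ℕ) :
    (((PF N).filter fun n => J ≤ om n).card : ℝ) * ((z : ℝ) + 1) ^ J ≤
      Real.sqrt N * (1 + Real.log N) ^ (2 * z + 1) := by
  refine le_trans ?_ (sum_PF_le' z N)
  calc (((PF N).filter fun n => J ≤ om n).card : ℝ) * ((z : ℝ) + 1) ^ J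
      = ∑ n ∈ (PF N).filter fun n => J ≤ om n, ((z : ℝ) + 1) ^ J := by
        rw [Finset.sum_const, nsmul_eq_mul]
    _ ≤ ∑ n ∈ (PF N).filter fun n => J ≤ om n, ((z : ℝ) + 1) ^ om n := by
        refine Finset.sum_le_sum fun n hn => ?_
        exact pow_le_pow_right₀ (by have : (0 : ℝ) ≤ z := Nat.cast_nonneg z; linarith)
          (Finset.mem_filter.mp hn).2
    _ ≤ ∑ n ∈ PF N, ((z : ℝ) + 1) ^ om n :=
        Finset.sum_le_sum_of_subset_of_nonneg (Finset.filter_subset _ _) fun _ _ _ => by positivity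

end H49W
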