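import Pool.Agent.Lib.H49W.Count2

/-!
Counting powerful elements of `A`: removing the largest prime power.
-/

namespace H49W

open Finset

theorem r_strict {p e e' : ℕ} (hp : 2 ≤ p) (h : e < e') : r p e < r p e' := by
  have hp' : (2 : ℚ) ≤ p := by exact_mod_cast hp
  unfold r
  apply div_lt_div_of_pos_right _ (by linarith)
  have h1 : (p : ℚ) ^ e < (p : ℚ) ^ e' := pow_lt_pow_right₀ (by linarith) h
  have : ((p : ℚ) + 1) / ((p : ℚ) ^ e' + 1) < ((p : ℚ) + 1) / ((p : ℚ) ^ e + 1) := by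
    apply div_lt_div_of_pos_left (by positivity) (by positivity)
    linarith
  linarith

theorem r_inj_aux {p q e g : ℕ} (hp : p.Prime) (hq : q.Prime) (he : 2 ≤ e) (hg : 2 ≤ g)
    (h : r p e = r q g) (hlt : p < q) : False := by
  have h1 := r_ge hp.two_le he
  have h2 := r_lt_lim (p := q) (e := g) hq.two_le
  have hq2 : (2 : ℚ) ≤ q := by exact_mod_cast hq.two_le
  have hp2 : (2 : ℚ) ≤ p := by exact_mod_cast hp.two_le
  have h3 : lim q = 1 + 1 / ((q : ℚ) - 1) := by
    unfold lim
    have : (q : ℚ) - 1 ≠ 0 := by linarith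
    field_simp
    ring
  rw [h] at h1
  rw [h3] at h2
  have h4 : 1 / ((p : ℚ) + 1) < 1 / ((q : ℚ) - 1) := by linarith
  rw [div_lt_div_iff₀ (by linarith) (by linarith)] at h4
  have h5 : (q : ℚ) < ((p + 2 : ℕ) : ℚ) := by push_cast; linarith
  have h6 : q < p + 2 := by exact_mod_cast h5
  have h7 : q = p + 1 := by omega
  have h8 : p = 2 := by
    rcases hp.eq_two_or_odd with h | h
    · exact h
    · have hp2' := hp.two_le
      rcases hq.eq_two_or_odd with h' | h'
      · omega
      · omega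
  subst h8
  subst h7
  have hr22 : r 2 2 = 7 / 5 := by unfold r; norm_num
  have hr23 : r 2 3 = 5 / 3 := by unfold r; norm_num
  have hr32 : r 3 2 = 13 / 10 := by unfold r; norm_num
  have hr33 : r 3 3 = 10 / 7 := by unfold r; norm_num
  have hl3 : lim 3 = 3 / 2 := by unfold lim; norm_num
  have h9 : r (2 + 1) g < 3 / 2 := by
    have := r_lt_lim (p := 3) (e := g) (by norm_num)
    rw [hl3] at this
    exact this
  rcases Nat.lt_or_ge e 3 with he3 | he3
  · have : e = 2 := by omega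
    subst this
    rw [hr22] at h
    rcases Nat.lt_or_ge g 3 with hg3 | hg3
    · have : g = 2 := by omega
      subst this
      have h10 : r (2 + 1) 2 = 13 / 10 := hr32
      rw [h10] at h
      norm_num at h
    · have h10 : r 3 3 ≤ r (2 + 1) g := r_mono (by norm_num) hg3
      rw [hr33, ← h] at h10
      norm_num at h10
  · have h10 : r 2 3 ≤ r 2 e := r_mono le_rfl he3
    rw [hr23, h] at h10
    linarith

theorem r_inj {p q e g : ℕ} (hp : p.Prime) (hq : q.Prime) (he : 2 ≤ e) (hg : 2 ≤ g)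
    (h : r p e = r q g) : p = q ∧ e = g := by
  rcases lt_trichotomy p q with hlt | heq | hlt
  · exact (r_inj_aux hp hq he hg h hlt).elim
  · subst heq
    refine ⟨rfl, ?_⟩
    rcases lt_trichotomy e g with h1 | h1 | h1
    · exact absurd h (r_strict hp.two_le h1).ne
    · exact h1
    · exact absurd h (r_strict hp.two_le h1).ne'
  · exact (r_inj_aux hq hp hg he h.symm hlt).elim

open Classical in
/-- powerful elements of `A` up to `N` -/
noncomputable def PA (N : ℕ) : Finset ℕ := (PF N).filter InA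

theorem mem_PA {N n : ℕ} : n ∈ PA N ↔ n ≤ N ∧ Powerful n ∧ InA n := by
  classical
  unfold PA PF
  rw [Finset.mem_filter, Finset.mem_filter, Finset.mem_Icc]
  constructor
  · rintro ⟨⟨⟨h1, h2⟩, h3⟩, h4⟩
    exact ⟨h2, h3, h4⟩
  · rintro ⟨h2, h3, h4⟩
    exact ⟨⟨⟨h4.1, h2⟩, h3⟩, h4⟩

/-- removal of the largest prime power component -/
theorem removal {n : ℕ} (hA : InA n) (hP : Powerful n) : ∃ q e m : ℕ, q.Prime ∧ 2 ≤ e ∧ Powerful m ∧
    n = q ^ e * m ∧ n ≤ (q ^ e) ^ om n ∧
    (∏ p ∈ m.primeFactors, r p (m.factorization p)) * r q e = 2 := by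
  have hn0 := hP.1
  have h2 := (inA_iff hn0).mp hA
  have hne : n.primeFactors.Nonempty := by
    rw [Finset.nonempty_iff_ne_empty]
    intro h
    rw [h, Finset.prod_empty] at h2
    norm_num at h2
  obtain ⟨q, hq, hmax⟩ := Finset.exists_max_image n.primeFactors (fun p => p ^ n.factorization p) hne
  have hqp := Nat.prime_of_mem_primeFactors hq
  set m := n / q ^ n.factorization q with hm
  have hnm : n = q ^ n.factorization q * m := (Nat.ordProj_mul_ordCompl_eq_self n q).symm
  have hm0 : m ≠ 0 := by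
    intro h
    rw [h, mul_zero] at hnm
    exact hn0 hnm
  have hfac : m.factorization = n.factorization.erase q := Nat.factorization_ordCompl n q
  have hPFm : m.primeFactors = n.primeFactors.erase q := by
    rw [← Nat.support_factorization, ← Nat.support_factorization, hfac, Finsupp.support_erase]
  have hfacp : ∀ p ∈ m.primeFactors, m.factorization p = n.factorization p := by
    intro p hp
    rw [hPFm] at hp
    rw [hfac, Finsupp.erase_ne (Finset.ne_of_mem_erase hp)]
  refine ⟨q, n.factorization q, m, hqp, hP.two_le hq, ⟨hm0, ?_⟩, hnm, ?_, ?_⟩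
  · intro p hp hpm
    have hpm' : p ∈ m.primeFactors := Nat.mem_primeFactors.mpr ⟨hp, hpm, hm0⟩
    rw [hp.pow_dvd_iff_le_factorization hm0, hfacp p hpm']
    rw [hPFm] at hpm'
    exact hP.two_le (Finset.mem_of_mem_erase hpm')
  · calc n = ∏ p ∈ n.primeFactors, p ^ n.factorization p := (prod_self hn0).symm
      _ ≤ ∏ _p ∈ n.primeFactors, q ^ n.factorization q := Finset.prod_le_prod' fun p hp => hmax p hp
      _ = (q ^ n.factorization q) ^ om n := by rw [Finset.prod_const]; rfl
  · rw [← h2, ← Finset.mul_prod_erase n.primeFactors _ hq, mul_comm, hPFm]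
    congr 1
    refine Finset.prod_congr rfl fun p hp => ?_
    rw [hfacp p (hPFm ▸ hp)]

theorem card_few_le {J N : ℕ} (hJ : 1 ≤ J) (hN : 1 ≤ N) :
    (((PA N).filter fun n => om n ≤ J).card : ℝ) ≤
      (N : ℝ) ^ ((1 - 1 / (J : ℝ)) / 2) * (1 + Real.log N) := by
  classical
  have hJ' : (1 : ℝ) ≤ J := by exact_mod_cast hJ
  have hN' : (1 : ℝ) ≤ N := by exact_mod_cast hN
  set K : ℕ := ⌊(N : ℝ) ^ (1 - 1 / (J : ℝ))⌋₊ with hK
  have hchoice : ∀ n : ℕ, ∃ m : ℕ, n ∈ (PA N).filter (fun n => om n ≤ J) →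
      ∃ q e : ℕ, q.Prime ∧ 2 ≤ e ∧ Powerful m ∧ n = q ^ e * m ∧ n ≤ (q ^ e) ^ om n ∧
        (∏ p ∈ m.primeFactors, r p (m.factorization p)) * r q e = 2 := by
    intro n
    by_cases h : n ∈ (PA N).filter (fun n => om n ≤ J)
    · obtain ⟨h1, h2, h3⟩ := mem_PA.mp (Finset.mem_filter.mp h).1
      obtain ⟨q, e, m, hh⟩ := removal h3 h2
      exact ⟨m, fun _ => ⟨q, e, hh⟩⟩
    · exact ⟨0, fun h' => absurd h' h⟩
  choose φ hφ using hchoice
  have hcard : ((PA N).filter fun n => om n ≤ J).card ≤ (PF K).card := by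
    refine Finset.card_le_card_of_injOn φ ?_ ?_
    · intro n hn
      have hn' : n ∈ (PA N).filter (fun n => om n ≤ J) := hn
      obtain ⟨q, e, hq, he, hPm, hnm, hle, hf⟩ := hφ n hn'
      obtain ⟨h1, h2, h3⟩ := mem_PA.mp (Finset.mem_filter.mp hn').1
      have hom := (Finset.mem_filter.mp hn').2
      have hm0 : φ n ≠ 0 := hPm.1
      have hqe : 1 ≤ q ^ e := Nat.one_le_pow _ _ hq.pos
      show φ n ∈ PF K
      unfold PF
      rw [Finset.mem_filter, Finset.mem_Icc]
      refine ⟨⟨by omega, ?_⟩, hPm⟩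
      rw [hK, Nat.le_floor_iff (by positivity)]
      have hleJ : n ≤ (q ^ e) ^ J := hle.trans (Nat.pow_le_pow_right hqe hom)
      have hpow : φ n ^ J * n ≤ n ^ J := by
        calc φ n ^ J * n ≤ φ n ^ J * (q ^ e) ^ J := Nat.mul_le_mul_left _ hleJ
          _ = n ^ J := by rw [← mul_pow, mul_comm, ← hnm]
      have hn1 : (1 : ℝ) ≤ n := by exact_mod_cast h3.1
      have hpowR : (φ n : ℝ) ^ J * n ≤ (n : ℝ) ^ J := by exact_mod_cast hpow
      have h4 : (φ n : ℝ) ^ J ≤ (n : ℝ) ^ ((J : ℝ) - 1) := by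
        rw [Real.rpow_sub_one (by linarith), Real.rpow_natCast, le_div_iff₀ (by linarith)]
        exact hpowR
      have h5 : (φ n : ℝ) ≤ (n : ℝ) ^ (1 - 1 / (J : ℝ)) := by
        have h6 : (φ n : ℝ) = ((φ n : ℝ) ^ J) ^ (1 / (J : ℝ)) := by
          rw [← Real.rpow_natCast, ← Real.rpow_mul (Nat.cast_nonneg _), mul_one_div_cancel (by linarith),
            Real.rpow_one]
        rw [h6]
        calc ((φ n : ℝ) ^ J) ^ (1 / (J : ℝ)) ≤ ((n : ℝ) ^ ((J : ℝ) - 1)) ^ (1 / (J : ℝ)) :=
              Real.rpow_le_rpow (by positivity) h4 (by positivity)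
          _ = (n : ℝ) ^ (1 - 1 / (J : ℝ)) := by
              rw [← Real.rpow_mul (by linarith)]
              congr 1
              field_simp
      refine h5.trans (Real.rpow_le_rpow (by linarith) (by exact_mod_cast h1) ?_)
      have : 1 / (J : ℝ) ≤ 1 := by rw [div_le_one (by linarith)]; exact hJ'
      linarith
    · intro n hn n' hn' heq
      obtain ⟨q, e, hq, he, hPm, hnm, hle, hf⟩ := hφ n hn
      obtain ⟨q', e', hq', he', hPm', hnm', hle', hf'⟩ := hφ n' hn'
      rw [← heq] at hf' hnm'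
      have hfpos : (∏ p ∈ (φ n).primeFactors, r p ((φ n).factorization p)) ≠ 0 :=
        Finset.prod_ne_zero_iff.mpr fun p hp => (r_pos (two_le_of_mem hp)).ne'
      have hr : r q e = r q' e' := mul_left_cancel₀ hfpos (hf.trans hf'.symm)
      obtain ⟨h1, h2⟩ := r_inj hq hq' he he' hr
      rw [hnm, hnm', h1, h2]
  have hcard' : (((PA N).filter fun n => om n ≤ J).card : ℝ) ≤ ((PF K).card : ℝ) := by
    exact_mod_cast hcard
  refine hcard'.trans ((card_PF_le K).trans ?_)
  have hKle : (K : ℝ) ≤ (N : ℝ) ^ (1 - 1 / (J : ℝ)) := Nat.floor_le (by positivity)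
  have hexp : 0 ≤ 1 - 1 / (J : ℝ) := by
    have : 1 / (J : ℝ) ≤ 1 := by rw [div_le_one (by linarith)]; exact hJ'
    linarith
  have hKN : (K : ℝ) ≤ N := by
    refine hKle.trans ?_
    calc (N : ℝ) ^ (1 - 1 / (J : ℝ)) ≤ (N : ℝ) ^ (1 : ℝ) :=
          Real.rpow_le_rpow_of_exponent_le hN' (by
            have : 0 < 1 / (J : ℝ) := by positivity
            linarith)
      _ = N := Real.rpow_one _
  have hlogK : Real.log K ≤ Real.log N := by
    rcases Nat.eq_zero_or_pos K with h | h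
    · rw [h]; simpa using Real.log_natCast_nonneg N
    · exact Real.log_le_log (by exact_mod_cast h) hKN
  have hlogK0 : 0 ≤ Real.log K := Real.log_natCast_nonneg K
  have hsq : Real.sqrt K ≤ (N : ℝ) ^ ((1 - 1 / (J : ℝ)) / 2) := by
    calc Real.sqrt K ≤ Real.sqrt ((N : ℝ) ^ (1 - 1 / (J : ℝ))) := Real.sqrt_le_sqrt hKle
      _ = (N : ℝ) ^ ((1 - 1 / (J : ℝ)) / 2) := by
          rw [Real.sqrt_eq_rpow, ← Real.rpow_mul (by linarith)]
          congr 1
          ring
  exact mul_le_mul hsq (by linarith) (by linarith) (by positivity)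

/-- the combined bound -/
theorem card_PA_le {J z N : ℕ} (hJ : 1 ≤ J) (hz : 1 ≤ z) (hN : 1 ≤ N) :
    ((PA N).card : ℝ) ≤ (N : ℝ) ^ ((1 - 1 / (J : ℝ)) / 2) * (1 + Real.log N) +
      Real.sqrt N * (1 + Real.log N) ^ (2 * z - 1) / (z : ℝ) ^ J := by
  classical
  obtain ⟨y, rfl⟩ : ∃ y, z = y + 1 := ⟨z - 1, by omega⟩
  have h1 : (PA N).card ≤ ((PA N).filter fun n => om n ≤ J).card +
      ((PF N).filter fun n => J ≤ om n).card := by
    rw [← Finset.card_filter_add_card_filter_not (s := PA N) (fun n => om n ≤ J)]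
    refine Nat.add_le_add_left (Finset.card_le_card fun n hn => ?_) _
    rw [Finset.mem_filter] at hn ⊢
    exact ⟨(Finset.mem_filter.mp hn.1).1, by omega⟩
  have h2 := card_few_le hJ hN
  have h3 := card_many_le y J N
  have h4 : (((PF N).filter fun n => J ≤ om n).card : ℝ) ≤
      Real.sqrt N * (1 + Real.log N) ^ (2 * (y + 1) - 1) / ((y + 1 : ℕ) : ℝ) ^ J := by
    rw [le_div_iff₀ (by positivity)]
    push_cast
    have : 2 * (y + 1) - 1 = 2 * y + 1 := by omega
    rw [this]
    exact h3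
  have h1' : ((PA N).card : ℝ) ≤ (((PA N).filter fun n => om n ≤ J).card : ℝ) +
      (((PF N).filter fun n => J ≤ om n).card : ℝ) := by exact_mod_cast h1
  linarith

end H49W
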