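import Mathlib

/-!
# Definitions for MP_d0f2af_nt: `σ(n) = 2 usigma(n)`

`∑ d ∈ n.divisors, d` is `σ(n)`, `n.primeFactors` the set of primes dividing `n` and `n.factorization p`
the exponent of `p` in `n` (all from Mathlib).
-/

namespace H49W

/-- The sum of the unitary divisors of `n`, i.e. of the `d ∣ n` with `gcd (d, n / d) = 1`. -/
def usigma (n : ℕ) : ℕ := ∑ d ∈ n.divisors with Nat.Coprime d (n / d), d

/-- `n ∈ A`: `n ≥ 1` and `σ(n) = 2 usigma(n)`. -/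
def InA (n : ℕ) : Prop := 1 ≤ n ∧ ∑ d ∈ n.divisors, d = 2 * usigma n

/-- Primitive elements of `A`: no proper divisor is in `A`. -/
def PrimitiveA (n : ℕ) : Prop := InA n ∧ ∀ d : ℕ, d ∣ n → d < n → ¬ InA d

/-- `n` is powerful: `n ≥ 1` and `p² ∣ n` for every prime `p ∣ n`. -/
def Powerful (n : ℕ) : Prop := n ≠ 0 ∧ ∀ p : ℕ, p.Prime → p ∣ n → p ^ 2 ∣ n

end H49W
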