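import Mathlib

/-!
# The explicit bound of the structure theorem for MP_d0f2af_nt
-/

namespace H49W

/-- The explicit bound `F(k, Z, a) = (8 k (Z + 2) 2 ^ a) ^ ((2 ^ k Z + 2) ^ k)`. -/
def bound (k Z a : ℕ) : ℕ := (8 * k * (Z + 2) * 2 ^ a) ^ ((2 ^ k * Z + 2) ^ k)

end H49W
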