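import Pool.Agent.Lib.H49W.Small

/-!
Every element of `A` has a small exponent `≥ 2`: final assembly.
-/

namespace H49W

open Finset

theorem num1 {k c P : ℕ} (hk : 1 ≤ k) (hc : c ≤ k) (hP : 1 * P + 1 ≤ (k * (1 + 1)) ^ 2 ^ k) :
    2 * c * (1 * P) ≤ 2 ^ 4 ^ k := by
  have h1 : k * 2 ≤ 2 ^ k := by
    obtain ⟨j, rfl⟩ : ∃ j, k = j + 1 := ⟨k - 1, by omega⟩
    have : j + 1 ≤ 2 ^ j := Nat.lt_two_pow_self
    rw [pow_succ]; omega
  have h2 : k < 2 ^ k := Nat.lt_two_pow_self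
  have h3 : k * (2 ^ k + 1) ≤ 4 ^ k := by
    have h4 : (4 : ℕ) ^ k = 2 ^ k * 2 ^ k := by rw [← mul_pow]; norm_num
    rw [h4]
    obtain ⟨y, hy⟩ : ∃ y, 2 ^ k = y + 1 := ⟨2 ^ k - 1, by omega⟩
    rw [hy] at h2 ⊢
    nlinarith
  calc 2 * c * (1 * P) ≤ (k * 2) * (k * (1 + 1)) ^ 2 ^ k :=
        Nat.mul_le_mul (by omega) (by omega)
    _ = (k * 2) ^ (2 ^ k + 1) := by rw [pow_succ]; ring
    _ ≤ (2 ^ k) ^ (2 ^ k + 1) := Nat.pow_le_pow_left h1 _
    _ = 2 ^ (k * (2 ^ k + 1)) := by rw [← pow_mul]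
    _ ≤ 2 ^ 4 ^ k := Nat.pow_le_pow_right (by norm_num) h3

theorem num2 {t c M P x : ℕ} (ht : 1 ≤ t) (hc : c ≤ t) (hx : 3 ≤ x) (hM : M ≤ 3 * (x + 1))
    (hP : M * P + 1 ≤ (t * (M + 1)) ^ 2 ^ t) : 2 * c * (M * P) ≤ x ^ 4 ^ (t + 1) := by
  have h5 : 5 * t ≤ 3 ^ (t + 1) := by
    clear hP hc
    induction t with
    | zero => simp
    | succ t ih =>
      rcases Nat.eq_zero_or_pos t with rfl | htp
      · norm_num
      · have := ih (by omega)
        rw [pow_succ]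
        omega
  have h6 : t + 2 ≤ 2 ^ (t + 1) := by
    have : t + 1 ≤ 2 ^ t := Nat.lt_two_pow_self
    rw [pow_succ]; omega
  have h7 : 2 ^ t + 1 ≤ 2 ^ (t + 1) := by
    have : 1 ≤ 2 ^ t := Nat.one_le_two_pow
    rw [pow_succ]; omega
  have h8 : (t + 2) * (2 ^ t + 1) ≤ 4 ^ (t + 1) := by
    have h4 : (4 : ℕ) ^ (t + 1) = 2 ^ (t + 1) * 2 ^ (t + 1) := by rw [← mul_pow]; norm_num
    rw [h4]
    exact Nat.mul_le_mul h6 h7
  have h9 : 5 * t * x ≤ x ^ (t + 2) := by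
    calc 5 * t * x ≤ 3 ^ (t + 1) * x := Nat.mul_le_mul_right _ h5
      _ ≤ x ^ (t + 1) * x := Nat.mul_le_mul_right _ (Nat.pow_le_pow_left hx _)
      _ = x ^ (t + 2) := by rw [← pow_succ]
  have h10 : t * (M + 1) ≤ 5 * t * x := by
    have : M + 1 ≤ 5 * x := by omega
    calc t * (M + 1) ≤ t * (5 * x) := Nat.mul_le_mul_left _ this
      _ = 5 * t * x := by ring
  have h11 : 2 * c ≤ 5 * t * x := by nlinarith
  calc 2 * c * (M * P) ≤ (5 * t * x) * (t * (M + 1)) ^ 2 ^ t := Nat.mul_le_mul h11 (by omega)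
    _ ≤ (5 * t * x) * (5 * t * x) ^ 2 ^ t := Nat.mul_le_mul_left _ (Nat.pow_le_pow_left h10 _)
    _ = (5 * t * x) ^ (2 ^ t + 1) := by rw [pow_succ]; ring
    _ ≤ (x ^ (t + 2)) ^ (2 ^ t + 1) := Nat.pow_le_pow_left h9 _
    _ = x ^ ((t + 2) * (2 ^ t + 1)) := by rw [← pow_mul]
    _ ≤ x ^ 4 ^ (t + 1) := Nat.pow_le_pow_right (by omega) h8

theorem prod_le_of_subset {s T : Finset ℕ} (hT : T ⊆ s) {F : ℕ → ℚ} (h : ∀ x ∈ s, 1 ≤ F x) :
    ∏ x ∈ T, F x ≤ ∏ x ∈ s, F x := by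
  rw [← Finset.prod_sdiff hT]
  have h1 : 1 ≤ ∏ x ∈ s \ T, F x := one_le_prod fun x hx => h x (mem_sdiff.mp hx).1
  have h2 : 0 ≤ ∏ x ∈ T, F x := Finset.prod_nonneg fun x hx => zero_le_one.trans (h x (hT hx))
  exact le_mul_of_one_le_left h2 h1

theorem lim_two : lim 2 = 2 := by unfold lim; norm_num

/-- an exact solution `∏ p/(p-1) = 2` in primes is `{2}` -/
theorem two_mem_of_eq {T : Finset ℕ} (hT : ∀ x ∈ T, x.Prime) (h : ∏ x ∈ T, lim x = 2) : 2 ∈ T := by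
  have hne : T.Nonempty := by
    rw [Finset.nonempty_iff_ne_empty]
    rintro rfl
    rw [Finset.prod_empty] at h
    norm_num at h
  have hE : (0 : ℚ) < ∏ x ∈ T, ((x - 1 : ℕ) : ℚ) := Finset.prod_pos fun x hx => by
    have := (hT x hx).two_le
    exact_mod_cast (by omega : 0 < x - 1)
  have hlim : ∏ x ∈ T, lim x = (∏ x ∈ T, (x : ℚ)) / ∏ x ∈ T, ((x - 1 : ℕ) : ℚ) := by
    rw [← Finset.prod_div_distrib]
    exact Finset.prod_congr rfl fun x hx => lim_eq_div (hT x hx).two_le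
  have hc1 : ∏ x ∈ T, (x : ℚ) = ((∏ x ∈ T, x : ℕ) : ℚ) := (Nat.cast_prod _ _).symm
  have hc2 : ∏ x ∈ T, ((x - 1 : ℕ) : ℚ) = ((∏ x ∈ T, (x - 1) : ℕ) : ℚ) := (Nat.cast_prod _ _).symm
  rw [hlim, div_eq_iff hE.ne', hc1, hc2] at h
  have h' : ∏ x ∈ T, x = 2 * ∏ x ∈ T, (x - 1) := by exact_mod_cast h
  set q := T.max' hne with hq
  have hqT : q ∈ T := Finset.max'_mem T hne
  have hqp := hT q hqT
  have hd : q ∣ 2 * ∏ x ∈ T, (x - 1) := h' ▸ Finset.dvd_prod_of_mem (fun x => x) hqT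
  rcases (Nat.Prime.dvd_mul hqp).mp hd with hd | hd
  · have := (Nat.prime_dvd_prime_iff_eq hqp Nat.prime_two).mp hd
    rw [← this]; exact hqT
  · exfalso
    rw [hqp.prime.dvd_finsetProd_iff] at hd
    obtain ⟨y, hy, hyd⟩ := hd
    have h1 : y ≤ q := Finset.le_max' T y hy
    have h2 := (hT y hy).two_le
    have := Nat.le_of_dvd (by omega) hyd
    omega

theorem r_ge {x e : ℕ} (hx : 2 ≤ x) (he : 2 ≤ e) : 1 + 1 / ((x : ℚ) + 1) ≤ r x e := by
  refine le_trans ?_ (r_mono hx he)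
  have hx' : (2 : ℚ) ≤ x := by exact_mod_cast hx
  unfold r
  rw [le_div_iff₀ (by linarith), ← sub_nonneg]
  have h1 : ((x : ℚ) ^ 2 + 1) ≠ 0 := by positivity
  have h2 : ((x : ℚ) + 1) ≠ 0 := by positivity
  have : (x : ℚ) - ((x : ℚ) + 1) / ((x : ℚ) ^ 2 + 1) - (1 + 1 / ((x : ℚ) + 1)) * ((x : ℚ) - 1) =
      ((x : ℚ) - 1) ^ 2 / (((x : ℚ) ^ 2 + 1) * ((x : ℚ) + 1)) := by
    field_simp
    ring
  rw [this]
  positivity

/-- **Small exponent theorem** (at an odd prime). -/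
theorem small_exponent {n : ℕ} (h : InA n) :
    ∃ p ∈ n.primeFactors, p ≠ 2 ∧ 2 ≤ n.factorization p ∧
      n.factorization p < 4 ^ (n.primeFactors.filter fun p => 2 ≤ n.factorization p).card := by
  have hn0 : n ≠ 0 := by have := h.1; omega
  set s := n.primeFactors.filter fun p => 2 ≤ n.factorization p with hs
  set e : ℕ → ℕ := fun p => n.factorization p with he
  by_contra hcon
  push Not at hcon
  have hsP : ∀ p ∈ s, p.Prime := fun p hp => Nat.prime_of_mem_primeFactors (mem_filter.mp hp).1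
  have hs2 : ∀ p ∈ s, 2 ≤ p := fun p hp => (hsP p hp).two_le
  have hse : ∀ p ∈ s, 2 ≤ e p := fun p hp => (mem_filter.mp hp).2
  have hsG : ∀ p ∈ s, p ≠ 2 → 4 ^ s.card ≤ e p := fun p hp hp2 =>
    hcon p (mem_filter.mp hp).1 hp2 (mem_filter.mp hp).2
  have hprod : ∏ p ∈ s, r p (e p) = 2 := by
    rw [← (inA_iff hn0).mp h]
    refine Finset.prod_subset (Finset.filter_subset _ _) fun p hp hps => ?_
    have h1 : ¬ 2 ≤ n.factorization p := fun hh => hps (mem_filter.mpr ⟨hp, hh⟩)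
    have h2 : 0 < n.factorization p :=
      Nat.pos_of_ne_zero (Finsupp.mem_support_iff.mp (by rwa [Nat.support_factorization]))
    have h3 : n.factorization p = 1 := by omega
    show r p (n.factorization p) = 1
    rw [h3]; exact r_one (two_le_of_mem hp)
  have hr1 : ∀ p ∈ s, 1 ≤ r p (e p) := fun p hp => one_le_r (hs2 p hp) (by have := hse p hp; omega)
  have hne : s.Nonempty := by
    rw [Finset.nonempty_iff_ne_empty]
    intro hh
    rw [hh, Finset.prod_empty] at hprod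
    norm_num at hprod
  have hk1 : 1 ≤ s.card := Finset.card_pos.mpr hne
  by_cases h2s : 2 ∈ s
  swap
  · -- no factor 4: level one
    have hL1 : ((2 : ℕ) : ℚ) / ((1 : ℕ) : ℚ) ≤ ∏ x ∈ s, lim x := by
      have h0 : ((2 : ℕ) : ℚ) / ((1 : ℕ) : ℚ) = 2 := by norm_num
      rw [h0, ← hprod]
      exact Finset.prod_le_prod (fun x hx => zero_le_one.trans (hr1 x hx)) fun x hx =>
        (r_lt_lim (hs2 x hx)).le
    obtain ⟨T, hT, hT1, hT2⟩ := product_bound s.card s rfl hs2 1 2 (by norm_num) (by norm_num) hL1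
    have h20 : ((2 : ℕ) : ℚ) / ((1 : ℕ) : ℚ) = 2 := by norm_num
    rcases lt_or_eq_of_le hT1 with hlt | heq
    · have hg := gap (fun x hx => hs2 x (hT hx)) (a := 1) (b := 2) (by norm_num) hlt (e := e) (by
        intro x hx
        have hx2 : x ≠ 2 := fun hh => h2s (hh ▸ hT hx)
        calc 2 * T.card * (1 * ∏ y ∈ T, y) ≤ 2 ^ 4 ^ s.card :=
              num1 hk1 (Finset.card_le_card hT) hT2
          _ ≤ x ^ 4 ^ s.card := Nat.pow_le_pow_left (hs2 x (hT hx)) _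
          _ ≤ x ^ e x := Nat.pow_le_pow_right (by have := hs2 x (hT hx); omega) (hsG x (hT hx) hx2))
      have hle := prod_le_of_subset hT hr1
      rw [hprod] at hle
      rw [h20] at hg
      linarith
    · rw [h20] at heq
      exact h2s (hT (two_mem_of_eq (fun x hx => hsP x (hT hx)) heq.symm))
  -- level two
  set M : ℕ := 2 ^ (e 2 + 1) - 1 with hMdef
  have hM1 : M + 1 = 2 ^ (e 2 + 1) := by
    have : 0 < 2 ^ (e 2 + 1) := by positivity
    omega
  have hMpos : 0 < M := by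
    have : 2 ^ 1 ≤ 2 ^ (e 2 + 1) := Nat.pow_le_pow_right (by norm_num) (by omega)
    omega
  have hMq : (M : ℚ) = 2 * (2 : ℚ) ^ e 2 - 1 := by
    have : ((M + 1 : ℕ) : ℚ) = ((2 ^ (e 2 + 1) : ℕ) : ℚ) := by rw [hM1]
    push_cast at this
    rw [pow_succ] at this
    linarith
  have hMQ : (0 : ℚ) < M := by exact_mod_cast hMpos
  have hprod' : ∏ p ∈ s.erase 2, r p (e p) = ((M + 3 : ℕ) : ℚ) / ((M : ℕ) : ℚ) := by
    rw [← Finset.mul_prod_erase s _ h2s] at hprod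
    have hr2 : r 2 (e 2) = (M : ℚ) / ((2 : ℚ) ^ e 2 + 1) := by
      have : ((2 : ℚ) ^ e 2 + 1) ≠ 0 := by positivity
      rw [hMq]
      unfold r
      push_cast
      field_simp
      ring
    rw [hr2] at hprod
    have h3 : ((2 : ℚ) ^ e 2 + 1) ≠ 0 := by positivity
    rw [eq_div_iff hMQ.ne']
    field_simp at hprod
    push_cast
    linarith
  set s' := s.erase 2 with hs'
  have hs'sub : s' ⊆ s := Finset.erase_subset _ _
  have hs'3 : ∀ x ∈ s', 3 ≤ x := by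
    intro x hx
    have h1 := hs2 x (hs'sub hx)
    have h2 : x ≠ 2 := (Finset.mem_erase.mp hx).1
    omega
  have hcard : s'.card + 1 = s.card := Finset.card_erase_add_one h2s
  have hr1' : ∀ p ∈ s', 1 ≤ r p (e p) := fun p hp => hr1 p (hs'sub hp)
  have hgt1 : (1 : ℚ) < ((M + 3 : ℕ) : ℚ) / ((M : ℕ) : ℚ) := by
    rw [lt_div_iff₀ hMQ]; push_cast; linarith
  have hne' : s'.Nonempty := by
    rw [Finset.nonempty_iff_ne_empty]
    intro hh
    rw [hh, Finset.prod_empty] at hprod'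
    linarith
  have ht1 : 1 ≤ s'.card := Finset.card_pos.mpr hne'
  have hMx : ∀ x ∈ s', M ≤ 3 * (x + 1) := by
    intro x hx
    have h1 := r_ge (hs2 x (hs'sub hx)) (hse x (hs'sub hx))
    have h2 : r x (e x) ≤ ∏ p ∈ s', r p (e p) := by
      have := prod_le_of_subset (Finset.singleton_subset_iff.mpr hx) hr1'
      rwa [Finset.prod_singleton] at this
    rw [hprod'] at h2
    have h3 : 1 + 1 / ((x : ℚ) + 1) ≤ ((M + 3 : ℕ) : ℚ) / ((M : ℕ) : ℚ) := h1.trans h2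
    have h4 : ((M + 3 : ℕ) : ℚ) / ((M : ℕ) : ℚ) = 1 + 3 / M := by
      push_cast; field_simp
    rw [h4] at h3
    have h5 : 1 / ((x : ℚ) + 1) ≤ 3 / M := by linarith
    rw [div_le_div_iff₀ (by positivity) hMQ] at h5
    have h6 : (M : ℚ) ≤ ((3 * (x + 1) : ℕ) : ℚ) := by push_cast; linarith
    exact_mod_cast h6
  have hL2 : ((M + 3 : ℕ) : ℚ) / ((M : ℕ) : ℚ) ≤ ∏ x ∈ s', lim x := by
    rw [← hprod']
    exact Finset.prod_le_prod (fun x hx => zero_le_one.trans (hr1' x hx)) fun x hx =>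
      (r_lt_lim (hs2 x (hs'sub hx))).le
  obtain ⟨T', hT', hT'1, hT'2⟩ := product_bound s'.card s' rfl (fun x hx => hs2 x (hs'sub hx)) M (M + 3)
    hMpos (by omega) hL2
  rcases lt_or_eq_of_le hT'1 with hlt | heq
  · have hg := gap (fun x hx => hs2 x (hs'sub (hT' hx))) (a := M) (b := M + 3) hMpos hlt (e := e) (by
      intro x hx
      calc 2 * T'.card * (M * ∏ y ∈ T', y) ≤ x ^ 4 ^ (s'.card + 1) :=
            num2 ht1 (Finset.card_le_card hT') (hs'3 x (hT' hx)) (hMx x (hT' hx)) hT'2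
        _ ≤ x ^ e x := by
            rw [hcard]
            exact Nat.pow_le_pow_right (by have := hs'3 x (hT' hx); omega)
              (hsG x (hs'sub (hT' hx)) (by have := hs'3 x (hT' hx); omega)))
    have hle := prod_le_of_subset hT' hr1'
    rw [hprod'] at hle
    linarith
  · -- parity
    have hneT : T'.Nonempty := by
      rw [Finset.nonempty_iff_ne_empty]
      intro hh
      rw [hh, Finset.prod_empty] at heq
      linarith
    have hE : (0 : ℚ) < ∏ x ∈ T', ((x - 1 : ℕ) : ℚ) := Finset.prod_pos fun x hx => by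
      have := hs'3 x (hT' hx)
      exact_mod_cast (by omega : 0 < x - 1)
    have hlim : ∏ x ∈ T', lim x = (∏ x ∈ T', (x : ℚ)) / ∏ x ∈ T', ((x - 1 : ℕ) : ℚ) := by
      rw [← Finset.prod_div_distrib]
      exact Finset.prod_congr rfl fun x hx => lim_eq_div (hs2 x (hs'sub (hT' hx)))
    have hc1 : ∏ x ∈ T', (x : ℚ) = ((∏ x ∈ T', x : ℕ) : ℚ) := (Nat.cast_prod _ _).symm
    have hc2 : ∏ x ∈ T', ((x - 1 : ℕ) : ℚ) = ((∏ x ∈ T', (x - 1) : ℕ) : ℚ) := (Nat.cast_prod _ _).symm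
    rw [hlim, div_eq_div_iff hMQ.ne' hE.ne', hc1, hc2] at heq
    have h' : (M + 3) * ∏ x ∈ T', (x - 1) = (∏ x ∈ T', x) * M := by exact_mod_cast heq
    have hoddp : ∀ x ∈ T', Odd x := by
      intro x hx
      have h1 := hsP x (hs'sub (hT' hx))
      have h2 := hs'3 x (hT' hx)
      exact h1.odd_of_ne_two (by omega)
    have hodd1 : Odd (∏ x ∈ T', x) := by
      refine Finset.prod_induction (fun x : ℕ => x) Odd (fun a b ha hb => ha.mul hb) odd_one hoddp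
    have hoddM : Odd M := by
      have : 2 ∣ 2 ^ (e 2 + 1) := dvd_pow_self 2 (by omega)
      rw [Nat.odd_iff]; omega
    have hoddR : Odd ((∏ x ∈ T', x) * M) := hodd1.mul hoddM
    obtain ⟨y, hy⟩ := hneT
    have hev : Even (∏ x ∈ T', (x - 1)) := by
      have h1 : (y - 1) ∣ ∏ x ∈ T', (x - 1) := Finset.dvd_prod_of_mem (fun x => x - 1) hy
      have h2 : Even (y - 1) := by
        obtain ⟨j, hj⟩ := hoddp y hy
        exact ⟨j, by omega⟩
      exact h2.trans_dvd h1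
    rw [← h'] at hoddR
    exact (Nat.not_even_iff_odd.mpr hoddR) (hev.mul_left _)

end H49W
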