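import Pool.Agent.Lib.H49W.Final
import Pool.Agent.Lib.H49W.DefsBound
import Pool.Agent.Lib.H49W.Small2

/-!
Explicit form of the structure theorem.
-/

namespace H49W

open Finset

/-- `∏_{p ∈ U} σ(p^e_p)` -/
def sig (n : ℕ) (U : Finset ℕ) : ℕ := ∏ p ∈ U, ∑ i ∈ range (n.factorization p + 1), p ^ i

/-- `∏_{p ∈ U} (p^e_p + 1)` -/
def us (n : ℕ) (U : Finset ℕ) : ℕ := ∏ p ∈ U, (p ^ n.factorization p + 1)

theorem prod_r_eq {n : ℕ} {U : Finset ℕ} (hU : ∀ p ∈ U, 2 ≤ p) :
    ∏ p ∈ U, r p (n.factorization p) = (sig n U : ℚ) / (us n U : ℚ) := by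
  unfold sig us
  rw [Nat.cast_prod, Nat.cast_prod, ← Finset.prod_div_distrib]
  exact Finset.prod_congr rfl fun p hp => r_eq p _ (hU p hp)

theorem us_pos (n : ℕ) (U : Finset ℕ) : 0 < us n U := Finset.prod_pos fun _ _ => Nat.succ_pos _

theorem sum_pow_pos {p : ℕ} (hp : 2 ≤ p) (e : ℕ) : 0 < ∑ i ∈ range (e + 1), p ^ i :=
  Finset.sum_pos (fun i _ => pow_pos (by omega) i) ⟨0, by simp⟩

theorem sig_pos {n : ℕ} {U : Finset ℕ} (hU : ∀ p ∈ U, 2 ≤ p) : 0 < sig n U :=
  Finset.prod_pos fun p hp => sum_pow_pos (hU p hp) _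

theorem sum_pow_lt {p : ℕ} (hp : 2 ≤ p) (e : ℕ) : ∑ i ∈ range (e + 1), p ^ i < 2 * p ^ e := by
  induction e with
  | zero => simp
  | succ e ih =>
    rw [Finset.sum_range_succ]
    have : 2 * p ^ e ≤ p ^ (e + 1) := by rw [pow_succ, mul_comm]; exact Nat.mul_le_mul_left _ hp
    omega

theorem prod_le_sig {n : ℕ} {U : Finset ℕ} : ∏ p ∈ U, p ^ n.factorization p ≤ sig n U := by
  refine Finset.prod_le_prod' fun p _ => ?_
  exact Finset.single_le_sum (f := fun i => p ^ i) (fun _ _ => Nat.zero_le _)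
    (mem_range.mpr (Nat.lt_succ_self _))

theorem sig_insert {n : ℕ} {U : Finset ℕ} (hU : ∀ p ∈ U, 2 ≤ p) {x : ℕ} (hx : x ∉ U) (hx2 : 2 ≤ x)
    {X : ℕ} (hX : x ^ n.factorization x ≤ X) :
    sig n (insert x U) + 1 ≤ (sig n U + 1) * (2 * X) := by
  have h1 : sig n (insert x U) = (∑ i ∈ range (n.factorization x + 1), x ^ i) * sig n U := by
    unfold sig; rw [Finset.prod_insert hx]
  have h2 := sum_pow_lt hx2 (n.factorization x)
  have h3 := sig_pos (n := n) hU
  have h4 : 1 ≤ x ^ n.factorization x := Nat.one_le_pow _ _ (by omega)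
  rw [h1]
  nlinarith

/-- pattern with explicit sets -/
def Pat2 (U₀ : Finset ℕ) (C Z n : ℕ) : Prop :=
  ∃ U V W : Finset ℕ, U₀ ⊆ U ∧ U ∪ V ∪ W = n.primeFactors ∧ Disjoint U V ∧ Disjoint (U ∪ V) W ∧
    V.Nonempty ∧ (∏ p ∈ U, p ^ n.factorization p ≤ C) ∧
    (∀ p ∈ V, p ≤ C ∧ Z < n.factorization p) ∧ (∀ p ∈ W, Z < p) ∧
    (∏ p ∈ U, r p (n.factorization p)) * ∏ p ∈ V, lim p = 2

/-- some prime power is small if a pure limit solution is perturbed by a prime `≤ Z` -/
theorem perturb {T : Finset ℕ} (hT : ∀ x ∈ T, 2 ≤ x) (hne : T.Nonempty) {e : ℕ → ℕ} {Z : ℕ}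
    (h : ∏ x ∈ T, r x (e x) ≤ (∏ x ∈ T, lim x) * (1 - 1 / ((Z : ℚ) + 2))) :
    ∃ x ∈ T, x ^ e x < 2 * T.card * (Z + 2) := by
  by_contra hcon
  push Not at hcon
  have hlimpos : 0 < ∏ x ∈ T, lim x := Finset.prod_pos fun x hx => lim_pos (hT x hx)
  have hc : 0 < (T.card : ℚ) := by exact_mod_cast Finset.card_pos.mpr hne
  have hδ : ∀ x ∈ T, ((x : ℚ) + 1) / (x * ((x : ℚ) ^ e x + 1)) < 1 / (T.card * ((Z : ℚ) + 2)) := by
    intro x hx
    have hx2 : (2 : ℚ) ≤ x := by exact_mod_cast hT x hx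
    have h1 : (2 : ℚ) * T.card * ((Z : ℚ) + 2) ≤ (x : ℚ) ^ e x := by exact_mod_cast hcon x hx
    rw [div_lt_div_iff₀ (by positivity) (by positivity)]
    have h2 : 0 < (T.card : ℚ) * ((Z : ℚ) + 2) := by positivity
    nlinarith
  have hsum : ∑ x ∈ T, ((x : ℚ) + 1) / (x * ((x : ℚ) ^ e x + 1)) < 1 / ((Z : ℚ) + 2) := by
    calc ∑ x ∈ T, ((x : ℚ) + 1) / (x * ((x : ℚ) ^ e x + 1))
        < ∑ _x ∈ T, 1 / (T.card * ((Z : ℚ) + 2)) := Finset.sum_lt_sum_of_nonempty hne hδ
      _ = 1 / ((Z : ℚ) + 2) := by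
          rw [Finset.sum_const, nsmul_eq_mul]
          field_simp
  have hprod : 1 - ∑ x ∈ T, ((x : ℚ) + 1) / (x * ((x : ℚ) ^ e x + 1)) ≤
      ∏ x ∈ T, (1 - ((x : ℚ) + 1) / (x * ((x : ℚ) ^ e x + 1))) := by
    refine prod_one_sub_ge (fun x hx => by positivity) fun x hx => ?_
    have hx2 : (2 : ℚ) ≤ x := by exact_mod_cast hT x hx
    rw [div_le_one (by positivity)]
    have : (1 : ℚ) ≤ (x : ℚ) ^ e x := one_le_pow₀ (by linarith)
    nlinarith
  have hr : ∏ x ∈ T, r x (e x) = (∏ x ∈ T, lim x) *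
      ∏ x ∈ T, (1 - ((x : ℚ) + 1) / (x * ((x : ℚ) ^ e x + 1))) := by
    rw [← Finset.prod_mul_distrib]
    exact Finset.prod_congr rfl fun x hx => r_eq_lim_mul (hT x hx)
  rw [hr] at h
  have h' := le_of_mul_le_mul_left h hlimpos
  linarith


private theorem effn1 {k a c D h Z : ℕ} (h4k : 4 * k ≤ c) (hD : D ≤ (c * (a + 1)) ^ 2 ^ k)
    (hh : h = 2 ^ k * Z + 1) (hZ : 1 ≤ Z) (hbase : 1 ≤ c * (a + 1)) :
    (a + 1) * (2 * (2 * k * D)) ≤ (c * (a + 1)) ^ h := by
  have h1 : 4 * k * (a + 1) ≤ c * (a + 1) := Nat.mul_le_mul_right _ h4k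
  have h2 : 2 ^ k + 1 ≤ h := by
    rw [hh]
    exact Nat.succ_le_succ (Nat.le_mul_of_pos_right _ hZ)
  calc (a + 1) * (2 * (2 * k * D)) = (4 * k * (a + 1)) * D := by ring
    _ ≤ (c * (a + 1)) * (c * (a + 1)) ^ 2 ^ k := Nat.mul_le_mul h1 hD
    _ = (c * (a + 1)) ^ (2 ^ k + 1) := by rw [pow_succ, mul_comm]
    _ ≤ (c * (a + 1)) ^ h := Nat.pow_le_pow_right hbase h2

private theorem effn2 {k a c D h Z : ℕ} (h2le : 2 ≤ c) (hD : D ≤ (c * (a + 1)) ^ 2 ^ k)
    (hh : h = 2 ^ k * Z + 1) :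
    (a + 1) * (2 * D ^ Z) ≤ (c * (a + 1)) ^ h := by
  have h1 : 2 * (a + 1) ≤ c * (a + 1) := Nat.mul_le_mul_right _ h2le
  calc (a + 1) * (2 * D ^ Z) = (2 * (a + 1)) * D ^ Z := by ring
    _ ≤ (c * (a + 1)) * ((c * (a + 1)) ^ 2 ^ k) ^ Z := Nat.mul_le_mul h1 (Nat.pow_le_pow_left hD _)
    _ = (c * (a + 1)) ^ h := by rw [← pow_mul, hh, pow_succ, mul_comm]

private theorem effn3 {X h S u t : ℕ} (hS : S ≤ X ^ (h + 1) ^ u) (ht : u + 1 = t) :
    S ^ (h + 1) ≤ X ^ (h + 1) ^ t := by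
  calc S ^ (h + 1) ≤ (X ^ (h + 1) ^ u) ^ (h + 1) := Nat.pow_le_pow_left hS _
    _ = X ^ (h + 1) ^ t := by rw [← pow_mul, ← pow_succ, ht]

private theorem effn4 {c X h a u t S' : ℕ} (hS : c * (a + 1) ≤ X ^ (h + 1) ^ u)
    (ht : u + 1 = t) (h1 : S' ≤ (c * (a + 1)) ^ h) :
    c * S' ≤ X ^ (h + 1) ^ t := by
  have h2 : c ≤ c * (a + 1) := Nat.le_mul_of_pos_right _ (Nat.succ_pos _)
  calc c * S' ≤ (c * (a + 1)) * (c * (a + 1)) ^ h := Nat.mul_le_mul h2 h1
    _ = (c * (a + 1)) ^ (h + 1) := by rw [pow_succ, mul_comm]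
    _ ≤ _ := effn3 hS ht

theorem effective_aux {n k Z X : ℕ} {U₀ : Finset ℕ} (hA : InA n) (hP : Powerful n)
    (hk : n.primeFactors.card ≤ k) (hk1 : 1 ≤ k) (hZ : 1 ≤ Z) (hX : 1 ≤ X) :
    ∀ (m : ℕ) (U : Finset ℕ), U₀ ⊆ U → U ⊆ n.primeFactors →
    n.primeFactors.card - U.card = m →
    4 * k * (Z + 2) * (sig n U + 1) ≤ X ^ (2 ^ k * Z + 2) ^ U.card →
    n ≤ X ^ (2 ^ k * Z + 2) ^ k ∨ Pat2 U₀ (X ^ (2 ^ k * Z + 2) ^ k) Z n := by
  intro m
  set c := 4 * k * (Z + 2) with hc
  set h := 2 ^ k * Z + 1 with hh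
  have hh1 : 2 ^ k * Z + 2 = h + 1 := by rw [hh]
  have h4k : 4 * k ≤ c := Nat.le_mul_of_pos_right _ (by omega)
  have h2le : 2 ≤ c := by omega
  have hkc : k ≤ c := by omega
  have hc1 : 1 ≤ c := by omega
  have hh2k : 2 ^ k ≤ h + 1 := by
    have : 2 ^ k * 1 ≤ 2 ^ k * Z := Nat.mul_le_mul_left _ hZ
    omega
  rw [hh1]
  induction m with
  | zero =>
    intro U hU0 hU hm hS
    left
    have hEq : U = n.primeFactors := Finset.eq_of_subset_of_card_le hU (by omega)
    have h1 : n ≤ sig n U := by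
      conv_lhs => rw [← prod_self hP.1, ← hEq]
      exact prod_le_sig
    calc n ≤ c * (sig n U + 1) := by nlinarith
      _ ≤ X ^ (h + 1) ^ U.card := hS
      _ ≤ X ^ (h + 1) ^ k := by
          refine Nat.pow_le_pow_right (by omega) (Nat.pow_le_pow_right (by omega) ?_)
          rw [hEq]; exact hk
  | succ m ih =>
    intro U hU0 hU hm hS
    have hprime : ∀ p ∈ n.primeFactors, p.Prime := fun p hp => Nat.prime_of_mem_primeFactors hp
    have hp2 : ∀ p ∈ n.primeFactors, 2 ≤ p := fun p hp => (hprime p hp).two_le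
    set s := n.primeFactors \ U with hs
    have hsub : s ⊆ n.primeFactors := Finset.sdiff_subset
    have hcards : s.card = m + 1 := by rw [hs, Finset.card_sdiff_of_subset hU, hm]
    have hUk : U.card + 1 ≤ k := by
      have := Finset.card_le_card hU
      omega
    have hsne : s.Nonempty := by rw [← Finset.card_pos]; omega
    set e : ℕ → ℕ := fun p => n.factorization p with he
    set a := sig n U with ha
    set b := 2 * us n U with hb
    have hU2 : ∀ p ∈ U, 2 ≤ p := fun p hp => hp2 p (hU hp)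
    have ha0 : 0 < a := sig_pos hU2
    have hus0 : 0 < us n U := us_pos n U
    have haQ : (0 : ℚ) < a := by exact_mod_cast ha0
    have husQ : (0 : ℚ) < us n U := by exact_mod_cast hus0
    have hf : (∏ p ∈ U, r p (e p)) * ∏ p ∈ s, r p (e p) = 2 := by
      rw [← (inA_iff hP.1).mp hA, mul_comm, hs]
      exact Finset.prod_sdiff hU
    have hUr : ∏ p ∈ U, r p (e p) = (a : ℚ) / (us n U : ℚ) := prod_r_eq hU2
    have hsr : ∏ p ∈ s, r p (e p) = (b : ℚ) / a := by
      rw [hUr] at hf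
      rw [eq_div_iff haQ.ne', hb]
      field_simp at hf
      push_cast
      linarith
    have hr1 : ∀ p ∈ s, 1 < r p (e p) := fun p hp => one_lt_r (hp2 p (hsub hp)) (hP.two_le (hsub hp))
    have hgt : (1 : ℚ) < (b : ℚ) / a := by rw [← hsr]; exact one_lt_prod hsne hr1
    have hab : a < b := by
      rw [lt_div_iff₀ haQ, one_mul] at hgt
      exact_mod_cast hgt
    have hL : (b : ℚ) / a ≤ ∏ x ∈ s, lim x := by
      rw [← hsr]
      exact Finset.prod_le_prod (fun x hx => zero_le_one.trans (hr1 x hx).le) fun x hx =>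
        (r_lt_lim (hp2 x (hsub hx))).le
    obtain ⟨T, hT, hT1, hT2⟩ := product_bound s.card s rfl (fun x hx => hp2 x (hsub hx)) a b ha0 hab hL
    have hTne : T.Nonempty := by
      rw [Finset.nonempty_iff_ne_empty]
      intro hh'
      rw [hh', Finset.prod_empty] at hT1
      linarith
    have hTp : ∀ x ∈ T, 2 ≤ x := fun x hx => hp2 x (hsub (hT hx))
    have hsk : s.card ≤ k := (Finset.card_le_card hsub).trans hk
    have hTk : T.card ≤ k := (Finset.card_le_card hT).trans hsk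
    set D := (k * (a + 1)) ^ 2 ^ k with hD
    have hTD : a * ∏ x ∈ T, x + 1 ≤ D := by
      refine hT2.trans ?_
      calc (s.card * (a + 1)) ^ 2 ^ s.card ≤ (k * (a + 1)) ^ 2 ^ s.card :=
            Nat.pow_le_pow_left (Nat.mul_le_mul_right _ hsk) _
        _ ≤ (k * (a + 1)) ^ 2 ^ k :=
            Nat.pow_le_pow_right (Nat.mul_pos (by omega) (by omega))
              (Nat.pow_le_pow_right (by norm_num) hsk)
    have hDle : D ≤ (c * (a + 1)) ^ 2 ^ k := by
      exact Nat.pow_le_pow_left (Nat.mul_le_mul_right _ hkc) _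
    clear_value D
    have hxD : ∀ x ∈ T, x ≤ D := by
      intro x hx
      have h1 : x ∣ ∏ y ∈ T, y := Finset.dvd_prod_of_mem (fun y => y) hx
      have h2 : 0 < ∏ y ∈ T, y := Finset.prod_pos fun y hy => by have := hTp y hy; omega
      have h3 := Nat.le_of_dvd h2 h1
      nlinarith
    have h2k1 : 1 ≤ 2 ^ k := Nat.one_le_two_pow
    have hbase : 1 ≤ c * (a + 1) := Nat.mul_pos hc1 (by omega)
    -- the recursion step
    have step : ∀ x ∈ s, ∀ Y : ℕ, x ^ e x ≤ Y → (a + 1) * (2 * Y) ≤ (c * (a + 1)) ^ h →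
        n ≤ X ^ (h + 1) ^ k ∨ Pat2 U₀ (X ^ (h + 1) ^ k) Z n := by
      intro x hx Y hY hle
      have hxU : x ∉ U := (mem_sdiff.mp hx).2
      have hcard : (insert x U).card = U.card + 1 := Finset.card_insert_of_notMem hxU
      refine ih (insert x U) (hU0.trans (Finset.subset_insert _ _))
        (Finset.insert_subset (hsub hx) hU) (by rw [hcard]; omega) ?_
      have h1 := sig_insert hU2 hxU (hp2 x (hsub hx)) hY
      rw [hcard]
      exact effn4 hS rfl (h1.trans hle)
    have ha1 : a + 1 ≤ c * (a + 1) := Nat.le_mul_of_pos_left _ hc1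
    have hprodS : ∏ p ∈ T, r p (e p) ≤ ∏ p ∈ s, r p (e p) := prod_le_of_subset hT fun x hx => (hr1 x hx).le
    rcases lt_or_eq_of_le hT1 with hlt | heq
    · -- strict case
      have hex : ∃ x ∈ T, x ^ e x < 2 * T.card * (a * ∏ y ∈ T, y) := by
        by_contra hcon
        push Not at hcon
        have hg := gap hTp ha0 hlt (e := e) hcon
        rw [hsr] at hprodS
        linarith
      obtain ⟨x, hx, hxe⟩ := hex
      refine step x (hT hx) (2 * k * D) ?_ ?_
      · refine hxe.le.trans (Nat.mul_le_mul (Nat.mul_le_mul_left _ hTk) (by omega))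
      · exact effn1 h4k hDle hh hZ hbase
    · by_cases hZ1 : ∀ x ∈ T, Z < e x
      swap
      · push Not at hZ1
        obtain ⟨x, hx, hxZ⟩ := hZ1
        refine step x (hT hx) (D ^ Z) ?_ ?_
        · have hxpos : 0 < x := by have := hTp x hx; omega
          exact (Nat.pow_le_pow_right hxpos hxZ).trans (Nat.pow_le_pow_left (hxD x hx) _)
        · exact effn2 h2le hDle hh
      by_cases hZ2 : ∀ q ∈ s \ T, Z < q
      swap
      · push Not at hZ2
        obtain ⟨q, hq, hqZ⟩ := hZ2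
        have hqs := (mem_sdiff.mp hq).1
        have hq2 := hp2 q (hsub hqs)
        have hsplit : ∏ p ∈ s, r p (e p) = (∏ p ∈ s \ T, r p (e p)) * ∏ p ∈ T, r p (e p) :=
          (Finset.prod_sdiff hT).symm
        have hqr : r q (e q) ≤ ∏ p ∈ s \ T, r p (e p) := by
          have := prod_le_of_subset (s := s \ T) (Finset.singleton_subset_iff.mpr hq)
            (F := fun p => r p (e p)) fun x hx => (hr1 x (mem_sdiff.mp hx).1).le
          rwa [Finset.prod_singleton] at this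
        have hqge := r_ge hq2 (hP.two_le (hsub hqs))
        have hTpos : 0 < ∏ p ∈ T, r p (e p) := Finset.prod_pos fun p hp => r_pos (hTp p hp)
        have hkey : ∏ p ∈ T, r p (e p) ≤ (∏ p ∈ T, lim p) * (1 - 1 / ((Z : ℚ) + 2)) := by
          rw [← heq, ← hsr, hsplit]
          have hZq : (1 : ℚ) + 1 / ((Z : ℚ) + 1) ≤ ∏ p ∈ s \ T, r p (e p) := by
            refine le_trans ?_ (hqge.trans hqr)
            have hqZ' : (q : ℚ) ≤ Z := by exact_mod_cast hqZ
            have hq0 : (0 : ℚ) ≤ q := Nat.cast_nonneg q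
            have : 1 / ((Z : ℚ) + 1) ≤ 1 / ((q : ℚ) + 1) :=
              one_div_le_one_div_of_le (by linarith) (by linarith)
            linarith
          have hone : (1 + 1 / ((Z : ℚ) + 1)) * (1 - 1 / ((Z : ℚ) + 2)) = 1 := by
            have h1 : (Z : ℚ) + 1 ≠ 0 := by positivity
            have h2 : (Z : ℚ) + 2 ≠ 0 := by positivity
            field_simp
            ring
          have hpos2 : 0 ≤ 1 - 1 / ((Z : ℚ) + 2) := by
            have : 1 / ((Z : ℚ) + 2) ≤ 1 := by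
              rw [div_le_one (by positivity)]
              have : (0 : ℚ) ≤ Z := Nat.cast_nonneg Z
              linarith
            linarith
          calc ∏ p ∈ T, r p (e p) = ((1 + 1 / ((Z : ℚ) + 1)) * (1 - 1 / ((Z : ℚ) + 2))) * ∏ p ∈ T, r p (e p) := by
                rw [hone, one_mul]
            _ ≤ ((∏ p ∈ s \ T, r p (e p)) * (1 - 1 / ((Z : ℚ) + 2))) * ∏ p ∈ T, r p (e p) := by
                refine mul_le_mul_of_nonneg_right ?_ hTpos.le
                exact mul_le_mul_of_nonneg_right hZq hpos2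
            _ = _ := by ring
        obtain ⟨x, hx, hxe⟩ := perturb hTp hTne hkey
        refine step x (hT hx) (2 * k * (Z + 2)) ?_ ?_
        · exact hxe.le.trans (Nat.mul_le_mul_right _ (Nat.mul_le_mul_left _ hTk))
        · calc (a + 1) * (2 * (2 * k * (Z + 2))) = c * (a + 1) := by rw [hc]; ring
            _ ≤ (c * (a + 1)) ^ h := Nat.le_self_pow (by rw [hh]; omega) _
      · -- the pattern
        right
        have hTs : Disjoint U T := by
          refine Finset.disjoint_left.mpr fun x hxU hxT => ?_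
          exact (mem_sdiff.mp (hT hxT)).2 hxU
        have hCge : (c * (a + 1)) ^ (h + 1) ≤ X ^ (h + 1) ^ k := by
          exact (effn3 hS rfl).trans
            (Nat.pow_le_pow_right (by omega) (Nat.pow_le_pow_right (by omega) hUk))
        refine ⟨U, T, s \ T, hU0, ?_, hTs, ?_, hTne, ?_, fun x hx => ⟨?_, hZ1 x hx⟩, hZ2, ?_⟩
        · rw [Finset.union_assoc, Finset.union_sdiff_of_subset hT, hs, Finset.union_sdiff_of_subset hU]
        · rw [Finset.disjoint_union_left]
          refine ⟨?_, Finset.disjoint_sdiff⟩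
          refine Finset.disjoint_left.mpr fun x hxU hxT => ?_
          exact (mem_sdiff.mp (mem_sdiff.mp hxT).1).2 hxU
        · calc ∏ p ∈ U, p ^ n.factorization p ≤ a := prod_le_sig
            _ ≤ c * (a + 1) := by omega
            _ ≤ (c * (a + 1)) ^ (h + 1) := Nat.le_self_pow (by omega) _
            _ ≤ _ := hCge
        · calc x ≤ D := hxD x hx
            _ ≤ (c * (a + 1)) ^ 2 ^ k := hDle
            _ ≤ (c * (a + 1)) ^ (h + 1) := Nat.pow_le_pow_right hbase hh2k
            _ ≤ _ := hCge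
        · show (∏ p ∈ U, r p (e p)) * ∏ p ∈ T, lim p = 2
          rw [← heq, ← hsr]
          exact hf

theorem one_le_of_inA {n k : ℕ} (hA : InA n) (hk : n.primeFactors.card ≤ k) : 1 ≤ k := by
  by_contra hk0
  have h0 : n.primeFactors.card = 0 := by omega
  rw [Finset.card_eq_zero] at h0
  have hn0 : n ≠ 0 := by have := hA.1; omega
  have := (inA_iff hn0).mp hA
  rw [h0, Finset.prod_empty] at this
  norm_num at this

/-- absolute form -/
theorem effective {n k Z : ℕ} (hA : InA n) (hP : Powerful n) (hk : n.primeFactors.card ≤ k)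
    (hZ : 1 ≤ Z) : n ≤ bound k Z 0 ∨ Pat2 ∅ (bound k Z 0) Z n := by
  have hk1 := one_le_of_inA hA hk
  unfold bound
  refine effective_aux hA hP hk hk1 hZ (Nat.mul_pos (Nat.mul_pos (by omega) (by omega)) (by simp)) _ ∅
    (Finset.empty_subset _) (Finset.empty_subset _) rfl ?_
  have : sig n ∅ = 1 := by unfold sig; rfl
  rw [this, Finset.card_empty]
  simp only [pow_zero, pow_one, mul_one]
  exact le_of_eq (by ring)

/-- form relative to the exact power of `2` -/
theorem effective_two {n k Z : ℕ} (hA : InA n) (hP : Powerful n) (hk : n.primeFactors.card ≤ k)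
    (hZ : 1 ≤ Z) :
    n ≤ bound k Z (n.factorization 2) ∨
      Pat2 (n.primeFactors.filter fun p => p = 2) (bound k Z (n.factorization 2)) Z n := by
  have hk1 := one_le_of_inA hA hk
  unfold bound
  have hX : 1 ≤ 8 * k * (Z + 2) * 2 ^ n.factorization 2 :=
    Nat.mul_pos (Nat.mul_pos (by omega) (by omega)) (by positivity)
  refine effective_aux hA hP hk hk1 hZ hX _
    (n.primeFactors.filter fun p => p = 2) (Finset.Subset.refl _) (Finset.filter_subset _ _) rfl ?_
  have hsig : sig n (n.primeFactors.filter fun p => p = 2) + 1 ≤ 2 * 2 ^ n.factorization 2 := by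
    by_cases h2 : 2 ∈ n.primeFactors
    · have : (n.primeFactors.filter fun p => p = 2) = {2} := by
        ext p
        rw [mem_filter, mem_singleton]
        exact ⟨fun h => h.2, fun h => ⟨h ▸ h2, h⟩⟩
      rw [this]
      unfold sig
      rw [Finset.prod_singleton]
      exact sum_pow_lt le_rfl _
    · have : (n.primeFactors.filter fun p => p = 2) = ∅ := by
        ext p
        rw [mem_filter]
        constructor
        · rintro ⟨h, rfl⟩
          exact absurd h h2
        · intro h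
          exact absurd h (Finset.notMem_empty _)
      rw [this]
      have h1 : sig n ∅ = 1 := by unfold sig; rfl
      rw [h1]
      have : 1 ≤ 2 ^ n.factorization 2 := Nat.one_le_two_pow
      omega
  calc 4 * k * (Z + 2) * (sig n (n.primeFactors.filter fun p => p = 2) + 1)
      ≤ 4 * k * (Z + 2) * (2 * 2 ^ n.factorization 2) := Nat.mul_le_mul_left _ hsig
    _ = 8 * k * (Z + 2) * 2 ^ n.factorization 2 := by ring
    _ ≤ (8 * k * (Z + 2) * 2 ^ n.factorization 2) ^
        (2 ^ k * Z + 2) ^ (n.primeFactors.filter fun p => p = 2).card :=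
        Nat.le_self_pow (by positivity) _

end H49W
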