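import Pool.Agent.Lib.H49W.Eff

/-!
Explicit structure theorem and explicit finiteness results.
-/

namespace H49W

open Finset

theorem structure_of_pat {n C Z : ℕ} {U₀ : Finset ℕ} (hA : InA n) (hP : Powerful n)
    (h : Pat2 U₀ C Z n) :
    ∃ u v w : ℕ, n = u * v * w ∧ Nat.Coprime u v ∧ Nat.Coprime (u * v) w ∧
      u ≤ C ∧ 1 < v ∧ 1 < w ∧
      (∀ p ∈ v.primeFactors, p ≤ C ∧ Z < v.factorization p) ∧
      (∀ p ∈ w.primeFactors, Z < p) ∧
      ((∑ d ∈ u.divisors, d : ℕ) : ℚ) / (usigma u : ℚ) *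
        ∏ p ∈ v.primeFactors, (p : ℚ) / ((p : ℚ) - 1) = 2 ∧
      (∀ p ∈ U₀, p.Prime → ¬ p ∣ v * w) := by
  obtain ⟨U, V, W, h0, h1, h2, h3, h4, h5, h6, h7, h8⟩ := h
  have hn0 := hP.1
  have hU : U ⊆ n.primeFactors := by
    rw [← h1, Finset.union_assoc]; exact Finset.subset_union_left
  have hV : V ⊆ n.primeFactors := by
    rw [← h1]; exact (Finset.subset_union_right).trans Finset.subset_union_left
  have hW : W ⊆ n.primeFactors := by
    rw [← h1]; exact Finset.subset_union_right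
  have hpr : ∀ S : Finset ℕ, S ⊆ n.primeFactors → ∀ p ∈ S, p.Prime := fun S hS p hp =>
    Nat.prime_of_mem_primeFactors (hS hp)
  have hv0 : ∀ S : Finset ℕ, S ⊆ n.primeFactors → ∀ p ∈ S, n.factorization p ≠ 0 := fun S hS p hp => by
    have := hP.two_le (hS hp); omega
  have hWne : W.Nonempty := by
    rw [Finset.nonempty_iff_ne_empty]
    intro hWe
    have hrest := pat_rest hA h1 h2 h3 h8
    rw [hWe, Finset.union_empty] at hrest
    have hlt : ∏ p ∈ V, r p (n.factorization p) < ∏ p ∈ V, lim p :=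
      Finset.prod_lt_prod_of_nonempty (fun p hp => r_pos (two_le_of_mem (hV hp)))
        (fun p hp => r_lt_lim (two_le_of_mem (hV hp))) h4
    exact absurd hrest hlt.ne
  refine ⟨∏ p ∈ U, p ^ n.factorization p, ∏ p ∈ V, p ^ n.factorization p,
    ∏ p ∈ W, p ^ n.factorization p, ?_, ?_, ?_, h5, ?_, ?_, ?_, ?_, ?_, ?_⟩
  · rw [← Finset.prod_union h2, ← Finset.prod_union h3, h1, prod_self hn0]
  · exact prod_primePow_coprime (hpr U hU) (hpr V hV) h2 _ _
  · rw [← Finset.prod_union h2]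
    exact prod_primePow_coprime (hpr _ (Finset.union_subset hU hV)) (hpr W hW) h3 _ _
  · obtain ⟨p, hp⟩ := h4
    have hd : p ^ n.factorization p ∣ ∏ p ∈ V, p ^ n.factorization p :=
      Finset.dvd_prod_of_mem (fun p => p ^ n.factorization p) hp
    have hpos : 0 < ∏ p ∈ V, p ^ n.factorization p :=
      Finset.prod_pos fun q hq => pow_pos (hpr V hV q hq).pos _
    exact lt_of_lt_of_le (Nat.one_lt_pow (hv0 V hV p hp) (hpr V hV p hp).one_lt)
      (Nat.le_of_dvd hpos hd)
  · obtain ⟨p, hp⟩ := hWne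
    have hd : p ^ n.factorization p ∣ ∏ p ∈ W, p ^ n.factorization p :=
      Finset.dvd_prod_of_mem (fun p => p ^ n.factorization p) hp
    have hpos : 0 < ∏ p ∈ W, p ^ n.factorization p :=
      Finset.prod_pos fun q hq => pow_pos (hpr W hW q hq).pos _
    exact lt_of_lt_of_le (Nat.one_lt_pow (hv0 W hW p hp) (hpr W hW p hp).one_lt)
      (Nat.le_of_dvd hpos hd)
  · intro p hp
    rw [primeFactors_prod_pow (hpr V hV) (hv0 V hV)] at hp
    rw [fact_prod_pow (hpr V hV) _ hp]
    exact h6 p hp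
  · intro p hp
    rw [primeFactors_prod_pow (hpr W hW) (hv0 W hW)] at hp
    exact h7 p hp
  · have hu0 : ∏ p ∈ U, p ^ n.factorization p ≠ 0 :=
      Finset.prod_ne_zero_iff.mpr fun p hp => pow_ne_zero _ (hpr U hU p hp).ne_zero
    rw [ratio_eq hu0, primeFactors_prod_pow (hpr U hU) (hv0 U hU),
      primeFactors_prod_pow (hpr V hV) (hv0 V hV), ← h8]
    congr 1
    exact Finset.prod_congr rfl fun p hp => by rw [fact_prod_pow (hpr U hU) _ hp]
  · intro p hp hpp hd
    have hpU := h0 hp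
    have hv0' : ∏ p ∈ V, p ^ n.factorization p ≠ 0 :=
      Finset.prod_ne_zero_iff.mpr fun p hp => pow_ne_zero _ (hpr V hV p hp).ne_zero
    have hw0' : ∏ p ∈ W, p ^ n.factorization p ≠ 0 :=
      Finset.prod_ne_zero_iff.mpr fun p hp => pow_ne_zero _ (hpr W hW p hp).ne_zero
    rcases (Nat.Prime.dvd_mul hpp).mp hd with hd | hd
    · have : p ∈ (∏ p ∈ V, p ^ n.factorization p).primeFactors := Nat.mem_primeFactors.mpr ⟨hpp, hd, hv0'⟩
      rw [primeFactors_prod_pow (hpr V hV) (hv0 V hV)] at this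
      exact Finset.disjoint_left.mp h2 hpU this
    · have : p ∈ (∏ p ∈ W, p ^ n.factorization p).primeFactors := Nat.mem_primeFactors.mpr ⟨hpp, hd, hw0'⟩
      rw [primeFactors_prod_pow (hpr W hW) (hv0 W hW)] at this
      exact Finset.disjoint_left.mp h3 (mem_union_left _ hpU) this

theorem structure_explicit {n k Z b : ℕ} (hA : InA n) (hP : Powerful n)
    (hk : n.primeFactors.card ≤ k) (hZ : 1 ≤ Z) (hb : b = 0 ∨ b = n.factorization 2)
    (hn : bound k Z b < n) :
    ∃ u v w : ℕ, n = u * v * w ∧ Nat.Coprime u v ∧ Nat.Coprime (u * v) w ∧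
      u ≤ bound k Z b ∧ 1 < v ∧ 1 < w ∧
      (∀ p ∈ v.primeFactors, p ≤ bound k Z b ∧ Z < v.factorization p) ∧
      (∀ p ∈ w.primeFactors, Z < p) ∧
      ((∑ d ∈ u.divisors, d : ℕ) : ℚ) / (usigma u : ℚ) *
        ∏ p ∈ v.primeFactors, (p : ℚ) / ((p : ℚ) - 1) = 2 ∧
      (b = n.factorization 2 → Odd (v * w)) := by
  have hcases : b ≠ n.factorization 2 ∨ b = n.factorization 2 := by
    rcases eq_or_ne b (n.factorization 2) with h | h
    · exact Or.inr h
    · exact Or.inl h
  rcases hcases with hne | heq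
  · have hb0 : b = 0 := hb.resolve_right hne
    subst hb0
    have h := (effective hA hP hk hZ).resolve_left (not_le.mpr hn)
    obtain ⟨u, v, w, h1, h2, h3, h4, h5, h6, h7, h8, h9, -⟩ := structure_of_pat hA hP h
    exact ⟨u, v, w, h1, h2, h3, h4, h5, h6, h7, h8, h9, fun hh => absurd hh hne⟩
  · subst heq
    have h := (effective_two hA hP hk hZ).resolve_left (not_le.mpr hn)
    obtain ⟨u, v, w, h1, h2, h3, h4, h5, h6, h7, h8, h9, h10⟩ := structure_of_pat hA hP h
    refine ⟨u, v, w, h1, h2, h3, h4, h5, h6, h7, h8, h9, fun _ => ?_⟩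
    rw [← Nat.not_even_iff_odd]
    intro hev
    have hd : 2 ∣ v * w := hev.two_dvd
    by_cases h2n : 2 ∈ n.primeFactors
    · exact h10 2 (mem_filter.mpr ⟨h2n, rfl⟩) Nat.prime_two hd
    · apply h2n
      rw [Nat.mem_primeFactors]
      refine ⟨Nat.prime_two, ?_, hP.1⟩
      rw [h1, mul_assoc]
      exact hd.mul_left _

/-- Explicit finiteness: few even exponents. -/
theorem even_explicit {n k t : ℕ} (hA : InA n) (hpow : Powerful n)
    (hk : n.primeFactors.card ≤ k)
    (hmod : ∀ p ∈ n.primeFactors, p ≠ 2 → p ≡ 1 [MOD 2 ^ (t + 1)])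
    (ht : (n.primeFactors.filter fun p => p ≠ 2 ∧ Even (n.factorization p)).card ≤ t) :
    n ≤ bound k 1 (n.factorization 2) := by
  rcases effective_two hA hpow hk le_rfl with h | ⟨U, V, W, h0, h1, h2, h3, h4, h5, h6, h7, h8⟩
  · exact h
  exfalso
  have : Fact (Nat.Prime 2) := ⟨Nat.prime_two⟩
  have hsub : V ∪ W ⊆ n.primeFactors := by
    rw [← h1, Finset.union_assoc]; exact Finset.subset_union_right
  have hne2 : ∀ p ∈ V ∪ W, p ≠ 2 := by
    intro p hp hp2
    have hpU : p ∈ U := h0 (mem_filter.mpr ⟨hsub hp, hp2⟩)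
    rcases mem_union.mp hp with hp | hp
    · exact Finset.disjoint_left.mp h2 hpU hp
    · exact Finset.disjoint_left.mp h3 (mem_union_left _ hpU) hp
  refine no_pat 2 hA (t := t) h1 h2 h3 h4 h8 ?_ fun p hp => hmod p (hsub (mem_union_left _ hp))
    (hne2 p (mem_union_left _ hp))
  have hterm : ∀ p ∈ V ∪ W, (-(if Even (n.factorization p) then (1 : ℤ) else 0)) ≤
      padicValRat 2 (r p (n.factorization p)) := by
    intro p hp
    have hpp := Nat.prime_of_mem_primeFactors (hsub hp)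
    have hodd : Odd p := hpp.odd_of_ne_two (hne2 p hp)
    have he2 := hpow.two_le (hsub hp)
    rw [val_two_r hodd hpp.one_lt (by omega)]
    split_ifs with hev
    · omega
    · have ho : Odd (n.factorization p) := Nat.not_even_iff_odd.mp hev
      have : 1 ≤ padicValNat 2 (n.factorization p + 1) :=
        one_le_padicValNat_of_dvd (by omega) (even_iff_two_dvd.mp ho.add_one)
      omega
  have hsum := Finset.sum_le_sum hterm
  refine le_trans ?_ hsum
  rw [Finset.sum_neg_distrib, neg_le_neg_iff, Finset.sum_ite, Finset.sum_const_zero, add_zero,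
    Finset.sum_const, nsmul_eq_mul, mul_one]
  refine le_trans ?_ (Int.ofNat_le.mpr ht)
  refine Int.ofNat_le.mpr (Finset.card_le_card fun p hp => ?_)
  rw [mem_filter] at hp ⊢
  exact ⟨hsub hp.1, hne2 p hp.1, hp.2⟩

/-- Explicit finiteness: all odd primes `≡ 1` modulo an odd prime. -/
theorem mod_explicit {n k l : ℕ} (hl : l.Prime) (hl2 : l ≠ 2) (hA : InA n) (hpow : Powerful n)
    (hk : n.primeFactors.card ≤ k) (hmod : ∀ p ∈ n.primeFactors, p ≠ 2 → p ≡ 1 [MOD l]) :
    n ≤ bound k 1 (n.factorization 2) := by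
  rcases effective_two hA hpow hk le_rfl with h | ⟨U, V, W, h0, h1, h2, h3, h4, h5, h6, h7, h8⟩
  · exact h
  exfalso
  have : Fact l.Prime := ⟨hl⟩
  have hsub : V ∪ W ⊆ n.primeFactors := by
    rw [← h1, Finset.union_assoc]; exact Finset.subset_union_right
  have hne2 : ∀ p ∈ V ∪ W, p ≠ 2 := by
    intro p hp hp2
    have hpU : p ∈ U := h0 (mem_filter.mpr ⟨hsub hp, hp2⟩)
    rcases mem_union.mp hp with hp | hp
    · exact Finset.disjoint_left.mp h2 hpU hp
    · exact Finset.disjoint_left.mp h3 (mem_union_left _ hpU) hp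
  refine no_pat l hA (t := 0) h1 h2 h3 h4 h8 ?_ fun p hp => by
    simpa using hmod p (hsub (mem_union_left _ hp)) (hne2 p (mem_union_left _ hp))
  simp only [Nat.cast_zero, neg_zero]
  refine Finset.sum_nonneg fun p hp => ?_
  have hp2 : 2 ≤ p := two_le_of_mem (hsub hp)
  rw [val_r l hp2]
  have h0 : padicValNat l (p ^ n.factorization p + 1) = 0 := by
    apply padicValNat.eq_zero_of_not_dvd
    intro hd
    have h5 : p ^ n.factorization p + 1 ≡ 1 ^ n.factorization p + 1 [MOD l] :=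
      ((hmod p (hsub hp) (hne2 p hp)).pow _).add_right 1
    rw [one_pow] at h5
    have h6 : l ∣ 1 + 1 := (h5.dvd_iff dvd_rfl).mp hd
    have h7 : l = 2 := (Nat.prime_dvd_prime_iff_eq hl Nat.prime_two).mp h6
    exact hl2 h7
  rw [h0]
  simp

end H49W
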