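import Pool.Agent.Lib.H49W.Small2

/-!
Structure theorem in terms of numbers, primitive elements, finiteness corollaries.
-/

namespace H49W

open Finset

theorem Powerful.two_le {n p : ℕ} (h : Powerful n) (hp : p ∈ n.primeFactors) :
    2 ≤ n.factorization p := by
  have hpp := Nat.prime_of_mem_primeFactors hp
  exact (hpp.pow_dvd_iff_le_factorization h.1).mp (h.2 p hpp (Nat.dvd_of_mem_primeFactors hp))

theorem prod_self {n : ℕ} (hn : n ≠ 0) : ∏ p ∈ n.primeFactors, p ^ n.factorization p = n := by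
  have := Nat.prod_factorization_pow_eq_self hn
  rw [Finsupp.prod, Nat.support_factorization] at this
  exact this

/-- primitive elements are powerful -/
theorem powerful_of_primitive {n : ℕ} (h : PrimitiveA n) : Powerful n := by
  obtain ⟨hA, hprim⟩ := h
  have hn0 : n ≠ 0 := by have := hA.1; omega
  refine ⟨hn0, fun p hp hpn => ?_⟩
  by_contra hcon
  obtain ⟨m, rfl⟩ := hpn
  have hpm : ¬ p ∣ m := by
    intro hd
    apply hcon
    rw [pow_two]
    exact mul_dvd_mul_left p hd
  have hm0 : m ≠ 0 := fun h => hn0 (by rw [h, mul_zero])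
  have hcop : Nat.Coprime p m := (hp.coprime_iff_not_dvd).mpr hpm
  refine hprim m (Dvd.intro_left p rfl) ?_ ?_
  · have := hp.two_le
    have hm : 0 < m := Nat.pos_of_ne_zero hm0
    nlinarith
  · rw [inA_iff hm0]
    have h2 := (inA_iff hn0).mp hA
    rw [Nat.primeFactors_mul hp.ne_zero hm0, hp.primeFactors,
      Finset.prod_union (by rw [Finset.disjoint_singleton_left]; exact fun h => hpm (Nat.dvd_of_mem_primeFactors h)),
      Finset.prod_singleton] at h2
    have hfp : (p * m).factorization p = 1 := by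
      rw [Nat.factorization_mul hp.ne_zero hm0, Finsupp.add_apply, hp.factorization_self,
        Nat.factorization_eq_zero_of_not_dvd hpm]
    rw [hfp, r_one hp.two_le, one_mul] at h2
    rw [← h2]
    refine Finset.prod_congr rfl fun q hq => ?_
    have : (p * m).factorization q = m.factorization q := by
      rw [Nat.factorization_mul hp.ne_zero hm0, Finsupp.add_apply]
      have hqp : p.factorization q = 0 := by
        apply Nat.factorization_eq_zero_of_not_dvd
        intro hd
        have := (Nat.prime_dvd_prime_iff_eq (Nat.prime_of_mem_primeFactors hq) hp).mp hd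
        exact hpm (this ▸ Nat.dvd_of_mem_primeFactors hq)
      rw [hqp, zero_add]
    rw [this]

theorem adm_of {n : ℕ} (h : InA n) (hp : Powerful n) : Adm n.primeFactors.card n :=
  ⟨hp.1, rfl, fun _ hq => hp.two_le hq, (inA_iff hp.1).mp h⟩

/-- structure theorem over sets, all numbers of primes up to `k` -/
theorem structure_le (k Z : ℕ) : ∃ C : ℕ, ∀ n : ℕ, InA n → Powerful n → n.primeFactors.card ≤ k →
    n ≤ C ∨ Pat C Z n := by
  have h := fun K => structure_sets K Z
  choose C hC using h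
  refine ⟨∑ K ∈ range (k + 1), C K, fun n hn hp hk => ?_⟩
  have hle : C n.primeFactors.card ≤ ∑ K ∈ range (k + 1), C K :=
    Finset.single_le_sum (f := C) (fun _ _ => Nat.zero_le _) (mem_range.mpr (by omega))
  rcases hC _ n (adm_of hn hp) with h | h
  · exact Or.inl (h.trans hle)
  · exact Or.inr (h.mono hle)

/-- value of the part outside `U` in a pattern -/
theorem pat_rest {n : ℕ} (hA : InA n) {U V W : Finset ℕ} (h1 : U ∪ V ∪ W = n.primeFactors)
    (h2 : Disjoint U V) (h3 : Disjoint (U ∪ V) W)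
    (h8 : (∏ p ∈ U, r p (n.factorization p)) * ∏ p ∈ V, lim p = 2) :
    (∏ p ∈ V ∪ W, r p (n.factorization p)) = ∏ p ∈ V, lim p := by
  have hn0 : n ≠ 0 := by have := hA.1; omega
  have h := (inA_iff hn0).mp hA
  have hVW : Disjoint V W := h3.mono_left Finset.subset_union_right
  rw [← h1, Finset.prod_union h3, Finset.prod_union h2] at h
  rw [Finset.prod_union hVW]
  have hU : (∏ p ∈ U, r p (n.factorization p)) ≠ 0 := by
    refine Finset.prod_ne_zero_iff.mpr fun p hp => (r_pos (two_le_of_mem (n := n) ?_)).ne'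
    rw [← h1]; exact mem_union_left _ (mem_union_left _ hp)
  apply mul_left_cancel₀ hU
  rw [← mul_assoc, h, h8]

/-- no pattern if the valuations at `l` are wrong -/
theorem no_pat (l : ℕ) [Fact l.Prime] {n : ℕ} (hA : InA n) {t : ℕ} {U V W : Finset ℕ}
    (h1 : U ∪ V ∪ W = n.primeFactors) (h2 : Disjoint U V) (h3 : Disjoint (U ∪ V) W)
    (h4 : V.Nonempty)
    (h8 : (∏ p ∈ U, r p (n.factorization p)) * ∏ p ∈ V, lim p = 2)
    (hlow : -(t : ℤ) ≤ ∑ p ∈ V ∪ W, padicValRat l (r p (n.factorization p)))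
    (hmod : ∀ p ∈ V, p ≡ 1 [MOD l ^ (t + 1)]) : False := by
  have hrest := pat_rest hA h1 h2 h3 h8
  have hsub : V ∪ W ⊆ n.primeFactors := by
    rw [← h1, Finset.union_assoc]; exact Finset.subset_union_right
  have hv := congrArg (padicValRat l) hrest
  rw [prod_val l _ _ fun p hp => (r_pos (two_le_of_mem (hsub hp))).ne',
    prod_val l _ _ fun p hp => (lim_pos (two_le_of_mem (hsub (mem_union_left _ hp)))).ne'] at hv
  have hup : ∀ p ∈ V, padicValRat l (lim p) ≤ -((t : ℤ) + 1) := by
    intro p hp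
    have hp2 : 2 ≤ p := two_le_of_mem (hsub (mem_union_left _ hp))
    rw [val_lim l hp2]
    have hdvd : l ^ (t + 1) ∣ p - 1 := (Nat.modEq_iff_dvd' (by omega)).mp (hmod p hp).symm
    have h5 : t + 1 ≤ padicValNat l (p - 1) :=
      (padicValNat_dvd_iff_le (by omega)).mp hdvd
    have h6 : padicValNat l p = 0 := by
      apply padicValNat.eq_zero_of_not_dvd
      intro hd
      have h7 : l ∣ p - 1 := (dvd_pow_self l (by omega)).trans hdvd
      have h8 : l ∣ 1 := by
        have := (Nat.dvd_sub hd h7)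
        rwa [Nat.sub_sub_self (by omega)] at this
      exact (Fact.out : l.Prime).one_lt.ne' (Nat.dvd_one.mp h8)
    omega
  have hsum : ∑ p ∈ V, padicValRat l (lim p) ≤ ∑ _p ∈ V, (-((t : ℤ) + 1)) :=
    Finset.sum_le_sum hup
  rw [Finset.sum_const, nsmul_eq_mul] at hsum
  have hc : (1 : ℤ) ≤ V.card := by exact_mod_cast Finset.card_pos.mpr h4
  nlinarith

/-- Finiteness: few even exponents. -/
theorem finite_even (k B t : ℕ) : {n : ℕ | InA n ∧ Powerful n ∧ n.primeFactors.card ≤ k ∧ ¬ 2 ^ B ∣ n ∧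
    (∀ p ∈ n.primeFactors, p ≠ 2 → p ≡ 1 [MOD 2 ^ (t + 1)]) ∧
    (n.primeFactors.filter fun p => p ≠ 2 ∧ Even (n.factorization p)).card ≤ t}.Finite := by
  obtain ⟨C, hC⟩ := structure_le k (B + 2)
  refine (Set.finite_le_nat C).subset ?_
  rintro n ⟨hA, hpow, hk, hB, hmod, ht⟩
  rcases hC n hA hpow hk with h | ⟨U, V, W, h1, h2, h3, h4, h5, h6, h7, h8⟩
  · exact h
  exfalso
  have : Fact (Nat.Prime 2) := ⟨Nat.prime_two⟩
  have hsub : V ∪ W ⊆ n.primeFactors := by
    rw [← h1, Finset.union_assoc]; exact Finset.subset_union_right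
  have hne2 : ∀ p ∈ V ∪ W, p ≠ 2 := by
    intro p hp hp2
    subst hp2
    rcases mem_union.mp hp with hp | hp
    · have := (h6 2 hp).2
      apply hB
      exact (Nat.prime_two.pow_dvd_iff_le_factorization hpow.1).mpr (by omega)
    · have := h7 2 hp
      omega
  refine no_pat 2 hA (t := t) h1 h2 h3 h4 h8 ?_ fun p hp => hmod p (hsub (mem_union_left _ hp))
    (hne2 p (mem_union_left _ hp))
  have hterm : ∀ p ∈ V ∪ W, (-(if Even (n.factorization p) then (1 : ℤ) else 0)) ≤
      padicValRat 2 (r p (n.factorization p)) := by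
    intro p hp
    have hpp := Nat.prime_of_mem_primeFactors (hsub hp)
    have hodd : Odd p := hpp.odd_of_ne_two (hne2 p hp)
    have he2 := hpow.two_le (hsub hp)
    rw [val_two_r hodd hpp.one_lt (by omega)]
    split_ifs with hev
    · omega
    · have ho : Odd (n.factorization p) := Nat.not_even_iff_odd.mp hev
      have : 1 ≤ padicValNat 2 (n.factorization p + 1) :=
        one_le_padicValNat_of_dvd (by omega) (even_iff_two_dvd.mp ho.add_one)
      omega
  have hsum := Finset.sum_le_sum hterm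
  refine le_trans ?_ hsum
  rw [Finset.sum_neg_distrib, neg_le_neg_iff, Finset.sum_ite, Finset.sum_const_zero, add_zero,
    Finset.sum_const, nsmul_eq_mul, mul_one]
  refine le_trans ?_ (Int.ofNat_le.mpr ht)
  refine Int.ofNat_le.mpr (Finset.card_le_card fun p hp => ?_)
  rw [mem_filter] at hp ⊢
  exact ⟨hsub hp.1, hne2 p hp.1, hp.2⟩

/-- Finiteness: all primes `≡ 1` modulo an odd prime. -/
theorem finite_mod (k l : ℕ) (hl : l.Prime) (hl2 : l ≠ 2) :
    {n : ℕ | InA n ∧ Powerful n ∧ n.primeFactors.card ≤ k ∧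
      ∀ p ∈ n.primeFactors, p ≡ 1 [MOD l]}.Finite := by
  obtain ⟨C, hC⟩ := structure_le k 0
  refine (Set.finite_le_nat C).subset ?_
  rintro n ⟨hA, hpow, hk, hmod⟩
  rcases hC n hA hpow hk with h | ⟨U, V, W, h1, h2, h3, h4, h5, h6, h7, h8⟩
  · exact h
  exfalso
  have : Fact l.Prime := ⟨hl⟩
  have hsub : V ∪ W ⊆ n.primeFactors := by
    rw [← h1, Finset.union_assoc]; exact Finset.subset_union_right
  refine no_pat l hA (t := 0) h1 h2 h3 h4 h8 ?_ fun p hp => by
    simpa using hmod p (hsub (mem_union_left _ hp))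
  simp only [Nat.cast_zero, neg_zero]
  refine Finset.sum_nonneg fun p hp => ?_
  have hp2 : 2 ≤ p := two_le_of_mem (hsub hp)
  rw [val_r l hp2]
  have h0 : padicValNat l (p ^ n.factorization p + 1) = 0 := by
    apply padicValNat.eq_zero_of_not_dvd
    intro hd
    have h5 : p ^ n.factorization p + 1 ≡ 1 ^ n.factorization p + 1 [MOD l] :=
      ((hmod p (hsub hp)).pow _).add_right 1
    rw [one_pow] at h5
    have h6 : l ∣ 1 + 1 := (h5.dvd_iff dvd_rfl).mp hd
    have h7 : l = 2 := (Nat.prime_dvd_prime_iff_eq hl Nat.prime_two).mp h6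
    exact hl2 h7
  rw [h0]
  simp

end H49W
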