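import Pool.Agent.Lib.H49W.Fin

/-!
The structure theorem in terms of numbers.
-/

namespace H49W

open Finset

theorem fact_prod_pow {S : Finset ℕ} (hS : ∀ p ∈ S, p.Prime) (v : ℕ → ℕ) {p : ℕ} (hp : p ∈ S) :
    (∏ q ∈ S, q ^ v q).factorization p = v p := by
  rw [Nat.factorization_prod fun q hq => pow_ne_zero _ (hS q hq).ne_zero, Finsupp.finsetSum_apply,
    Finset.sum_eq_single_of_mem p hp]
  · rw [(hS p hp).factorization_pow, Finsupp.single_eq_same]
  · intro q hq hqp
    rw [(hS q hq).factorization_pow, Finsupp.single_eq_of_ne hqp.symm]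

theorem ratio_eq {u : ℕ} (hu : u ≠ 0) :
    ((∑ d ∈ u.divisors, d : ℕ) : ℚ) / (usigma u : ℚ) =
      ∏ p ∈ u.primeFactors, r p (u.factorization p) := by
  have h2 : ((usigma u : ℕ) : ℚ) ≠ 0 := by
    rw [usigma_eq hu]
    push_cast
    exact Finset.prod_ne_zero_iff.mpr fun p _ => by positivity
  rw [div_eq_iff h2, Nat.sum_divisors hu, usigma_eq hu]
  push_cast
  rw [← Finset.prod_mul_distrib]
  refine Finset.prod_congr rfl fun p hp => ?_
  have := sum_pow_eq p (u.factorization p) (Nat.prime_of_mem_primeFactors hp).two_le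
  push_cast at this
  exact this

theorem structure_theorem (k Z : ℕ) : ∃ C : ℕ, ∀ n : ℕ, InA n → Powerful n → n.primeFactors.card ≤ k →
    n ≤ C ∨ ∃ u v w : ℕ, n = u * v * w ∧ Nat.Coprime u v ∧ Nat.Coprime (u * v) w ∧
      u ≤ C ∧ 1 < v ∧ 1 < w ∧
      (∀ p ∈ v.primeFactors, p ≤ C ∧ Z < v.factorization p) ∧
      (∀ p ∈ w.primeFactors, Z < p) ∧
      ((∑ d ∈ u.divisors, d : ℕ) : ℚ) / (usigma u : ℚ) *
        ∏ p ∈ v.primeFactors, (p : ℚ) / ((p : ℚ) - 1) = 2 := by
  obtain ⟨C, hC⟩ := structure_le k Z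
  refine ⟨C + (C + 1) ^ k, fun n hA hP hk => ?_⟩
  rcases hC n hA hP hk with h | ⟨U, V, W, h1, h2, h3, h4, h5, h6, h7, h8⟩
  · exact Or.inl (h.trans (Nat.le_add_right _ _))
  right
  have hn0 := hP.1
  have hU : U ⊆ n.primeFactors := by
    rw [← h1, Finset.union_assoc]; exact Finset.subset_union_left
  have hV : V ⊆ n.primeFactors := by
    rw [← h1]; exact (Finset.subset_union_right).trans Finset.subset_union_left
  have hW : W ⊆ n.primeFactors := by
    rw [← h1]; exact Finset.subset_union_right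
  have hpr : ∀ S : Finset ℕ, S ⊆ n.primeFactors → ∀ p ∈ S, p.Prime := fun S hS p hp =>
    Nat.prime_of_mem_primeFactors (hS hp)
  have hv0 : ∀ S : Finset ℕ, S ⊆ n.primeFactors → ∀ p ∈ S, n.factorization p ≠ 0 := fun S hS p hp => by
    have := hP.two_le (hS hp); omega
  have hWne : W.Nonempty := by
    rw [Finset.nonempty_iff_ne_empty]
    intro hWe
    have hrest := pat_rest hA h1 h2 h3 h8
    rw [hWe, Finset.union_empty] at hrest
    have hlt : ∏ p ∈ V, r p (n.factorization p) < ∏ p ∈ V, lim p :=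
      Finset.prod_lt_prod_of_nonempty (fun p hp => r_pos (two_le_of_mem (hV hp)))
        (fun p hp => r_lt_lim (two_le_of_mem (hV hp))) h4
    exact absurd hrest hlt.ne
  refine ⟨∏ p ∈ U, p ^ n.factorization p, ∏ p ∈ V, p ^ n.factorization p,
    ∏ p ∈ W, p ^ n.factorization p, ?_, ?_, ?_, ?_, ?_, ?_, ?_, ?_, ?_⟩
  · rw [← Finset.prod_union h2, ← Finset.prod_union h3, h1, prod_self hn0]
  · exact prod_primePow_coprime (hpr U hU) (hpr V hV) h2 _ _
  · rw [← Finset.prod_union h2]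
    exact prod_primePow_coprime (hpr _ (Finset.union_subset hU hV)) (hpr W hW) h3 _ _
  · have hc : U.card ≤ k := (Finset.card_le_card hU).trans hk
    calc ∏ p ∈ U, p ^ n.factorization p ≤ ∏ _p ∈ U, (C + 1) :=
          Finset.prod_le_prod' fun p hp => (h5 p hp).trans (Nat.le_succ C)
      _ = (C + 1) ^ U.card := Finset.prod_const _
      _ ≤ (C + 1) ^ k := Nat.pow_le_pow_right (by omega) hc
      _ ≤ _ := Nat.le_add_left _ _
  · obtain ⟨p, hp⟩ := h4
    have hd : p ^ n.factorization p ∣ ∏ p ∈ V, p ^ n.factorization p :=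
      Finset.dvd_prod_of_mem (fun p => p ^ n.factorization p) hp
    have hpos : 0 < ∏ p ∈ V, p ^ n.factorization p :=
      Finset.prod_pos fun q hq => pow_pos (hpr V hV q hq).pos _
    exact lt_of_lt_of_le (Nat.one_lt_pow (hv0 V hV p hp) (hpr V hV p hp).one_lt)
      (Nat.le_of_dvd hpos hd)
  · obtain ⟨p, hp⟩ := hWne
    have hd : p ^ n.factorization p ∣ ∏ p ∈ W, p ^ n.factorization p :=
      Finset.dvd_prod_of_mem (fun p => p ^ n.factorization p) hp
    have hpos : 0 < ∏ p ∈ W, p ^ n.factorization p :=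
      Finset.prod_pos fun q hq => pow_pos (hpr W hW q hq).pos _
    exact lt_of_lt_of_le (Nat.one_lt_pow (hv0 W hW p hp) (hpr W hW p hp).one_lt)
      (Nat.le_of_dvd hpos hd)
  · intro p hp
    rw [primeFactors_prod_pow (hpr V hV) (hv0 V hV)] at hp
    rw [fact_prod_pow (hpr V hV) _ hp]
    exact ⟨(h6 p hp).1.trans (Nat.le_add_right _ _), (h6 p hp).2⟩
  · intro p hp
    rw [primeFactors_prod_pow (hpr W hW) (hv0 W hW)] at hp
    exact h7 p hp
  · have hu0 : ∏ p ∈ U, p ^ n.factorization p ≠ 0 :=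
      Finset.prod_ne_zero_iff.mpr fun p hp => pow_ne_zero _ (hpr U hU p hp).ne_zero
    rw [ratio_eq hu0, primeFactors_prod_pow (hpr U hU) (hv0 U hU),
      primeFactors_prod_pow (hpr V hV) (hv0 V hV), ← h8]
    congr 1
    exact Finset.prod_congr rfl fun p hp => by rw [fact_prod_pow (hpr U hU) _ hp]

end H49W
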