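import Pool.Agent.Lib.H49W.Good2

/-!
No exact limit solution with at most three odd primes (odd case).
-/

namespace H49W

open Finset

/-- the possible values at a prime: a finite exponent `≥ 2` or the limit -/
def GV (p : ℕ) (g : ℚ) : Prop := g = lim p ∨ ∃ e, 2 ≤ e ∧ g = r p e

theorem GV.le_lim {p : ℕ} {g : ℚ} (hp : 2 ≤ p) (h : GV p g) : g ≤ lim p := by
  rcases h with rfl | ⟨e, he, rfl⟩
  · exact le_rfl
  · exact (r_lt_lim hp).le

theorem GV.ge {p : ℕ} {g : ℚ} (hp : 2 ≤ p) (h : GV p g) (k : ℕ) :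
    (∃ e, 2 ≤ e ∧ e < k ∧ g = r p e) ∨ r p k ≤ g := by
  rcases h with rfl | ⟨e, he, rfl⟩
  · exact Or.inr (r_lt_lim hp).le
  · rcases lt_or_ge e k with hlt | hge
    · exact Or.inl ⟨e, he, hlt, rfl⟩
    · exact Or.inr (r_mono hp hge)

theorem GV.pos {p : ℕ} {g : ℚ} (hp : 2 ≤ p) (h : GV p g) : 0 < g := by
  rcases h with rfl | ⟨e, he, rfl⟩
  · exact lim_pos hp
  · exact r_pos hp

theorem lim_le {p m : ℕ} (hm : 2 ≤ m) (h : m ≤ p) {g : ℚ} (hg : GV p g) : g ≤ (m : ℚ) / (m - 1) :=
  (hg.le_lim (hm.trans h)).trans (lim_anti hm h)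

theorem gv3 {g : ℚ} (h : GV 3 g) :
    g = 13 / 10 ∨ g = 10 / 7 ∨ g = 121 / 82 ∨ g = 91 / 61 ∨ (1093 / 730 ≤ g ∧ g ≤ 3 / 2) := by
  have hl := h.le_lim (by norm_num)
  rcases h.ge (by norm_num) 6 with ⟨e, h2, h6, rfl⟩ | hge
  · interval_cases e
    · left; norm_num [r]
    · right; left; norm_num [r]
    · right; right; left; norm_num [r]
    · right; right; right; left; norm_num [r]
  · right; right; right; right
    refine ⟨le_trans (by norm_num [r]) hge, hl.trans (by norm_num [lim])⟩

theorem gv5 {g : ℚ} (h : GV 5 g) :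
    g = 31 / 26 ∨ g = 26 / 21 ∨ (781 / 626 ≤ g ∧ g ≤ 5 / 4) := by
  have hl := h.le_lim (by norm_num)
  rcases h.ge (by norm_num) 4 with ⟨e, h2, h6, rfl⟩ | hge
  · interval_cases e
    · left; norm_num [r]
    · right; left; norm_num [r]
  · right; right
    refine ⟨le_trans (by norm_num [r]) hge, hl.trans (by norm_num [lim])⟩

theorem gv7 {g : ℚ} (h : GV 7 g) : 57 / 50 ≤ g ∧ g ≤ 7 / 6 := by
  have hl := h.le_lim (by norm_num)
  rcases h.ge (by norm_num) 2 with ⟨e, h2, h6, rfl⟩ | hge
  · omega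
  · exact ⟨le_trans (by norm_num [r]) hge, hl.trans (by norm_num [lim])⟩

theorem gv11 {g : ℚ} (h : GV 11 g) : g = 133 / 122 ∨ (122 / 111 ≤ g ∧ g ≤ 11 / 10) := by
  have hl := h.le_lim (by norm_num)
  rcases h.ge (by norm_num) 3 with ⟨e, h2, h6, rfl⟩ | hge
  · interval_cases e
    left; norm_num [r]
  · right
    exact ⟨le_trans (by norm_num [r]) hge, hl.trans (by norm_num [lim])⟩

theorem gv13 {g : ℚ} (h : GV 13 g) :
    g = 183 / 170 ∨ g = 170 / 157 ∨ (30941 / 28562 ≤ g ∧ g ≤ 13 / 12) := by
  have hl := h.le_lim (by norm_num)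
  rcases h.ge (by norm_num) 4 with ⟨e, h2, h6, rfl⟩ | hge
  · interval_cases e
    · left; norm_num [r]
    · right; left; norm_num [r]
  · right; right
    exact ⟨le_trans (by norm_num [r]) hge, hl.trans (by norm_num [lim])⟩

private theorem up3 {a b c A B C : ℚ} (ha : 0 < a) (hb : 0 < b) (hc : 0 < c) (h1 : a ≤ A) (h2 : b ≤ B)
    (h3 : c ≤ C) : a * b * c ≤ A * B * C :=
  mul_le_mul (mul_le_mul h1 h2 hb.le (ha.le.trans h1)) h3 hc.le
    (mul_nonneg (ha.le.trans h1) (hb.le.trans h2))

private theorem lo3 {a b c A B C : ℚ} (hA : 0 < A) (hB : 0 < B) (hC : 0 < C) (h1 : A ≤ a) (h2 : B ≤ b)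
    (h3 : C ≤ c) : A * B * C ≤ a * b * c := up3 hA hB hC h1 h2 h3

theorem gv_357 {a b c : ℚ} (ha : GV 3 a) (hb : GV 5 b) (hc : GV 7 c) : a * b * c ≠ 2 := by
  intro h
  have pa := ha.pos (by norm_num)
  have pb := hb.pos (by norm_num)
  have pc := hc.pos (by norm_num)
  obtain ⟨c1, c2⟩ := gv7 hc
  have b2 : b ≤ 5 / 4 := (hb.le_lim (by norm_num)).trans (by norm_num [lim])
  rcases gv3 ha with rfl | rfl | rfl | rfl | ⟨a1, a2⟩
  · have := up3 pa pb pc le_rfl b2 c2; norm_num at this; linarith
  · rcases gv5 hb with rfl | rfl | ⟨b1, b2⟩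
    · linarith
    · linarith
    · have := lo3 (by norm_num) (by norm_num) (by norm_num) (le_refl (10 / 7 : ℚ)) b1 c1
      norm_num at this; linarith
  · rcases gv5 hb with rfl | rfl | ⟨b1, b2⟩
    · linarith
    · linarith
    · have := lo3 (by norm_num) (by norm_num) (by norm_num) (le_refl (121 / 82 : ℚ)) b1 c1
      norm_num at this; linarith
  · rcases gv5 hb with rfl | rfl | ⟨b1, b2⟩
    · linarith
    · linarith
    · have := lo3 (by norm_num) (by norm_num) (by norm_num) (le_refl (91 / 61 : ℚ)) b1 c1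
      norm_num at this; linarith
  · rcases gv5 hb with rfl | rfl | ⟨b1, b2⟩
    · have := lo3 (by norm_num) (by norm_num) (by norm_num) a1 (le_refl (31 / 26 : ℚ)) c1
      norm_num at this; linarith
    · have := lo3 (by norm_num) (by norm_num) (by norm_num) a1 (le_refl (26 / 21 : ℚ)) c1
      norm_num at this; linarith
    · have := lo3 (by norm_num) (by norm_num) (by norm_num) a1 b1 c1
      norm_num at this; linarith

theorem gv_3511 {a b c : ℚ} (ha : GV 3 a) (hb : GV 5 b) (hc : GV 11 c) : a * b * c ≠ 2 := by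
  intro h
  have pa := ha.pos (by norm_num)
  have pb := hb.pos (by norm_num)
  have pc := hc.pos (by norm_num)
  have c1 : 133 / 122 ≤ c := by
    rcases gv11 hc with rfl | ⟨c1, _⟩
    · exact le_rfl
    · exact le_trans (by norm_num) c1
  have c2 : c ≤ 11 / 10 := (hc.le_lim (by norm_num)).trans (by norm_num [lim])
  have b2 : b ≤ 5 / 4 := (hb.le_lim (by norm_num)).trans (by norm_num [lim])
  rcases gv3 ha with rfl | rfl | rfl | rfl | ⟨a1, a2⟩
  · have := up3 pa pb pc le_rfl b2 c2; norm_num at this; linarith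
  · have := up3 pa pb pc le_rfl b2 c2; norm_num at this; linarith
  · rcases gv5 hb with rfl | rfl | ⟨b1, b2⟩
    · linarith
    · rcases gv11 hc with rfl | ⟨c1, c2⟩
      · norm_num at h
      · linarith
    · have := lo3 (by norm_num) (by norm_num) (by norm_num) (le_refl (121 / 82 : ℚ)) b1 c1
      norm_num at this; linarith
  · rcases gv5 hb with rfl | rfl | ⟨b1, b2⟩
    · linarith
    · linarith
    · have := lo3 (by norm_num) (by norm_num) (by norm_num) (le_refl (91 / 61 : ℚ)) b1 c1
      norm_num at this; linarith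
  · rcases gv5 hb with rfl | rfl | ⟨b1, b2⟩
    · have := up3 pa pb pc a2 (le_refl (31 / 26 : ℚ)) c2
      norm_num at this; linarith
    · have := lo3 (by norm_num) (by norm_num) (by norm_num) a1 (le_refl (26 / 21 : ℚ)) c1
      norm_num at this; linarith
    · have := lo3 (by norm_num) (by norm_num) (by norm_num) a1 b1 c1
      norm_num at this; linarith

theorem gv_3513 {a b c : ℚ} (ha : GV 3 a) (hb : GV 5 b) (hc : GV 13 c) : a * b * c ≠ 2 := by
  intro h
  have pa := ha.pos (by norm_num)
  have pb := hb.pos (by norm_num)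
  have pc := hc.pos (by norm_num)
  have c1 : 183 / 170 ≤ c := by
    rcases gv13 hc with rfl | rfl | ⟨c1, _⟩
    · exact le_rfl
    · norm_num
    · exact le_trans (by norm_num) c1
  have c2 : c ≤ 13 / 12 := (hc.le_lim (by norm_num)).trans (by norm_num [lim])
  have b2 : b ≤ 5 / 4 := (hb.le_lim (by norm_num)).trans (by norm_num [lim])
  rcases gv3 ha with rfl | rfl | rfl | rfl | ⟨a1, a2⟩
  · have := up3 pa pb pc le_rfl b2 c2; norm_num at this; linarith
  · have := up3 pa pb pc le_rfl b2 c2; norm_num at this; linarith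
  · have := up3 pa pb pc le_rfl b2 c2; norm_num at this; linarith
  · rcases gv5 hb with rfl | rfl | ⟨b1, b2⟩
    · linarith
    · rcases gv13 hc with rfl | rfl | ⟨c1, c2⟩
      · norm_num at h
      · norm_num at h
      · linarith
    · have := lo3 (by norm_num) (by norm_num) (by norm_num) (le_refl (91 / 61 : ℚ)) b1 c1
      norm_num at this; linarith
  · rcases gv5 hb with rfl | rfl | ⟨b1, b2⟩
    · have := up3 pa pb pc a2 (le_refl (31 / 26 : ℚ)) c2
      norm_num at this; linarith
    · rcases gv13 hc with rfl | rfl | ⟨c1, c2⟩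
      · linarith
      · linarith
      · have := lo3 (by norm_num) (by norm_num) (by norm_num) a1 (le_refl (26 / 21 : ℚ)) c1
        norm_num at this; linarith
    · have := lo3 (by norm_num) (by norm_num) (by norm_num) a1 b1 c1
      norm_num at this; linarith

/-- sorted triples of odd primes -/
theorem gv_three {x y z : ℕ} {a b c : ℚ} (hx : x.Prime) (hy : y.Prime) (hz : z.Prime) (hx2 : x ≠ 2)
    (hxy : x < y) (hyz : y < z) (ha : GV x a) (hb : GV y b) (hc : GV z c) : a * b * c ≠ 2 := by
  intro h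
  have pa := ha.pos hx.two_le
  have pb := hb.pos hy.two_le
  have pc := hc.pos hz.two_le
  have hx3 : 3 ≤ x := by have := hx.two_le; omega
  have odd_of : ∀ p : ℕ, p.Prime → p ≠ 2 → p % 2 = 1 := fun p hp h2 => Nat.odd_iff.mp (hp.odd_of_ne_two h2)
  have ox := odd_of x hx hx2
  have oy := odd_of y hy (by omega)
  have oz := odd_of z hz (by omega)
  rcases Nat.lt_or_ge y 7 with hy7 | hy7
  · have hx' : x = 3 := by omega
    have hy' : y = 5 := by omega
    subst hx'; subst hy'
    rcases Nat.lt_or_ge z 17 with hz17 | hz17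
    · have h9 : z ≠ 9 := by rintro rfl; norm_num at hz
      have h15 : z ≠ 15 := by rintro rfl; norm_num at hz
      have hz' : z = 7 ∨ z = 11 ∨ z = 13 := by omega
      rcases hz' with rfl | rfl | rfl
      · exact gv_357 ha hb hc h
      · exact gv_3511 ha hb hc h
      · exact gv_3513 ha hb hc h
    · have h1 := lim_le (by norm_num) le_rfl ha
      have h2 := lim_le (by norm_num) le_rfl hb
      have h3 := lim_le (by norm_num) hz17 hc
      have := up3 pa pb pc h1 h2 h3
      norm_num at this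
      linarith
  · have hz11 : 11 ≤ z := by
      have h9 : z ≠ 9 := by rintro rfl; norm_num at hz
      omega
    have h1 := lim_le (by norm_num) hx3 ha
    have h2 := lim_le (by norm_num) hy7 hb
    have h3 := lim_le (by norm_num) hz11 hc
    have := up3 pa pb pc h1 h2 h3
    norm_num at this
    linarith

/-- at most three odd primes -/
theorem gv_set {S : Finset ℕ} {g : ℕ → ℚ} (hS : ∀ p ∈ S, p.Prime ∧ p ≠ 2) (hcard : S.card ≤ 3)
    (hg : ∀ p ∈ S, GV p (g p)) (h : ∏ p ∈ S, g p = 2) : False := by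
  have h3 : ∀ p ∈ S, 3 ≤ p := fun p hp => by
    have := (hS p hp).1.two_le; have := (hS p hp).2; omega
  interval_cases hc : S.card
  · rw [Finset.card_eq_zero] at hc
    rw [hc, Finset.prod_empty] at h
    norm_num at h
  · obtain ⟨x, rfl⟩ := Finset.card_eq_one.mp hc
    rw [Finset.prod_singleton] at h
    have := lim_le (by norm_num) (h3 x (by simp)) (hg x (by simp))
    norm_num at this
    linarith
  · obtain ⟨x, y, hxy, rfl⟩ := Finset.card_eq_two.mp hc
    rw [Finset.prod_pair hxy] at h
    have hx3 := h3 x (by simp)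
    have hy3 := h3 y (by simp)
    have px := (hg x (by simp)).pos (by omega)
    have py := (hg y (by simp)).pos (by omega)
    have hx := hS x (by simp)
    have hy := hS y (by simp)
    have ox : x % 2 = 1 := Nat.odd_iff.mp (hx.1.odd_of_ne_two hx.2)
    have oy : y % 2 = 1 := Nat.odd_iff.mp (hy.1.odd_of_ne_two hy.2)
    rcases Nat.lt_or_ge x y with hlt | hge
    · have h1 := lim_le (by norm_num) hx3 (hg x (by simp))
      have h2 := lim_le (m := 5) (by norm_num) (by omega) (hg y (by simp))
      have := mul_le_mul h1 h2 py.le (by norm_num)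
      norm_num at this
      linarith
    · have h1 := lim_le (m := 5) (by norm_num) (by omega) (hg x (by simp))
      have h2 := lim_le (by norm_num) hy3 (hg y (by simp))
      have := mul_le_mul h1 h2 py.le (by norm_num)
      norm_num at this
      linarith
  · obtain ⟨x, y, z, hxy, hxz, hyz, rfl⟩ := Finset.card_eq_three.mp hc
    have hp : g x * g y * g z = 2 := by
      rw [← h, Finset.prod_insert (by simp [hxy, hxz]), Finset.prod_pair hyz, mul_assoc]
    have hx := hS x (by simp)
    have hy := hS y (by simp)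
    have hz := hS z (by simp)
    have gx := hg x (by simp)
    have gy := hg y (by simp)
    have gz := hg z (by simp)
    rcases Nat.lt_or_gt_of_ne hxy with h1 | h1 <;> rcases Nat.lt_or_gt_of_ne hxz with h2 | h2 <;>
      rcases Nat.lt_or_gt_of_ne hyz with h4 | h4
    · exact gv_three hx.1 hy.1 hz.1 hx.2 h1 h4 gx gy gz hp
    · exact gv_three hx.1 hz.1 hy.1 hx.2 h2 h4 gx gz gy (by rw [← hp]; ring)
    · omega
    · exact gv_three hz.1 hx.1 hy.1 hz.2 h2 h1 gz gx gy (by rw [← hp]; ring)
    · exact gv_three hy.1 hx.1 hz.1 hy.2 h1 h2 gy gx gz (by rw [← hp]; ring)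
    · omega
    · exact gv_three hy.1 hz.1 hx.1 hy.2 h4 h2 gy gz gx (by rw [← hp]; ring)
    · exact gv_three hz.1 hy.1 hx.1 hz.2 h4 h1 gz gy gx (by rw [← hp]; ring)

end H49W
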