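import Pool.Agent.Lib.H49W.Four1

/-!
No exact limit solution with at most four primes (even case), and the bound for at most four primes.
-/

namespace H49W

open Finset

private theorem poly_bound {Q : ℤ} (hQ : 3 ≤ Q) : 9 * Q * (Q + 1) ^ 3 + 3 * (Q + 1) ^ 2 < Q ^ 7 + 1 := by
  obtain ⟨s, rfl⟩ : ∃ s, Q = s + 3 := ⟨Q - 3, by ring⟩
  have hs : 0 ≤ s := by linarith
  have h : (s + 3) ^ 7 + 1 - (9 * (s + 3) * (s + 3 + 1) ^ 3 + 3 * (s + 3 + 1) ^ 2) =
      s ^ 7 + 21 * s ^ 6 + 189 * s ^ 5 + 936 * s ^ 4 + 2700 * s ^ 3 + 4344 * s ^ 2 + 3207 * s + 412 := by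
    ring
  have h2 : 0 < (s + 3) ^ 7 + 1 - (9 * (s + 3) * (s + 3 + 1) ^ 3 + 3 * (s + 3 + 1) ^ 2) := by
    rw [h]; positivity
  linarith

/-- the arithmetic core -/
theorem core_even {M q p F e : ℕ} (hq : 3 ≤ q) (hp : p.Prime) (hM : 1 ≤ M)
    (hMq : M ≤ 3 * (q + 1)) (he : 7 ≤ e) (hF : F * (q + 1) = q ^ e + 1)
    (h : (M : ℤ) * (q * F - 1) * p = (M + 3) * F * (q - 1) * (p - 1)) : False := by
  have hp2 := hp.two_le
  have hF0 : 0 < F := by
    rcases Nat.eq_zero_or_pos F with h0 | h0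
    · rw [h0, zero_mul] at hF
      omega
    · exact h0
  have hQ : (3 : ℤ) ≤ q := by exact_mod_cast hq
  have hMZ : (1 : ℤ) ≤ M := by exact_mod_cast hM
  have hPZ : (2 : ℤ) ≤ p := by exact_mod_cast hp2
  have hFZ : (0 : ℤ) < F := by exact_mod_cast hF0
  have hMQ : (M : ℤ) ≤ 3 * (q + 1) := by exact_mod_cast hMq
  -- F is large
  have hFbig : M * M * q + M < F := by
    by_contra hcon
    push Not at hcon
    have h1 : (q : ℤ) ^ 7 ≤ (q : ℤ) ^ e := pow_le_pow_right₀ (by linarith) he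
    have h2 : (F : ℤ) * (q + 1) = (q : ℤ) ^ e + 1 := by exact_mod_cast hF
    have h3 : (F : ℤ) ≤ M * M * q + M := by exact_mod_cast hcon
    have h4 := poly_bound hQ
    have h5 : (M : ℤ) * M ≤ (3 * (q + 1)) * (3 * (q + 1)) := mul_le_mul hMQ hMQ (by linarith) (by linarith)
    have h6 : (M : ℤ) * M * q ≤ (3 * (q + 1)) * (3 * (q + 1)) * q :=
      mul_le_mul_of_nonneg_right h5 (by linarith)
    have h7 : (F : ℤ) * (q + 1) ≤ ((3 * (q + 1)) * (3 * (q + 1)) * q + 3 * (q + 1)) * (q + 1) :=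
      mul_le_mul_of_nonneg_right (by linarith) (by linarith)
    have h8 : (((3 * ((q : ℤ) + 1)) * (3 * (q + 1)) * q + 3 * (q + 1)) * (q + 1)) =
        9 * q * (q + 1) ^ 3 + 3 * (q + 1) ^ 2 := by ring
    rw [h8, h2] at h7
    linarith
  -- T
  obtain ⟨T, hT⟩ : ∃ T : ℤ, T = M * p * q - (M + 3) * (p - 1) * (q - 1) := ⟨_, rfl⟩
  have hTF : T * F = M * p := by
    rw [hT]
    linear_combination h
  have hT0 : 0 < T := by
    have h1 : 0 < T * F := by rw [hTF]; positivity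
    exact (pos_iff_pos_of_mul_pos h1).mpr hFZ
  obtain ⟨t, rfl⟩ : ∃ t : ℕ, T = t := ⟨T.toNat, (Int.toNat_of_nonneg hT0.le).symm⟩
  have htF : t * F = M * p := by exact_mod_cast hTF
  have ht0 : 0 < t := by exact_mod_cast hT0
  have hd : p ∣ t * F := by rw [htF]; exact Dvd.intro_left M rfl
  rcases (Nat.Prime.dvd_mul hp).mp hd with ⟨t', rfl⟩ | ⟨F', rfl⟩
  · have h1 : t' * F = M := by
      have : p * (t' * F) = p * M := by rw [← mul_assoc, htF]; ring
      exact Nat.eq_of_mul_eq_mul_left hp.pos this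
    have ht' : 0 < t' := by
      rcases Nat.eq_zero_or_pos t' with h0 | h0
      · rw [h0, mul_zero] at ht0; omega
      · exact h0
    have h2 : F ≤ M := by rw [← h1]; exact Nat.le_mul_of_pos_left _ ht'
    have : M ≤ M * M * q + M := Nat.le_add_left _ _
    omega
  · have h1 : t * F' = M := by
      have : p * (t * F') = p * M := by rw [← mul_assoc, mul_comm p t, mul_assoc, htF]; ring
      exact Nat.eq_of_mul_eq_mul_left hp.pos this
    have hF' : 0 < F' := by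
      rcases Nat.eq_zero_or_pos F' with h0 | h0
      · rw [h0, mul_zero] at hF0; omega
      · exact h0
    have hF'M : F' ≤ M := by rw [← h1]; exact Nat.le_mul_of_pos_left _ ht0
    have htM : t ≤ M := by rw [← h1]; exact Nat.le_mul_of_pos_right _ hF'
    have hpbig : M * q + 1 < p := by
      by_contra hcon
      push Not at hcon
      have : p * F' ≤ (M * q + 1) * M := Nat.mul_le_mul hcon hF'M
      have h5 : (M * q + 1) * M = M * M * q + M := by ring
      omega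
    have hpb : (M : ℤ) * q + 1 < p := by exact_mod_cast hpbig
    have htMZ : (t : ℤ) ≤ M := by exact_mod_cast htM
    have ht1 : (1 : ℤ) ≤ t := by exact_mod_cast ht0
    have hexp : (t : ℤ) = (p - 1) * (M - 3 * (q - 1)) + M * q := by rw [hT]; ring
    -- M - 3 (q - 1) ≥ 0
    rcases lt_or_ge ((M : ℤ) - 3 * (q - 1)) 0 with hneg | hnn
    · have : ((p : ℤ) - 1) * (M - 3 * (q - 1)) ≤ ((p : ℤ) - 1) * (-1) :=
        mul_le_mul_of_nonneg_left (by linarith) (by linarith)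
      linarith
    · have : 0 ≤ ((p : ℤ) - 1) * (M - 3 * (q - 1)) := mul_nonneg (by linarith) hnn
      have h7 : (M : ℤ) * 3 ≤ M * q := mul_le_mul_of_nonneg_left hQ (by linarith)
      linarith

/-- `2`-adic information -/
theorem val_pair {α β q p e : ℕ} (hα : Odd α) (hβ : Odd β) (hq : q.Prime) (hq2 : q ≠ 2) (hp : p.Prime)
    (hp2 : p ≠ 2) (he : 1 ≤ e) (h : r q e * lim p = ((2 * β : ℕ) : ℚ) / ((α : ℕ) : ℚ)) : 8 ∣ e + 1 := by
  have : Fact (Nat.Prime 2) := ⟨Nat.prime_two⟩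
  have hv := congrArg (padicValRat 2) h
  have hα0 : ((α : ℕ) : ℚ) ≠ 0 := by exact_mod_cast hα.pos.ne'
  have hβ0 : ((2 * β : ℕ) : ℚ) ≠ 0 := by
    have := hβ.pos
    exact_mod_cast (by omega : 2 * β ≠ 0)
  rw [padicValRat.mul (r_pos hq.two_le).ne' (lim_pos hp.two_le).ne', padicValRat.div hβ0 hα0,
    padicValRat.of_nat, padicValRat.of_nat, val_two_r (hq.odd_of_ne_two hq2) hq.one_lt he,
    val_lim 2 hp.two_le] at hv
  have h1 : padicValNat 2 α = 0 :=
    padicValNat.eq_zero_of_not_dvd fun hd => (Nat.not_even_iff_odd.mpr hα) (even_iff_two_dvd.mpr hd)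
  have h2 : padicValNat 2 (2 * β) = 1 := by
    rw [padicValNat.mul two_ne_zero hβ.pos.ne', padicValNat_self,
      padicValNat.eq_zero_of_not_dvd fun hd => (Nat.not_even_iff_odd.mpr hβ) (even_iff_two_dvd.mpr hd)]
  have h3 : padicValNat 2 p = 0 := by
    apply padicValNat.eq_zero_of_not_dvd
    intro hd
    exact (Nat.not_even_iff_odd.mpr (hp.odd_of_ne_two hp2)) (even_iff_two_dvd.mpr hd)
  have h4 : 1 ≤ padicValNat 2 (p - 1) := by
    have hodd := hp.odd_of_ne_two hp2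
    have := hp.two_le
    refine one_le_padicValNat_of_dvd (by omega) ?_
    obtain ⟨j, hj⟩ := hodd
    exact ⟨j, by omega⟩
  rw [h1, h2, h3] at hv
  have h5 : 3 ≤ padicValNat 2 (e + 1) := by
    omega
  have := (padicValNat_dvd_iff_le (p := 2) (n := 3) (a := e + 1) (by omega)).mpr h5
  simpa using this

theorem no_limit_two {a e q p : ℕ} (ha : 1 ≤ a) (hq : q.Prime) (hp : p.Prime) (hq2 : q ≠ 2)
    (hp2 : p ≠ 2) (he2 : 2 ≤ e) (h : r 2 a * (r q e * lim p) = 2) : False := by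
  have hpow1 : 4 ≤ 2 ^ (a + 1) := by
    rw [pow_succ]
    have : 2 ^ 1 ≤ 2 ^ a := Nat.pow_le_pow_right (by norm_num) ha
    omega
  obtain ⟨M, hM⟩ : ∃ M, M = 2 ^ (a + 1) - 1 := ⟨_, rfl⟩
  have hM3 : M + 3 = 2 * (2 ^ a + 1) := by
    rw [hM, pow_succ]; rw [pow_succ] at hpow1; omega
  have hMQ : (0 : ℚ) < M := by exact_mod_cast (by omega : 0 < M)
  have hMQ3 : (M : ℚ) + 3 = 2 * ((2 ^ a + 1 : ℕ) : ℚ) := by exact_mod_cast hM3
  have hq3 : 3 ≤ q := by have := hq.two_le; omega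
  rw [r_two_eq, ← hM] at h
  have hA : (0 : ℚ) < ((2 ^ a + 1 : ℕ) : ℚ) := by positivity
  have h' : r q e * lim p = ((2 * (2 ^ a + 1) : ℕ) : ℚ) / ((M : ℕ) : ℚ) := by
    rw [eq_div_iff hMQ.ne']
    rw [div_mul_eq_mul_div, div_eq_iff hA.ne'] at h
    push_cast at h ⊢
    linarith
  have h8 : 8 ∣ e + 1 := by
    refine val_pair ?_ ?_ hq hq2 hp hp2 (by omega) h'
    · have : 2 ∣ 2 ^ (a + 1) := dvd_pow_self 2 (by omega)
      rw [Nat.odd_iff]; omega
    · have : 2 ∣ 2 ^ a := dvd_pow_self 2 (by omega)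
      rw [Nat.odd_iff]; omega
  have he7 : 7 ≤ e := by have := Nat.le_of_dvd (by omega) h8; omega
  have hodd : Odd e := by rw [Nat.odd_iff]; omega
  -- F
  have hdvd : q + 1 ∣ q ^ e + 1 := by
    have := hodd.nat_add_dvd_pow_add_pow q 1
    rwa [one_pow] at this
  obtain ⟨F, hF⟩ := hdvd
  have hF' : F * (q + 1) = q ^ e + 1 := by rw [hF, mul_comm]
  have hF0 : 0 < F := by
    rcases Nat.eq_zero_or_pos F with h0 | h0
    · rw [h0, zero_mul] at hF'; omega
    · exact h0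
  have hFQ : (0 : ℚ) < F := by exact_mod_cast hF0
  have hqQ : (3 : ℚ) ≤ q := by exact_mod_cast hq3
  have hpQ : (2 : ℚ) ≤ p := by exact_mod_cast hp.two_le
  have hFq : (F : ℚ) * (q + 1) = (q : ℚ) ^ e + 1 := by exact_mod_cast hF'
  have hrq : r q e = ((q : ℚ) * F - 1) / (F * (q - 1)) := by
    unfold r
    rw [← hFq]
    have h1 : ((q : ℚ) + 1) ≠ 0 := by positivity
    have h2 : ((q : ℚ) - 1) ≠ 0 := by linarith
    field_simp
  -- M ≤ 3 (q + 1)
  have hMq : M ≤ 3 * (q + 1) := by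
    have h1 := r_ge (x := q) (by omega) he2
    have h2 : r q e ≤ r q e * lim p := by
      have := one_lt_lim hp.two_le
      have := r_pos (p := q) (e := e) (by omega)
      nlinarith
    rw [h'] at h2
    have h3 : ((2 * (2 ^ a + 1) : ℕ) : ℚ) / ((M : ℕ) : ℚ) = 1 + 3 / M := by
      rw [← hM3]; push_cast; field_simp
    rw [h3] at h2
    have h5 : 1 / ((q : ℚ) + 1) ≤ 3 / M := by linarith
    rw [div_le_div_iff₀ (by positivity) hMQ] at h5
    have h6 : (M : ℚ) ≤ ((3 * (q + 1) : ℕ) : ℚ) := by push_cast; linarith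
    exact_mod_cast h6
  refine core_even (M := M) hq3 hp (by omega) hMq he7 hF' ?_
  have hkey : (M : ℚ) * (q * F - 1) * p = (M + 3) * F * (q - 1) * (p - 1) := by
    rw [hrq] at h'
    unfold lim at h'
    have h1 : ((q : ℚ) - 1) ≠ 0 := by linarith
    have h2 : ((p : ℚ) - 1) ≠ 0 := by linarith
    rw [div_mul_div_comm, div_eq_div_iff (mul_ne_zero (mul_ne_zero hFQ.ne' h1) h2) hMQ.ne'] at h'
    rw [← hM3] at h'
    push_cast at h'
    linarith
  have : ((( (M : ℤ) * (q * F - 1) * p : ℤ)) : ℚ) = (((M + 3) * F * (q - 1) * (p - 1) : ℤ) : ℚ) := by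
    push_cast
    exact hkey
  exact_mod_cast this

end H49W
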