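import Pool.Agent.Lib.H49W.Four2
import Pool.Agent.Lib.H49W.Eff2

/-!
The explicit bound for the powerful elements of `A` with at most four prime factors.
-/

namespace H49W

open Finset

theorem odd_two_pow_sub {a : ℕ} : Odd (2 ^ (a + 1) - 1) := by
  have : 2 ∣ 2 ^ (a + 1) := dvd_pow_self 2 (by omega)
  have h2 : 0 < 2 ^ (a + 1) := by positivity
  rw [Nat.odd_iff]; omega

theorem odd_two_pow_add {a : ℕ} (ha : 1 ≤ a) : Odd (2 ^ a + 1) := by
  have : 2 ∣ 2 ^ a := dvd_pow_self 2 (by omega)
  rw [Nat.odd_iff]; omega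

theorem four_explicit {n k : ℕ} (hA : InA n) (hP : Powerful n) (hk : n.primeFactors.card ≤ k)
    (hk4 : k ≤ 4) : n ≤ bound k 1 (n.factorization 2) := by
  rcases effective_two hA hP hk le_rfl with h | ⟨U, V, W, h0, h1, h2, h3, h4, h5, h6, h7, h8⟩
  · exact h
  exfalso
  have hU : U ⊆ n.primeFactors := by
    rw [← h1, Finset.union_assoc]; exact Finset.subset_union_left
  have hV : V ⊆ n.primeFactors := by
    rw [← h1]; exact (Finset.subset_union_right).trans Finset.subset_union_left
  have hW : W ⊆ n.primeFactors := by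
    rw [← h1]; exact Finset.subset_union_right
  have hWne : W.Nonempty := by
    rw [Finset.nonempty_iff_ne_empty]
    intro hWe
    have hrest := pat_rest hA h1 h2 h3 h8
    rw [hWe, Finset.union_empty] at hrest
    have hlt : ∏ p ∈ V, r p (n.factorization p) < ∏ p ∈ V, lim p :=
      Finset.prod_lt_prod_of_nonempty (fun p hp => r_pos (two_le_of_mem (hV hp)))
        (fun p hp => r_lt_lim (two_le_of_mem (hV hp))) h4
    exact absurd hrest hlt.ne
  have hcard : U.card + V.card + W.card = n.primeFactors.card := by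
    rw [← h1, Finset.card_union_of_disjoint h3, Finset.card_union_of_disjoint h2]
  have hW1 : 1 ≤ W.card := Finset.card_pos.mpr hWne
  have hV1 : 1 ≤ V.card := Finset.card_pos.mpr h4
  have hprime : ∀ p ∈ n.primeFactors, p.Prime := fun p hp => Nat.prime_of_mem_primeFactors hp
  by_cases h2n : 2 ∈ n.primeFactors
  · -- even case
    have h2U : 2 ∈ U := h0 (mem_filter.mpr ⟨h2n, rfl⟩)
    have hV2 : ∀ p ∈ V, p ≠ 2 := by
      rintro p hp rfl
      exact Finset.disjoint_left.mp h2 h2U hp
    have ha2 : 2 ≤ n.factorization 2 := hP.two_le h2n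
    have hsplit : r 2 (n.factorization 2) *
        ((∏ p ∈ U.erase 2, r p (n.factorization p)) * ∏ p ∈ V, lim p) = 2 := by
      rw [← mul_assoc, Finset.mul_prod_erase U (fun p => r p (n.factorization p)) h2U]
      exact h8
    have hMpos : (0 : ℚ) < ((2 ^ (n.factorization 2 + 1) - 1 : ℕ) : ℚ) := by
      exact_mod_cast (odd_two_pow_sub (a := n.factorization 2)).pos
    have hApos : (0 : ℚ) < ((2 ^ n.factorization 2 + 1 : ℕ) : ℚ) := by positivity
    have h' : (∏ p ∈ U.erase 2, r p (n.factorization p)) * ∏ p ∈ V, lim p =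
        ((2 * (2 ^ n.factorization 2 + 1) : ℕ) : ℚ) / ((2 ^ (n.factorization 2 + 1) - 1 : ℕ) : ℚ) := by
      rw [r_two_eq, div_mul_eq_mul_div, div_eq_iff hApos.ne'] at hsplit
      rw [eq_div_iff hMpos.ne', mul_comm, hsplit]
      push_cast
      ring
    have hne : ∃ q ∈ U.erase 2, 4 ∣ n.factorization q + 1 := by
      by_contra hcon
      push Not at hcon
      refine val_contra (U := U.erase 2) (T := V) (e := fun p => n.factorization p)
        (odd_two_pow_sub (a := n.factorization 2)) (odd_two_pow_add (by omega : 1 ≤ n.factorization 2))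
        (fun p hp => ?_) (fun p hp => ⟨hprime p (hV hp), hV2 p hp⟩) h'
      have hpU := Finset.mem_of_mem_erase hp
      exact ⟨hprime p (hU hpU), (Finset.mem_erase.mp hp).1, hP.two_le (hU hpU), hcon p hp⟩
    obtain ⟨q, hq, -⟩ := hne
    have hcU : (U.erase 2).card + 1 = U.card := Finset.card_erase_add_one h2U
    have hcU1 : 1 ≤ (U.erase 2).card := Finset.card_pos.mpr ⟨q, hq⟩
    have hU1 : (U.erase 2).card = 1 := by omega
    have hV1' : V.card = 1 := by omega
    obtain ⟨q', hq'⟩ := Finset.card_eq_one.mp hU1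
    obtain ⟨p, hp⟩ := Finset.card_eq_one.mp hV1'
    rw [hq', hp, Finset.prod_singleton, Finset.prod_singleton] at hsplit
    have hq'm : q' ∈ U.erase 2 := by rw [hq']; exact mem_singleton_self _
    have hpm : p ∈ V := by rw [hp]; exact mem_singleton_self _
    have hq'U := Finset.mem_of_mem_erase hq'm
    exact no_limit_two (by omega) (hprime q' (hU hq'U)) (hprime p (hV hpm)) (Finset.mem_erase.mp hq'm).1
      (hV2 p hpm) (hP.two_le (hU hq'U)) hsplit
  · -- odd case
    have hne2 : ∀ p ∈ n.primeFactors, p ≠ 2 := by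
      rintro p hp rfl
      exact h2n hp
    refine gv_set (S := U ∪ V) (g := fun p => if p ∈ U then r p (n.factorization p) else lim p)
      (fun p hp => ?_) ?_ (fun p hp => ?_) ?_
    · have hpn : p ∈ n.primeFactors := by
        rcases mem_union.mp hp with hp | hp
        · exact hU hp
        · exact hV hp
      exact ⟨hprime p hpn, hne2 p hpn⟩
    · rw [Finset.card_union_of_disjoint h2]; omega
    · by_cases hpU : p ∈ U
      · simp only [hpU, if_true]
        exact Or.inr ⟨_, hP.two_le (hU hpU), rfl⟩
      · simp only [hpU, if_false]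
        exact Or.inl rfl
    · rw [Finset.prod_union h2, ← h8]
      congr 1
      · exact Finset.prod_congr rfl fun p hp => by simp only [hp, if_true]
      · refine Finset.prod_congr rfl fun p hp => ?_
        have : p ∉ U := fun hpU => Finset.disjoint_left.mp h2 hpU hp
        simp only [this, if_false]

end H49W
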