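import Pool.Agent.Lib.H49W.Eff

/-!
An exponent `≡ 3 mod 4` is small.
-/

namespace H49W

open Finset

/-- `2`-adic contradiction: no exponent `≡ 3 mod 4` in `U`. -/
theorem val_contra {U T : Finset ℕ} {e : ℕ → ℕ} {α β : ℕ} (hα : Odd α) (hβ : Odd β)
    (hU : ∀ p ∈ U, p.Prime ∧ p ≠ 2 ∧ 2 ≤ e p ∧ ¬ 4 ∣ e p + 1) (hT : ∀ p ∈ T, p.Prime ∧ p ≠ 2)
    (h : (∏ p ∈ U, r p (e p)) * ∏ p ∈ T, lim p = ((2 * β : ℕ) : ℚ) / ((α : ℕ) : ℚ)) : False := by
  have : Fact (Nat.Prime 2) := ⟨Nat.prime_two⟩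
  have hv := congrArg (padicValRat 2) h
  have hU0 : ∏ p ∈ U, r p (e p) ≠ 0 :=
    Finset.prod_ne_zero_iff.mpr fun p hp => (r_pos (hU p hp).1.two_le).ne'
  have hT0 : ∏ p ∈ T, lim p ≠ 0 :=
    Finset.prod_ne_zero_iff.mpr fun p hp => (lim_pos (hT p hp).1.two_le).ne'
  have hα0 : ((α : ℕ) : ℚ) ≠ 0 := by exact_mod_cast hα.pos.ne'
  have hβ0 : ((2 * β : ℕ) : ℚ) ≠ 0 := by
    have := hβ.pos
    exact_mod_cast (by omega : 2 * β ≠ 0)
  rw [padicValRat.mul hU0 hT0, padicValRat.div hβ0 hα0, padicValRat.of_nat, padicValRat.of_nat,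
    prod_val 2 _ _ fun p hp => (r_pos (hU p hp).1.two_le).ne',
    prod_val 2 _ _ fun p hp => (lim_pos (hT p hp).1.two_le).ne'] at hv
  have h1 : padicValNat 2 α = 0 :=
    padicValNat.eq_zero_of_not_dvd fun hd => (Nat.not_even_iff_odd.mpr hα) (even_iff_two_dvd.mpr hd)
  have h2 : padicValNat 2 (2 * β) = 1 := by
    rw [padicValNat.mul two_ne_zero hβ.pos.ne', padicValNat_self,
      padicValNat.eq_zero_of_not_dvd fun hd => (Nat.not_even_iff_odd.mpr hβ) (even_iff_two_dvd.mpr hd)]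
  rw [h1, h2] at hv
  have hs1 : ∑ p ∈ U, padicValRat 2 (r p (e p)) ≤ 0 := by
    refine Finset.sum_nonpos fun p hp => ?_
    obtain ⟨hpp, hp2, he, h4⟩ := hU p hp
    rw [val_two_r (hpp.odd_of_ne_two hp2) hpp.one_lt (by omega)]
    have : padicValNat 2 (e p + 1) < 2 := by
      by_contra hcon
      apply h4
      have := (padicValNat_dvd_iff_le (p := 2) (n := 2) (a := e p + 1) (by omega)).mpr (by omega)
      simpa using this
    omega
  have hs2 : ∑ p ∈ T, padicValRat 2 (lim p) ≤ 0 := by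
    refine Finset.sum_nonpos fun p hp => ?_
    obtain ⟨hpp, hp2⟩ := hT p hp
    rw [val_lim 2 hpp.two_le]
    have : padicValNat 2 p = 0 := by
      apply padicValNat.eq_zero_of_not_dvd
      intro hd
      exact (Nat.not_even_iff_odd.mpr (hpp.odd_of_ne_two hp2)) (even_iff_two_dvd.mpr hd)
    omega
  push_cast at hv
  omega

private theorem goodn1 {t a D X u : ℕ} (hD : D ≤ (t * (a + 1)) ^ 2 ^ t)
    (hS : 4 * t * (a + 1) ≤ X ^ (2 ^ t + 2) ^ u) (ht : 1 ≤ t) :
    2 * t * D ≤ X ^ (2 ^ t + 2) ^ (u + 1) ∧ 4 * t * ((a + 1) * (2 * (2 * t * D))) ≤ X ^ (2 ^ t + 2) ^ (u + 1) := by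
  have hD' : D ≤ (4 * t * (a + 1)) ^ 2 ^ t :=
    hD.trans (Nat.pow_le_pow_left (Nat.mul_le_mul_right _ (by omega)) _)
  have h4t : 4 * t ≤ 4 * t * (a + 1) := Nat.le_mul_of_pos_right _ (Nat.succ_pos _)
  have key : 4 * t * ((a + 1) * (2 * (2 * t * D))) ≤ X ^ (2 ^ t + 2) ^ (u + 1) := by
    calc 4 * t * ((a + 1) * (2 * (2 * t * D))) = (4 * t * (a + 1)) * ((4 * t) * D) := by ring
      _ ≤ (4 * t * (a + 1)) * ((4 * t * (a + 1)) * (4 * t * (a + 1)) ^ 2 ^ t) :=
          Nat.mul_le_mul_left _ (Nat.mul_le_mul h4t hD')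
      _ = (4 * t * (a + 1)) ^ (2 ^ t + 2) := by rw [pow_add]; ring
      _ ≤ (X ^ (2 ^ t + 2) ^ u) ^ (2 ^ t + 2) := Nat.pow_le_pow_left hS _
      _ = X ^ (2 ^ t + 2) ^ (u + 1) := by rw [← pow_mul, ← pow_succ]
  refine ⟨le_trans ?_ key, key⟩
  have h1 : 1 ≤ 4 * t * ((a + 1) * 2) := Nat.mul_pos (by omega) (by omega)
  calc 2 * t * D ≤ (4 * t * ((a + 1) * 2)) * (2 * t * D) := Nat.le_mul_of_pos_left _ h1
    _ = 4 * t * ((a + 1) * (2 * (2 * t * D))) := by ring

theorem good_aux {n t : ℕ} {S : Finset ℕ} {α β X : ℕ} (hα : Odd α) (hβ : Odd β)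
    (hS : ∀ p ∈ S, p.Prime ∧ p ≠ 2 ∧ 2 ≤ n.factorization p)
    (hprod : ∏ p ∈ S, r p (n.factorization p) = ((2 * β : ℕ) : ℚ) / ((α : ℕ) : ℚ))
    (hcard : S.card ≤ t) (hX : 1 ≤ X) : ∀ (m : ℕ) (U : Finset ℕ), U ⊆ S → S.card - U.card = m →
    (∀ p ∈ U, ¬ 4 ∣ n.factorization p + 1) →
    4 * t * (α * sig n U + 1) ≤ X ^ (2 ^ t + 2) ^ U.card →
    ∃ x ∈ S, 4 ∣ n.factorization x + 1 ∧ x ^ n.factorization x < X ^ (2 ^ t + 2) ^ t := by
  intro m
  induction m with
  | zero =>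
    intro U hU hm h4 _
    exfalso
    have hEq : U = S := Finset.eq_of_subset_of_card_le hU (by omega)
    refine val_contra (U := S) (T := ∅) (e := fun p => n.factorization p) hα hβ
      (fun p hp => ⟨(hS p hp).1, (hS p hp).2.1, (hS p hp).2.2, h4 p (hEq ▸ hp)⟩)
      (fun p hp => absurd hp (Finset.notMem_empty _)) ?_
    rw [Finset.prod_empty, mul_one]
    exact hprod
  | succ m ih =>
    intro U hU hm h4 hb
    have hp2 : ∀ p ∈ S, 2 ≤ p := fun p hp => (hS p hp).1.two_le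
    obtain ⟨s, hs⟩ : ∃ s, s = S \ U := ⟨_, rfl⟩
    have hsub : s ⊆ S := hs ▸ Finset.sdiff_subset
    have hcards : s.card = m + 1 := by rw [hs, Finset.card_sdiff_of_subset hU, hm]
    have hUt : U.card + 1 ≤ t := by
      have := Finset.card_le_card hU
      omega
    have ht1 : 1 ≤ t := by omega
    have hsne : s.Nonempty := by rw [← Finset.card_pos]; omega
    have hU2 : ∀ p ∈ U, 2 ≤ p := fun p hp => hp2 p (hU hp)
    have hsg0 : 0 < sig n U := sig_pos hU2
    have hus0 : 0 < us n U := us_pos n U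
    obtain ⟨a, ha⟩ : ∃ a, a = α * sig n U := ⟨_, rfl⟩
    obtain ⟨b, hbdef⟩ : ∃ b, b = 2 * β * us n U := ⟨_, rfl⟩
    have ha0 : 0 < a := by rw [ha]; exact Nat.mul_pos hα.pos hsg0
    have haQ : (0 : ℚ) < a := by exact_mod_cast ha0
    have hsgQ : (0 : ℚ) < sig n U := by exact_mod_cast hsg0
    have husQ : (0 : ℚ) < us n U := by exact_mod_cast hus0
    have hαQ : (0 : ℚ) < α := by exact_mod_cast hα.pos
    have hf : (∏ p ∈ U, r p (n.factorization p)) * ∏ p ∈ s, r p (n.factorization p) =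
        ((2 * β : ℕ) : ℚ) / ((α : ℕ) : ℚ) := by
      rw [← hprod, mul_comm, hs]
      exact Finset.prod_sdiff hU
    have hUr : ∏ p ∈ U, r p (n.factorization p) = (sig n U : ℚ) / (us n U : ℚ) := prod_r_eq hU2
    have hsr : ∏ p ∈ s, r p (n.factorization p) = (b : ℚ) / a := by
      rw [hUr] at hf
      rw [eq_div_iff haQ.ne', hbdef, ha]
      field_simp at hf
      push_cast at hf ⊢
      linarith
    have hr1 : ∀ p ∈ s, 1 < r p (n.factorization p) := fun p hp =>
      one_lt_r (hp2 p (hsub hp)) (hS p (hsub hp)).2.2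
    have hgt : (1 : ℚ) < (b : ℚ) / a := by rw [← hsr]; exact one_lt_prod hsne hr1
    have hab : a < b := by
      rw [lt_div_iff₀ haQ, one_mul] at hgt
      exact_mod_cast hgt
    have hL : (b : ℚ) / a ≤ ∏ x ∈ s, lim x := by
      rw [← hsr]
      exact Finset.prod_le_prod (fun x hx => zero_le_one.trans (hr1 x hx).le) fun x hx =>
        (r_lt_lim (hp2 x (hsub hx))).le
    obtain ⟨T, hT, hT1, hT2⟩ := product_bound s.card s rfl (fun x hx => hp2 x (hsub hx)) a b ha0 hab hL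
    have hTp : ∀ x ∈ T, 2 ≤ x := fun x hx => hp2 x (hsub (hT hx))
    have hsk : s.card ≤ t := (Finset.card_le_card hsub).trans hcard
    have hTk : T.card ≤ t := (Finset.card_le_card hT).trans hsk
    obtain ⟨D, hD⟩ : ∃ D, D = (t * (a + 1)) ^ 2 ^ t := ⟨_, rfl⟩
    have hTD : a * ∏ x ∈ T, x + 1 ≤ D := by
      refine hT2.trans ?_
      rw [hD]
      calc (s.card * (a + 1)) ^ 2 ^ s.card ≤ (t * (a + 1)) ^ 2 ^ s.card :=
            Nat.pow_le_pow_left (Nat.mul_le_mul_right _ hsk) _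
        _ ≤ (t * (a + 1)) ^ 2 ^ t :=
            Nat.pow_le_pow_right (Nat.mul_pos (by omega) (by omega))
              (Nat.pow_le_pow_right (by norm_num) hsk)
    rcases lt_or_eq_of_le hT1 with hlt | heq
    · have hex : ∃ x ∈ T, x ^ n.factorization x < 2 * T.card * (a * ∏ y ∈ T, y) := by
        by_contra hcon
        push Not at hcon
        have hg := gap hTp ha0 hlt (e := fun p => n.factorization p) hcon
        have hprodS : ∏ p ∈ T, r p (n.factorization p) ≤ ∏ p ∈ s, r p (n.factorization p) :=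
          prod_le_of_subset hT fun x hx => (hr1 x hx).le
        rw [hsr] at hprodS
        linarith
      obtain ⟨x, hx, hxe⟩ := hex
      have hxs := hT hx
      have hxD : x ^ n.factorization x < 2 * t * D :=
        lt_of_lt_of_le hxe (Nat.mul_le_mul (Nat.mul_le_mul_left _ hTk) (by omega))
      rw [← ha] at hb
      obtain ⟨hn1, hn2⟩ := goodn1 hD.le hb ht1
      by_cases hgood : 4 ∣ n.factorization x + 1
      · refine ⟨x, hsub hxs, hgood, lt_of_lt_of_le hxD (hn1.trans ?_)⟩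
        exact Nat.pow_le_pow_right hX (Nat.pow_le_pow_right (Nat.succ_pos _) hUt)
      · have hxU : x ∉ U := by
          rw [hs] at hxs
          exact (mem_sdiff.mp hxs).2
        have hcardi : (insert x U).card = U.card + 1 := Finset.card_insert_of_notMem hxU
        refine ih (insert x U) (Finset.insert_subset (hsub hxs) hU) (by rw [hcardi]; omega) ?_ ?_
        · intro p hp
          rcases mem_insert.mp hp with rfl | hp
          · exact hgood
          · exact h4 p hp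
        · rw [hcardi]
          refine le_trans (Nat.mul_le_mul_left _ ?_) hn2
          have h1 : sig n (insert x U) = (∑ i ∈ range (n.factorization x + 1), x ^ i) * sig n U := by
            unfold sig; rw [Finset.prod_insert hxU]
          have h2 := sum_pow_lt (hp2 x (hsub hxs)) (n.factorization x)
          rw [h1, ha]
          obtain ⟨y, hy⟩ : ∃ y, y = ∑ i ∈ range (n.factorization x + 1), x ^ i := ⟨_, rfl⟩
          rw [← hy] at h2 ⊢
          have h5 : y + 1 ≤ 2 * (2 * t * D) := by omega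
          calc α * (y * sig n U) + 1 = (α * sig n U) * y + 1 := by ring
            _ ≤ (α * sig n U + 1) * (y + 1) := by nlinarith [Nat.zero_le (α * sig n U), Nat.zero_le y]
            _ ≤ (α * sig n U + 1) * (2 * (2 * t * D)) := Nat.mul_le_mul_left _ h5
    · exfalso
      refine val_contra (U := U) (T := T) (e := fun p => n.factorization p) hα hβ
        (fun p hp => ⟨(hS p (hU hp)).1, (hS p (hU hp)).2.1, (hS p (hU hp)).2.2, h4 p hp⟩)
        (fun p hp => ⟨(hS p (hsub (hT hp))).1, (hS p (hsub (hT hp))).2.1⟩) ?_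
      rw [← heq, ← hsr]
      exact hf

end H49W
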