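import Pool.Agent.Lib.H49W.Good

/-!
An exponent `≡ 3 mod 4` is small: assembly.
-/

namespace H49W

open Finset

theorem fact_two_pow_mul {a m : ℕ} (hm : Odd m) :
    (2 ^ a * m).factorization 2 = a ∧ ∀ p, p ≠ 2 → (2 ^ a * m).factorization p = m.factorization p := by
  have hm0 : m ≠ 0 := hm.pos.ne'
  have h2m : ¬ 2 ∣ m := fun hd => (Nat.not_even_iff_odd.mpr hm) (even_iff_two_dvd.mpr hd)
  constructor
  · rw [Nat.factorization_mul (pow_ne_zero _ two_ne_zero) hm0, Finsupp.add_apply,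
      Nat.prime_two.factorization_pow, Finsupp.single_eq_same,
      Nat.factorization_eq_zero_of_not_dvd h2m, add_zero]
  · intro p hp
    rw [Nat.factorization_mul (pow_ne_zero _ two_ne_zero) hm0, Finsupp.add_apply,
      Nat.prime_two.factorization_pow, Finsupp.single_eq_of_ne hp, zero_add]

theorem r_two_eq {a : ℕ} : r 2 a = ((2 ^ (a + 1) - 1 : ℕ) : ℚ) / ((2 ^ a + 1 : ℕ) : ℚ) := by
  have h1 : ((2 : ℚ) ^ a + 1) ≠ 0 := by positivity
  have h2 : 1 ≤ 2 ^ (a + 1) := Nat.one_le_two_pow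
  rw [Nat.cast_sub h2]
  unfold r
  push_cast
  rw [pow_succ]
  field_simp
  ring

/-- the odd part of an element of `A` -/
theorem odd_prod {a m : ℕ} (hm : Odd m) (hA : InA (2 ^ a * m)) :
    ∃ β : ℕ, Odd β ∧
      (∏ p ∈ m.primeFactors.filter (fun q => 2 ≤ m.factorization q), r p (m.factorization p) =
        ((2 * β : ℕ) : ℚ) / ((2 ^ (a + 1) - 1 : ℕ) : ℚ)) ∧
      (((2 * β : ℕ) : ℚ) / ((2 ^ (a + 1) - 1 : ℕ) : ℚ) ≤ 1 + 3 / ((2 ^ (a + 1) - 1 : ℕ) : ℚ)) := by
  have hm0 : m ≠ 0 := hm.pos.ne'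
  have hn0 : 2 ^ a * m ≠ 0 := mul_ne_zero (by positivity) hm0
  have hcop : Nat.Coprime (2 ^ a) m := (Nat.coprime_two_left.mpr hm).pow_left a
  have h2 := (inA_iff hn0).mp hA
  rw [Nat.primeFactors_mul (by positivity) hm0, Finset.prod_union hcop.disjoint_primeFactors] at h2
  obtain ⟨hf2, hfp⟩ := fact_two_pow_mul (a := a) hm
  have hoddp : ∀ p ∈ m.primeFactors, p ≠ 2 := by
    rintro p hp rfl
    exact (Nat.not_even_iff_odd.mpr hm) (even_iff_two_dvd.mpr (Nat.dvd_of_mem_primeFactors hp))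
  have hmm : ∏ p ∈ m.primeFactors, r p ((2 ^ a * m).factorization p) =
      ∏ p ∈ m.primeFactors.filter (fun q => 2 ≤ m.factorization q), r p (m.factorization p) := by
    rw [Finset.prod_congr rfl fun p hp => by rw [hfp p (hoddp p hp)]]
    symm
    refine Finset.prod_subset (Finset.filter_subset _ _) fun p hp hps => ?_
    have h1 : ¬ 2 ≤ m.factorization p := fun hh => hps (mem_filter.mpr ⟨hp, hh⟩)
    have h2 : 0 < m.factorization p :=
      Nat.pos_of_ne_zero (Finsupp.mem_support_iff.mp (by rwa [Nat.support_factorization]))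
    have h3 : m.factorization p = 1 := by omega
    rw [h3]; exact r_one (two_le_of_mem hp)
  rw [hmm] at h2
  have hpow1 : 2 ≤ 2 ^ (a + 1) := by
    rw [pow_succ]
    have : 1 ≤ 2 ^ a := Nat.one_le_two_pow
    omega
  have hαQ : (0 : ℚ) < ((2 ^ (a + 1) - 1 : ℕ) : ℚ) := by exact_mod_cast (by omega : 0 < 2 ^ (a + 1) - 1)
  rcases Nat.eq_zero_or_pos a with rfl | ha
  · refine ⟨1, odd_one, ?_, ?_⟩
    · rw [pow_zero, Nat.primeFactors_one, Finset.prod_empty, one_mul] at h2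
      rw [h2]
      norm_num
    · norm_num
  · refine ⟨2 ^ a + 1, ?_, ?_, ?_⟩
    · have : 2 ∣ 2 ^ a := dvd_pow_self 2 (by omega)
      rw [Nat.odd_iff]; omega
    · rw [Nat.primeFactors_prime_pow (by omega) Nat.prime_two, Finset.prod_singleton, hf2, r_two_eq] at h2
      have h3 : (0 : ℚ) < ((2 ^ a + 1 : ℕ) : ℚ) := by positivity
      rw [eq_div_iff hαQ.ne']
      rw [div_mul_eq_mul_div, div_eq_iff h3.ne'] at h2
      rw [mul_comm, h2]
      push_cast
      ring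
    · have h4 : (1 : ℚ) + 3 / ((2 ^ (a + 1) - 1 : ℕ) : ℚ) =
          (((2 ^ (a + 1) - 1 : ℕ) : ℚ) + 3) / ((2 ^ (a + 1) - 1 : ℕ) : ℚ) := by
        rw [add_div, div_self hαQ.ne']
      rw [h4]
      refine div_le_div_of_nonneg_right ?_ hαQ.le
      have h5 : 2 * (2 ^ a + 1) = (2 ^ (a + 1) - 1) + 3 := by rw [pow_succ]; rw [pow_succ] at hpow1; omega
      rw [h5]
      push_cast
      exact le_rfl

private theorem goodn2 (t : ℕ) : 20 * t ≤ 3 ^ (t + 2) := by
  induction t with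
  | zero => simp
  | succ t ih =>
    have : 3 ^ 2 ≤ 3 ^ (t + 2) := Nat.pow_le_pow_right (by norm_num) (by omega)
    rw [show t + 1 + 2 = (t + 2) + 1 by ring, pow_succ]
    omega

theorem good_exponent (a m : ℕ) (hm : Odd m) (hA : InA (2 ^ a * m)) {t : ℕ}
    (ht : (m.primeFactors.filter fun q => 2 ≤ m.factorization q).card = t) :
    ∃ p ∈ m.primeFactors, m.factorization p % 4 = 3 ∧
      p ^ m.factorization p < (8 * t * 2 ^ a) ^ ((2 ^ t + 2) ^ t) ∧
      m.factorization p < (t + 3) * (2 ^ t + 2) ^ t := by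
  obtain ⟨β, hβ, hprod, hle⟩ := odd_prod hm hA
  obtain ⟨S, hSdef⟩ : ∃ S, S = m.primeFactors.filter fun q => 2 ≤ m.factorization q := ⟨_, rfl⟩
  rw [← hSdef] at hprod ht
  have hm0 : m ≠ 0 := hm.pos.ne'
  have hS : ∀ p ∈ S, p.Prime ∧ p ≠ 2 ∧ 2 ≤ m.factorization p := by
    intro p hp
    rw [hSdef, mem_filter] at hp
    refine ⟨Nat.prime_of_mem_primeFactors hp.1, ?_, hp.2⟩
    rintro rfl
    exact (Nat.not_even_iff_odd.mpr hm) (even_iff_two_dvd.mpr (Nat.dvd_of_mem_primeFactors hp.1))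
  have hpow1 : 2 ≤ 2 ^ (a + 1) := by
    rw [pow_succ]
    have : 1 ≤ 2 ^ a := Nat.one_le_two_pow
    omega
  have hα : Odd (2 ^ (a + 1) - 1) := by
    have : 2 ∣ 2 ^ (a + 1) := dvd_pow_self 2 (by omega)
    rw [Nat.odd_iff]; omega
  have hαQ : (0 : ℚ) < ((2 ^ (a + 1) - 1 : ℕ) : ℚ) := by exact_mod_cast hα.pos
  have hSne : S.Nonempty := by
    rw [Finset.nonempty_iff_ne_empty]
    intro hh
    have := val_contra (U := S) (T := ∅) (e := fun p => m.factorization p) hα hβ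
      (fun p hp => absurd (hh ▸ hp) (Finset.notMem_empty _))
      (fun p hp => absurd hp (Finset.notMem_empty _)) (by rw [Finset.prod_empty, mul_one]; exact hprod)
    exact this
  have ht1 : 1 ≤ t := by rw [← ht]; exact Finset.card_pos.mpr hSne
  obtain ⟨X, hX⟩ : ∃ X, X = 8 * t * 2 ^ a := ⟨_, rfl⟩
  have hX1 : 1 ≤ X := by rw [hX]; exact Nat.mul_pos (by omega) (by positivity)
  have hstart : 4 * t * ((2 ^ (a + 1) - 1) * sig m ∅ + 1) ≤ X ^ (2 ^ t + 2) ^ (∅ : Finset ℕ).card := by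
    have h1 : sig m ∅ = 1 := by unfold sig; rfl
    rw [h1, mul_one, Finset.card_empty, pow_zero, pow_one, Nat.sub_add_cancel (by omega), hX, pow_succ]
    exact le_of_eq (by ring)
  obtain ⟨x, hxS, hx4, hxlt⟩ := good_aux hα hβ hS hprod ht.le hX1 _ ∅ (Finset.empty_subset _) rfl
    (fun p hp => absurd hp (Finset.notMem_empty _)) hstart
  obtain ⟨hxp, hx2, hxe⟩ := hS x hxS
  have hxm : x ∈ m.primeFactors := by
    rw [hSdef] at hxS
    exact (mem_filter.mp hxS).1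
  have hx3 : 3 ≤ x := by have := hxp.two_le; omega
  refine ⟨x, hxm, by omega, hX ▸ hxlt, ?_⟩
  -- bound for the exponent
  have hr1 : ∀ p ∈ S, 1 ≤ r p (m.factorization p) := fun p hp =>
    one_le_r (hS p hp).1.two_le (by have := (hS p hp).2.2; omega)
  have h1 := r_ge hxp.two_le hxe
  have h2 : r x (m.factorization x) ≤ ∏ p ∈ S, r p (m.factorization p) := by
    have := prod_le_of_subset (Finset.singleton_subset_iff.mpr hxS) hr1
    rwa [Finset.prod_singleton] at this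
  rw [hprod] at h2
  have h3 := (h1.trans h2).trans hle
  have h5 : 1 / ((x : ℚ) + 1) ≤ 3 / ((2 ^ (a + 1) - 1 : ℕ) : ℚ) := by linarith
  rw [div_le_div_iff₀ (by positivity) hαQ] at h5
  have h6 : ((2 ^ (a + 1) - 1 : ℕ) : ℚ) ≤ ((3 * (x + 1) : ℕ) : ℚ) := by
    rw [one_mul] at h5
    refine h5.trans (le_of_eq ?_)
    push_cast
    ring
  have h7 : 2 ^ (a + 1) - 1 ≤ 3 * (x + 1) := by exact_mod_cast h6
  have h8 : X ≤ x ^ (t + 3) := by
    have h9 : 2 ^ (a + 1) ≤ 5 * x := by omega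
    calc X = 4 * t * 2 ^ (a + 1) := by rw [hX, pow_succ]; ring
      _ ≤ 4 * t * (5 * x) := Nat.mul_le_mul_left _ h9
      _ = 20 * t * x := by ring
      _ ≤ 3 ^ (t + 2) * x := Nat.mul_le_mul_right _ (goodn2 t)
      _ ≤ x ^ (t + 2) * x := Nat.mul_le_mul_right _ (Nat.pow_le_pow_left hx3 _)
      _ = x ^ (t + 3) := by rw [← pow_succ]
  have h10 : x ^ m.factorization x < x ^ ((t + 3) * (2 ^ t + 2) ^ t) := by
    refine lt_of_lt_of_le hxlt ?_
    rw [pow_mul]
    exact Nat.pow_le_pow_left h8 _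
  exact (Nat.pow_lt_pow_iff_right (by omega)).mp h10

end H49W
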