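import Pool.Agent.Lib.H49W.Val

/-!
Every element of `A` has a small exponent `≥ 2`.
-/

namespace H49W

open Finset

theorem lim_eq_div {x : ℕ} (hx : 2 ≤ x) : lim x = (x : ℚ) / ((x - 1 : ℕ) : ℚ) := by
  unfold lim
  rw [Nat.cast_sub (by omega)]
  simp

/-- Product bound (Heath-Brown, Cook, Nielsen type). -/
theorem product_bound : ∀ (m : ℕ) (s : Finset ℕ), s.card = m → (∀ x ∈ s, 2 ≤ x) → ∀ a b : ℕ, 0 < a → a < b →
    (b : ℚ) / a ≤ ∏ x ∈ s, lim x →
    ∃ T ⊆ s, (b : ℚ) / a ≤ ∏ x ∈ T, lim x ∧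
      a * ∏ x ∈ T, x + 1 ≤ (m * (a + 1)) ^ 2 ^ m := by
  intro m
  induction m with
  | zero =>
    intro s hs _ a b ha hab h
    exfalso
    rw [Finset.card_eq_zero] at hs
    subst hs
    rw [Finset.prod_empty, div_le_one (by exact_mod_cast ha)] at h
    have : b ≤ a := by exact_mod_cast h
    omega
  | succ m ih =>
    intro s hs hx a b ha hab h
    have hne : s.Nonempty := by rw [← Finset.card_pos, hs]; omega
    set x := s.min' hne with hxdef
    have hxs : x ∈ s := Finset.min'_mem s hne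
    have hx2 : 2 ≤ x := hx x hxs
    have ha' : (0 : ℚ) < a := by exact_mod_cast ha
    have hx2' : (2 : ℚ) ≤ x := by exact_mod_cast hx2
    -- bound for x
    have hxb : x ≤ (m + 1) * (a + 1) := by
      by_contra hcon
      push Not at hcon
      have h1 : ∏ y ∈ s, lim y ≤ lim x ^ (m + 1) := by
        rw [← hs, ← Finset.prod_const]
        refine Finset.prod_le_prod (fun y hy => (lim_pos (hx y hy)).le) fun y hy => ?_
        exact lim_anti hx2 (Finset.min'_le s y hy)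
      have h2 : (1 : ℚ) + 1 / a ≤ (b : ℚ) / a := by
        rw [le_div_iff₀ ha', add_mul, one_div, inv_mul_cancel₀ ha'.ne', one_mul]
        exact_mod_cast hab
      have h3 : (1 : ℚ) + 1 / a ≤ lim x ^ (m + 1) := h2.trans (h.trans h1)
      -- Bernoulli: (1 - 1/x)^(m+1) ≥ 1 - (m+1)/x
      have h4 : 1 - ((m : ℚ) + 1) / x ≤ (1 - 1 / (x : ℚ)) ^ (m + 1) := by
        have hb := one_add_mul_le_pow (a := -(1 / (x : ℚ))) (by
          have : (1 : ℚ) / x ≤ 1 := by rw [div_le_one (by linarith)]; linarith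
          linarith) (m + 1)
        push_cast at hb
        calc 1 - ((m : ℚ) + 1) / x = 1 + ((m : ℚ) + 1) * -(1 / (x : ℚ)) := by ring
          _ ≤ (1 + -(1 / (x : ℚ))) ^ (m + 1) := hb
          _ = _ := by ring
      have h5 : lim x * (1 - 1 / (x : ℚ)) = 1 := by
        unfold lim
        have : (x : ℚ) - 1 ≠ 0 := by linarith
        field_simp
      have h6 : lim x ^ (m + 1) * (1 - 1 / (x : ℚ)) ^ (m + 1) = 1 := by
        rw [← mul_pow, h5, one_pow]
      have hcon' : ((m : ℚ) + 1) * (a + 1) < x := by exact_mod_cast hcon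
      have h7 : 1 - ((m : ℚ) + 1) / x > (a : ℚ) / (a + 1) := by
        have h8 : ((m : ℚ) + 1) / x < 1 / (a + 1) := by
          rw [div_lt_div_iff₀ (by linarith) (by linarith)]
          linarith
        have h9 : (a : ℚ) / (a + 1) = 1 - 1 / (a + 1) := by
          field_simp
          ring
        rw [h9]; linarith
      have h10 : (1 + 1 / (a : ℚ)) * ((a : ℚ) / (a + 1)) = 1 := by
        field_simp
      have h11 : (1 : ℚ) < lim x ^ (m + 1) * (1 - 1 / (x : ℚ)) ^ (m + 1) := by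
        calc (1 : ℚ) = (1 + 1 / (a : ℚ)) * ((a : ℚ) / (a + 1)) := h10.symm
          _ < (1 + 1 / (a : ℚ)) * (1 - 1 / (x : ℚ)) ^ (m + 1) :=
              mul_lt_mul_of_pos_left (h7.trans_le h4) (by positivity)
          _ ≤ lim x ^ (m + 1) * (1 - 1 / (x : ℚ)) ^ (m + 1) := by
              refine mul_le_mul_of_nonneg_right h3 ?_
              refine le_trans ?_ h4
              exact (lt_trans (by positivity) h7).le
      linarith
    have hax : a * x + 1 ≤ (m + 1) * (a + 1) ^ 2 := by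
      have : a * x ≤ a * ((m + 1) * (a + 1)) := Nat.mul_le_mul_left _ hxb
      nlinarith
    have hpow2 : 1 ≤ 2 ^ m := Nat.one_le_two_pow
    by_cases hl : (b : ℚ) / a ≤ lim x
    · refine ⟨{x}, Finset.singleton_subset_iff.mpr hxs, by rwa [Finset.prod_singleton], ?_⟩
      rw [Finset.prod_singleton]
      calc a * x + 1 ≤ (m + 1) * (a + 1) ^ 2 := hax
        _ ≤ ((m + 1) * (a + 1)) ^ 2 := by rw [mul_pow]; exact Nat.mul_le_mul_right _ (Nat.le_self_pow (by norm_num) _)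
        _ ≤ ((m + 1) * (a + 1)) ^ 2 ^ (m + 1) := by
            refine Nat.pow_le_pow_right (by positivity) ?_
            rw [pow_succ]; omega
    · push Not at hl
      have hx1 : (0 : ℚ) < (x : ℚ) - 1 := by linarith
      have hcast : ((b * (x - 1) : ℕ) : ℚ) = (b : ℚ) * ((x : ℚ) - 1) := by
        rw [Nat.cast_mul, Nat.cast_sub (by omega)]; simp
      have hlt : a * x < b * (x - 1) := by
        have : (a : ℚ) * x < b * ((x : ℚ) - 1) := by
          unfold lim at hl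
          rw [div_lt_div_iff₀ hx1 ha'] at hl
          linarith
        have h' : ((a * x : ℕ) : ℚ) < ((b * (x - 1) : ℕ) : ℚ) := by rw [hcast]; push_cast; exact this
        exact_mod_cast h'
      have hprod : ∏ y ∈ s, lim y = lim x * ∏ y ∈ s.erase x, lim y := (Finset.mul_prod_erase s lim hxs).symm
      have hle : ((b * (x - 1) : ℕ) : ℚ) / ((a * x : ℕ) : ℚ) ≤ ∏ y ∈ s.erase x, lim y := by
        rw [hcast, Nat.cast_mul]
        rw [hprod] at h
        have h' : (b : ℚ) / a = lim x * (((b : ℚ) * ((x : ℚ) - 1)) / ((a : ℚ) * x)) := by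
          unfold lim
          field_simp
        rw [h'] at h
        exact le_of_mul_le_mul_left h (lim_pos hx2)
      obtain ⟨T, hT, hT1, hT2⟩ := ih (s.erase x) (by rw [Finset.card_erase_of_mem hxs, hs]; rfl)
        (fun y hy => hx y (Finset.mem_of_mem_erase hy)) (a * x) (b * (x - 1)) (by positivity) hlt hle
      have hxT : x ∉ T := fun hh => (Finset.notMem_erase x s) (hT hh)
      refine ⟨insert x T, Finset.insert_subset hxs (hT.trans (Finset.erase_subset _ _)), ?_, ?_⟩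
      · rw [Finset.prod_insert hxT]
        rw [hcast, Nat.cast_mul] at hT1
        have h' : (b : ℚ) / a = lim x * (((b : ℚ) * ((x : ℚ) - 1)) / ((a : ℚ) * x)) := by
          unfold lim
          field_simp
        rw [h']
        exact mul_le_mul_of_nonneg_left hT1 (lim_pos hx2).le
      · rw [Finset.prod_insert hxT, ← mul_assoc]
        calc a * x * ∏ y ∈ T, y + 1 ≤ (m * (a * x + 1)) ^ 2 ^ m := hT2
          _ ≤ (((m + 1) * (a + 1)) ^ 2) ^ 2 ^ m := by
              refine Nat.pow_le_pow_left ?_ _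
              calc m * (a * x + 1) ≤ (m + 1) * ((m + 1) * (a + 1) ^ 2) :=
                    Nat.mul_le_mul (by omega) hax
                _ = ((m + 1) * (a + 1)) ^ 2 := by ring
          _ = ((m + 1) * (a + 1)) ^ 2 ^ (m + 1) := by rw [← pow_mul, pow_succ 2 m, mul_comm 2]

/-- `∏ (1 - δ) ≥ 1 - ∑ δ`. -/
theorem prod_one_sub_ge {s : Finset ℕ} {d : ℕ → ℚ} (h0 : ∀ x ∈ s, 0 ≤ d x) (h1 : ∀ x ∈ s, d x ≤ 1) :
    1 - ∑ x ∈ s, d x ≤ ∏ x ∈ s, (1 - d x) := by
  induction s using Finset.induction_on with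
  | empty => simp
  | insert a s ha ih =>
    rw [Finset.sum_insert ha, Finset.prod_insert ha]
    have ih' := ih (fun x hx => h0 x (mem_insert_of_mem hx)) (fun x hx => h1 x (mem_insert_of_mem hx))
    have ha0 := h0 a (mem_insert_self _ _)
    have ha1 := h1 a (mem_insert_self _ _)
    have hs : 0 ≤ ∑ x ∈ s, d x := Finset.sum_nonneg fun x hx => h0 x (mem_insert_of_mem hx)
    nlinarith [mul_le_mul_of_nonneg_left ih' (sub_nonneg.mpr ha1), mul_nonneg ha0 hs]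

theorem r_eq_lim_mul {x e : ℕ} (hx : 2 ≤ x) :
    r x e = lim x * (1 - ((x : ℚ) + 1) / (x * ((x : ℚ) ^ e + 1))) := by
  have hx' : (2 : ℚ) ≤ x := by exact_mod_cast hx
  have h1 : (x : ℚ) - 1 ≠ 0 := by linarith
  have h2 : ((x : ℚ) ^ e + 1) ≠ 0 := by positivity
  have h3 : (x : ℚ) ≠ 0 := by linarith
  unfold r lim
  field_simp

/-- The gap lemma. -/
theorem gap {T : Finset ℕ} (hT : ∀ x ∈ T, 2 ≤ x) {a b : ℕ} (ha : 0 < a)
    (h : (b : ℚ) / a < ∏ x ∈ T, lim x) {e : ℕ → ℕ}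
    (he : ∀ x ∈ T, 2 * T.card * (a * ∏ y ∈ T, y) ≤ x ^ e x) :
    (b : ℚ) / a < ∏ x ∈ T, r x (e x) := by
  have ha' : (0 : ℚ) < a := by exact_mod_cast ha
  have hc1 : ∏ x ∈ T, (x : ℚ) = ((∏ x ∈ T, x : ℕ) : ℚ) := (Nat.cast_prod _ _).symm
  have hc2 : ∏ x ∈ T, ((x - 1 : ℕ) : ℚ) = ((∏ x ∈ T, (x - 1) : ℕ) : ℚ) := (Nat.cast_prod _ _).symm
  have hD : (0 : ℚ) < ∏ x ∈ T, (x : ℚ) := Finset.prod_pos fun x hx => by
    have : (2 : ℚ) ≤ x := by exact_mod_cast hT x hx
    linarith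
  have hE : (0 : ℚ) < ∏ x ∈ T, ((x - 1 : ℕ) : ℚ) := Finset.prod_pos fun x hx => by
    have := hT x hx
    exact_mod_cast (by omega : 0 < x - 1)
  have hlim : ∏ x ∈ T, lim x = (∏ x ∈ T, (x : ℚ)) / ∏ x ∈ T, ((x - 1 : ℕ) : ℚ) := by
    rw [← Finset.prod_div_distrib]
    exact Finset.prod_congr rfl fun x hx => lim_eq_div (hT x hx)
  have hlimpos : 0 < ∏ x ∈ T, lim x := by rw [hlim]; positivity
  -- integrality
  have hint : (b : ℚ) * ∏ x ∈ T, ((x - 1 : ℕ) : ℚ) + 1 ≤ (a : ℚ) * ∏ x ∈ T, (x : ℚ) := by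
    rw [hlim, div_lt_div_iff₀ ha' hE] at h
    rw [hc1, hc2] at h
    have h' : b * ∏ x ∈ T, (x - 1) < (∏ x ∈ T, x) * a := by exact_mod_cast h
    have h'' : b * ∏ x ∈ T, (x - 1) + 1 ≤ a * ∏ x ∈ T, x := by rw [mul_comm a]; omega
    rw [hc1, hc2]
    exact_mod_cast h''
  rcases T.eq_empty_or_nonempty with rfl | hne
  · simpa using h
  have hc : 0 < (T.card : ℚ) := by exact_mod_cast Finset.card_pos.mpr hne
  have hδ : ∀ x ∈ T, ((x : ℚ) + 1) / (x * ((x : ℚ) ^ e x + 1)) < 1 / (T.card * (a * ∏ y ∈ T, (y : ℚ))) := by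
    intro x hx
    have hx2 : (2 : ℚ) ≤ x := by exact_mod_cast hT x hx
    have h1 : (2 : ℚ) * T.card * (a * ∏ y ∈ T, (y : ℚ)) ≤ (x : ℚ) ^ e x := by
      rw [hc1]; exact_mod_cast he x hx
    rw [div_lt_div_iff₀ (by positivity) (by positivity)]
    have h2 : 0 < (T.card : ℚ) * (a * ∏ y ∈ T, (y : ℚ)) := by positivity
    nlinarith
  have hsum : ∑ x ∈ T, ((x : ℚ) + 1) / (x * ((x : ℚ) ^ e x + 1)) < 1 / (a * ∏ y ∈ T, (y : ℚ)) := by
    calc ∑ x ∈ T, ((x : ℚ) + 1) / (x * ((x : ℚ) ^ e x + 1))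
        < ∑ _x ∈ T, 1 / (T.card * (a * ∏ y ∈ T, (y : ℚ))) := Finset.sum_lt_sum_of_nonempty hne hδ
      _ = 1 / (a * ∏ y ∈ T, (y : ℚ)) := by
          rw [Finset.sum_const, nsmul_eq_mul]
          field_simp
  have hprod : 1 - ∑ x ∈ T, ((x : ℚ) + 1) / (x * ((x : ℚ) ^ e x + 1)) ≤
      ∏ x ∈ T, (1 - ((x : ℚ) + 1) / (x * ((x : ℚ) ^ e x + 1))) := by
    refine prod_one_sub_ge (fun x hx => by positivity) fun x hx => ?_
    have hx2 : (2 : ℚ) ≤ x := by exact_mod_cast hT x hx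
    rw [div_le_one (by positivity)]
    have : (1 : ℚ) ≤ (x : ℚ) ^ e x := one_le_pow₀ (by linarith)
    nlinarith
  have hr : ∏ x ∈ T, r x (e x) = (∏ x ∈ T, lim x) *
      ∏ x ∈ T, (1 - ((x : ℚ) + 1) / (x * ((x : ℚ) ^ e x + 1))) := by
    rw [← Finset.prod_mul_distrib]
    exact Finset.prod_congr rfl fun x hx => r_eq_lim_mul (hT x hx)
  rw [hr]
  have hkey : (b : ℚ) / a ≤ (∏ x ∈ T, lim x) * (1 - 1 / (a * ∏ y ∈ T, (y : ℚ))) := by
    rw [hlim, div_le_iff₀ ha']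
    have h3 : (∏ x ∈ T, (x : ℚ)) / (∏ x ∈ T, ((x - 1 : ℕ) : ℚ)) * (1 - 1 / (a * ∏ y ∈ T, (y : ℚ))) * a =
        (a * (∏ x ∈ T, (x : ℚ)) - 1) / ∏ x ∈ T, ((x - 1 : ℕ) : ℚ) := by
      field_simp
    rw [h3, le_div_iff₀ hE]
    linarith
  calc (b : ℚ) / a ≤ (∏ x ∈ T, lim x) * (1 - 1 / (a * ∏ y ∈ T, (y : ℚ))) := hkey
    _ < (∏ x ∈ T, lim x) * ∏ x ∈ T, (1 - ((x : ℚ) + 1) / (x * ((x : ℚ) ^ e x + 1))) := by
        refine mul_lt_mul_of_pos_left ?_ hlimpos
        linarith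

end H49W
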