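import Pool.Agent.Lib.H49W.Basic

/-!
Structure theorem of Dickson type for `σ(n) = 2 usigma(n)`.
-/

namespace H49W

open Finset

/-- powerful, `K` prime factors, in `A`. -/
def Adm (K n : ℕ) : Prop :=
  n ≠ 0 ∧ n.primeFactors.card = K ∧ (∀ p ∈ n.primeFactors, 2 ≤ n.factorization p) ∧
    ∏ p ∈ n.primeFactors, r p (n.factorization p) = 2

/-- limit pattern -/
def Pat (C Z n : ℕ) : Prop :=
  ∃ U V W : Finset ℕ, U ∪ V ∪ W = n.primeFactors ∧ Disjoint U V ∧ Disjoint (U ∪ V) W ∧
    V.Nonempty ∧ (∀ p ∈ U, p ^ n.factorization p ≤ C) ∧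
    (∀ p ∈ V, p ≤ C ∧ Z < n.factorization p) ∧ (∀ p ∈ W, Z < p) ∧
    (∏ p ∈ U, r p (n.factorization p)) * ∏ p ∈ V, lim p = 2

theorem Pat.mono {C C' Z n : ℕ} (h : C ≤ C') (hP : Pat C Z n) : Pat C' Z n := by
  obtain ⟨U, V, W, h1, h2, h3, h4, h5, h6, h7, h8⟩ := hP
  exact ⟨U, V, W, h1, h2, h3, h4, fun p hp => (h5 p hp).trans h,
    fun p hp => ⟨(h6 p hp).1.trans h, (h6 p hp).2⟩, h7, h8⟩

def Good (Z : ℕ) (S : Set ℕ) : Prop := ∃ C : ℕ, ∀ n ∈ S, n ≤ C ∨ Pat C Z n

theorem Good.subset {Z : ℕ} {S T : Set ℕ} (h : S ⊆ T) (hT : Good Z T) : Good Z S := by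
  obtain ⟨C, hC⟩ := hT
  exact ⟨C, fun n hn => hC n (h hn)⟩

theorem Good.union {Z : ℕ} {S T : Set ℕ} (hS : Good Z S) (hT : Good Z T) : Good Z (S ∪ T) := by
  obtain ⟨C, hC⟩ := hS
  obtain ⟨D, hD⟩ := hT
  refine ⟨max C D, fun n hn => ?_⟩
  rcases hn with hn | hn
  · rcases hC n hn with h | h
    · exact Or.inl (h.trans (le_max_left _ _))
    · exact Or.inr (h.mono (le_max_left _ _))
  · rcases hD n hn with h | h
    · exact Or.inl (h.trans (le_max_right _ _))
    · exact Or.inr (h.mono (le_max_right _ _))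

theorem Good.empty {Z : ℕ} : Good Z ∅ := ⟨0, fun _ hn => hn.elim⟩

theorem Good.biUnion {Z : ℕ} {ι : Type*} (s : Finset ι) (F : ι → Set ℕ)
    (h : ∀ i ∈ s, Good Z (F i)) : Good Z {n | ∃ i ∈ s, n ∈ F i} := by
  classical
  induction s using Finset.induction_on with
  | empty =>
    refine Good.empty.subset ?_
    rintro n ⟨i, hi, -⟩
    simp at hi
  | insert a s ha ih =>
    refine Good.subset (T := F a ∪ {n | ∃ i ∈ s, n ∈ F i}) ?_
      (Good.union (h a (mem_insert_self _ _)) (ih fun i hi => h i (mem_insert_of_mem hi)))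
    rintro n ⟨i, hi, hn⟩
    rcases mem_insert.mp hi with rfl | hi
    · exact Or.inl hn
    · exact Or.inr ⟨i, hi, hn⟩

/-- the set of solutions with `U` (exponents `g`) and `P` among the primes -/
def SS (K : ℕ) (U P : Finset ℕ) (g : ℕ → ℕ) : Set ℕ :=
  {n | Adm K n ∧ U ⊆ n.primeFactors ∧ P ⊆ n.primeFactors ∧ ∀ p ∈ U, n.factorization p = g p}

theorem two_le_of_mem {n p : ℕ} (hp : p ∈ n.primeFactors) : 2 ≤ p :=
  (Nat.prime_of_mem_primeFactors hp).two_le

theorem prod_split {n : ℕ} {U P : Finset ℕ} (hU : U ⊆ n.primeFactors) (hP : P ⊆ n.primeFactors)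
    (hUP : Disjoint U P) (F : ℕ → ℚ) :
    ∏ p ∈ n.primeFactors, F p =
      (∏ p ∈ U, F p) * (∏ p ∈ P, F p) * ∏ p ∈ n.primeFactors \ (U ∪ P), F p := by
  rw [← Finset.prod_union hUP, mul_comm, Finset.prod_sdiff (Finset.union_subset hU hP)]

theorem one_le_prod {s : Finset ℕ} {F : ℕ → ℚ} (h : ∀ p ∈ s, 1 ≤ F p) : 1 ≤ ∏ p ∈ s, F p := by
  have := Finset.prod_le_prod (s := s) (f := fun _ => (1 : ℚ)) (g := F) (fun _ _ => zero_le_one) h
  simpa using this

theorem one_lt_prod {s : Finset ℕ} (hs : s.Nonempty) {F : ℕ → ℚ} (h : ∀ p ∈ s, 1 < F p) :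
    1 < ∏ p ∈ s, F p := by
  have := Finset.prod_lt_prod_of_nonempty (s := s) (f := fun _ => (1 : ℚ)) (g := F)
    (fun _ _ => zero_lt_one) h hs
  simpa using this

theorem tendsto_lim : Filter.Tendsto (fun q : ℕ => ((lim q : ℚ) : ℝ)) Filter.atTop (nhds 1) := by
  have h1 : Filter.Tendsto (fun q : ℕ => 1 + 1 / ((q : ℝ) - 1)) Filter.atTop (nhds (1 + 0)) := by
    refine tendsto_const_nhds.add ?_
    refine Filter.Tendsto.div_atTop tendsto_const_nhds ?_
    exact Filter.tendsto_atTop_add_const_right _ _ tendsto_natCast_atTop_atTop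
  rw [add_zero] at h1
  refine h1.congr' ?_
  filter_upwards [Filter.eventually_ge_atTop 2] with q hq
  have : (2 : ℝ) ≤ q := by exact_mod_cast hq
  have h0 : (q : ℝ) - 1 ≠ 0 := by linarith
  unfold lim
  push_cast
  rw [eq_div_iff h0, add_mul, one_div, inv_mul_cancel₀ h0]
  ring

theorem exists_Q {c : ℚ} (hc : c < 2) (K : ℕ) : ∃ Q : ℕ, 2 ≤ Q ∧ c * lim Q ^ K < 2 := by
  have h1 : Filter.Tendsto (fun q : ℕ => (c : ℝ) * ((lim q : ℚ) : ℝ) ^ K) Filter.atTop
      (nhds ((c : ℝ) * 1 ^ K)) := (tendsto_lim.pow K).const_mul _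
  have h2 : (c : ℝ) * 1 ^ K < 2 := by
    rw [one_pow, mul_one]; exact_mod_cast hc
  obtain ⟨Q, hQ1, hQ2⟩ := ((h1.eventually_lt_const h2).and (Filter.eventually_ge_atTop 2)).exists
  exact ⟨Q, hQ2, by exact_mod_cast hQ1⟩

theorem exists_E {c : ℚ} {P : Finset ℕ} (hP : ∀ p ∈ P, 2 ≤ p) (h : 2 < c * ∏ p ∈ P, lim p) :
    ∃ E : ℕ, 2 < c * ∏ p ∈ P, r p E := by
  have h1 : Filter.Tendsto (fun E : ℕ => (c : ℝ) * ∏ p ∈ P, ((r p E : ℚ) : ℝ)) Filter.atTop
      (nhds ((c : ℝ) * ∏ p ∈ P, ((lim p : ℚ) : ℝ))) :=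
    (tendsto_finsetProd P fun p hp => tendsto_r (hP p hp)).const_mul _
  have h2 : (2 : ℝ) < (c : ℝ) * ∏ p ∈ P, ((lim p : ℚ) : ℝ) := by exact_mod_cast h
  obtain ⟨E, hE⟩ := (h1.eventually_const_lt h2).exists
  exact ⟨E, by exact_mod_cast hE⟩

theorem good_SS (K Z : ℕ) : ∀ (m : ℕ) (U P : Finset ℕ) (g : ℕ → ℕ), Disjoint U P →
    2 * K - (2 * U.card + P.card) = m → Good Z (SS K U P g) := by
  intro m
  induction m using Nat.strong_induction_on with
  | _ m ih =>
  intro U P g hUP hm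
  rcases Set.eq_empty_or_nonempty (SS K U P g) with he | ⟨n0, hn0⟩
  · rw [he]; exact Good.empty
  obtain ⟨⟨h00, h01, h02, h03⟩, h0U, h0P, h0g⟩ := hn0
  have hUprime : ∀ p ∈ U, p.Prime := fun p hp => Nat.prime_of_mem_primeFactors (h0U hp)
  have hPprime : ∀ p ∈ P, p.Prime := fun p hp => Nat.prime_of_mem_primeFactors (h0P hp)
  have hcard : U.card + P.card ≤ K := by
    rw [← Finset.card_union_of_disjoint hUP, ← h01]
    exact Finset.card_le_card (Finset.union_subset h0U h0P)
  by_cases hUK : U.card = K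
  · -- everything is fixed
    refine ⟨∏ p ∈ U, p ^ g p, fun n hn => Or.inl ?_⟩
    obtain ⟨⟨hn0, hn1, hn2, hn3⟩, hnU, hnP, hng⟩ := hn
    have hEq : U = n.primeFactors := Finset.eq_of_subset_of_card_le hnU (by rw [hn1, hUK])
    have hself : ∏ p ∈ n.primeFactors, p ^ n.factorization p = n := by
      have := Nat.prod_factorization_pow_eq_self hn0
      rw [Finsupp.prod, Nat.support_factorization] at this
      exact this
    rw [← hself, ← hEq]
    exact le_of_eq (Finset.prod_congr rfl fun p hp => by rw [hng p hp])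
  have hlt : 2 * U.card + P.card < 2 * K := by omega
  have ih' : ∀ (U' P' : Finset ℕ) (g' : ℕ → ℕ), Disjoint U' P' →
      2 * U'.card + P'.card = 2 * U.card + P.card + 1 → Good Z (SS K U' P' g') := by
    intro U' P' g' hd hc
    exact ih _ (by omega) U' P' g' hd rfl
  -- the two moves
  have move1 : ∀ Q : ℕ, Good Z {n | ∃ q ∈ (range (Q + 1)) \ (U ∪ P), n ∈ SS K U (insert q P) g} := by
    intro Q
    refine Good.biUnion _ _ fun q hq => ?_
    rw [mem_sdiff, mem_union, not_or] at hq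
    refine ih' _ _ _ ?_ ?_
    · rw [Finset.disjoint_insert_right]; exact ⟨hq.2.1, hUP⟩
    · rw [Finset.card_insert_of_notMem hq.2.2]; omega
  have move2 : ∀ E : ℕ, Good Z {n | ∃ x ∈ P ×ˢ range (E + 1),
      n ∈ SS K (insert x.1 U) (P.erase x.1) (Function.update g x.1 x.2)} := by
    intro E
    refine Good.biUnion _ _ fun x hx => ?_
    rw [mem_product] at hx
    have hxU : x.1 ∉ U := fun h => (Finset.disjoint_left.mp hUP) h hx.1
    refine ih' _ _ _ ?_ ?_
    · rw [Finset.disjoint_insert_left]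
      exact ⟨Finset.notMem_erase _ _, hUP.mono_right (Finset.erase_subset _ _)⟩
    · rw [Finset.card_insert_of_notMem hxU, Finset.card_erase_of_mem hx.1]
      have : 0 < P.card := Finset.card_pos.mpr ⟨_, hx.1⟩
      omega
  have in2 : ∀ n ∈ SS K U P g, ∀ p ∈ P, ∀ E, n.factorization p ≤ E →
      n ∈ {n | ∃ x ∈ P ×ˢ range (E + 1),
        n ∈ SS K (insert x.1 U) (P.erase x.1) (Function.update g x.1 x.2)} := by
    intro n hn p hp E hE
    obtain ⟨hA, hnU, hnP, hng⟩ := hn
    refine ⟨(p, n.factorization p), mem_product.mpr ⟨hp, mem_range.mpr (by omega)⟩, hA, ?_, ?_, ?_⟩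
    · exact Finset.insert_subset (hnP hp) hnU
    · exact (Finset.erase_subset _ _).trans hnP
    · intro q hq
      rcases mem_insert.mp hq with hqp | hq'
      · have hqp' : q = p := hqp
        rw [hqp']
        simp
      · have : q ≠ p := by
          intro h
          exact (Finset.disjoint_left.mp hUP) hq' (h ▸ hp)
        show n.factorization q = Function.update g p (n.factorization p) q
        rw [Function.update_of_ne this]
        exact hng q hq'
  have in1 : ∀ n ∈ SS K U P g, ∀ q ∈ n.primeFactors \ (U ∪ P), ∀ Q, q ≤ Q →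
      n ∈ {n | ∃ q ∈ (range (Q + 1)) \ (U ∪ P), n ∈ SS K U (insert q P) g} := by
    intro n hn q hq Q hQ
    obtain ⟨hA, hnU, hnP, hng⟩ := hn
    rw [mem_sdiff] at hq
    refine ⟨q, mem_sdiff.mpr ⟨mem_range.mpr (by omega), hq.2⟩, hA, hnU, ?_, hng⟩
    exact Finset.insert_subset hq.1 hnP
  have hval : ∀ n ∈ SS K U P g, (2 : ℚ) = (∏ p ∈ U, r p (g p)) * (∏ p ∈ P, r p (n.factorization p)) *
      ∏ p ∈ n.primeFactors \ (U ∪ P), r p (n.factorization p) := by
    intro n hn
    obtain ⟨⟨hn0, hn1, hn2, hn3⟩, hnU, hnP, hng⟩ := hn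
    rw [← hn3, prod_split hnU hnP hUP]
    congr 2
    exact Finset.prod_congr rfl fun p hp => by rw [hng p hp]
  have hapos : 1 ≤ ∏ p ∈ U, r p (g p) := by
    refine one_le_prod fun p hp => ?_
    rw [← h0g p hp]
    exact one_le_r (hUprime p hp).two_le (by have := h02 p (h0U hp); omega)
  rcases lt_trichotomy ((∏ p ∈ U, r p (g p)) * ∏ p ∈ P, lim p) 2 with hc | hc | hc
  · -- a new small prime
    obtain ⟨Q, hQ2, hQ⟩ := exists_Q hc K
    refine (move1 Q).subset fun n hn => ?_
    by_contra hcon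
    have hall : ∀ q ∈ n.primeFactors \ (U ∪ P), Q ≤ q := by
      intro q hq
      by_contra hlt'
      exact hcon (in1 n hn q hq Q (by omega))
    have h2 := hval n hn
    obtain ⟨⟨hn0, hn1, hn2, hn3⟩, hnU, hnP, hng⟩ := hn
    have hP1 : ∏ p ∈ P, r p (n.factorization p) ≤ ∏ p ∈ P, lim p := by
      refine Finset.prod_le_prod (fun p hp => ?_) fun p hp => (r_lt_lim (hPprime p hp).two_le).le
      exact zero_le_one.trans (one_le_r (hPprime p hp).two_le (by have := hn2 p (hnP hp); omega))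
    have hR1 : ∏ p ∈ n.primeFactors \ (U ∪ P), r p (n.factorization p) ≤ lim Q ^ K := by
      calc ∏ p ∈ n.primeFactors \ (U ∪ P), r p (n.factorization p)
          ≤ ∏ _p ∈ n.primeFactors \ (U ∪ P), lim Q := by
            refine Finset.prod_le_prod (fun p hp => ?_) fun p hp => ?_
            · have hp' := (mem_sdiff.mp hp).1
              exact zero_le_one.trans (one_le_r (two_le_of_mem hp') (by have := hn2 p hp'; omega))
            · have hp' := (mem_sdiff.mp hp).1
              exact (r_lt_lim (two_le_of_mem hp')).le.trans (lim_anti hQ2 (hall p hp))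
        _ = lim Q ^ (n.primeFactors \ (U ∪ P)).card := Finset.prod_const _
        _ ≤ lim Q ^ K := by
            refine pow_le_pow_right₀ (one_lt_lim hQ2).le ?_
            rw [← hn1]
            exact Finset.card_le_card Finset.sdiff_subset
    have hlimP : 1 ≤ ∏ p ∈ P, lim p := one_le_prod fun p hp => (one_lt_lim (hPprime p hp).two_le).le
    have hR0 : 1 ≤ ∏ p ∈ n.primeFactors \ (U ∪ P), r p (n.factorization p) := by
      refine one_le_prod fun p hp => ?_
      have hp' := (mem_sdiff.mp hp).1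
      exact one_le_r (two_le_of_mem hp') (by have := hn2 p hp'; omega)
    have h3 : (2 : ℚ) ≤ ((∏ p ∈ U, r p (g p)) * ∏ p ∈ P, lim p) * lim Q ^ K := by
      calc (2 : ℚ) = (∏ p ∈ U, r p (g p)) * (∏ p ∈ P, r p (n.factorization p)) *
            ∏ p ∈ n.primeFactors \ (U ∪ P), r p (n.factorization p) := h2
        _ ≤ ((∏ p ∈ U, r p (g p)) * ∏ p ∈ P, lim p) *
            ∏ p ∈ n.primeFactors \ (U ∪ P), r p (n.factorization p) := by
            refine mul_le_mul_of_nonneg_right ?_ (zero_le_one.trans hR0)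
            exact mul_le_mul_of_nonneg_left hP1 (zero_le_one.trans hapos)
        _ ≤ _ := by
            refine mul_le_mul_of_nonneg_left hR1 ?_
            exact mul_nonneg (zero_le_one.trans hapos) (zero_le_one.trans hlimP)
    linarith
  · -- limit case
    rcases P.eq_empty_or_nonempty with hPe | hPne
    · -- no fixed primes: contradiction
      exfalso
      subst hPe
      have h2 := hval n0 ⟨⟨h00, h01, h02, h03⟩, h0U, h0P, h0g⟩
      rw [Finset.prod_empty, mul_one] at hc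
      rw [hc, Finset.prod_empty, mul_one, Finset.union_empty] at h2
      have hne : (n0.primeFactors \ U).Nonempty := by
        rw [← Finset.card_pos, Finset.card_sdiff_of_subset h0U, h01]
        have := Finset.card_le_card h0U
        omega
      have h3 : 1 < ∏ p ∈ n0.primeFactors \ U, r p (n0.factorization p) := by
        refine one_lt_prod hne fun p hp => ?_
        have hp' := (mem_sdiff.mp hp).1
        exact one_lt_r (two_le_of_mem hp') (h02 p hp')
      linarith
    · have hT0 : Good Z {n | n ∈ SS K U P g ∧ (∀ p ∈ P, Z < n.factorization p) ∧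
          ∀ q ∈ n.primeFactors \ (U ∪ P), Z < q} := by
        refine ⟨∏ p ∈ U, p ^ g p + ∑ p ∈ P, p, fun n hn => Or.inr ?_⟩
        obtain ⟨⟨⟨hn0, hn1, hn2, hn3⟩, hnU, hnP, hng⟩, hZ1, hZ2⟩ := hn
        refine ⟨U, P, n.primeFactors \ (U ∪ P), ?_, hUP, Finset.disjoint_sdiff, hPne, ?_, ?_, hZ2, ?_⟩
        · exact Finset.union_sdiff_of_subset (Finset.union_subset hnU hnP)
        · intro p hp
          rw [hng p hp]
          have h1 : p ^ g p ∣ ∏ p ∈ U, p ^ g p := Finset.dvd_prod_of_mem (fun p => p ^ g p) hp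
          have h2 : 0 < ∏ p ∈ U, p ^ g p :=
            Finset.prod_pos fun p hp => pow_pos (hUprime p hp).pos _
          exact (Nat.le_of_dvd h2 h1).trans (Nat.le_add_right _ _)
        · intro p hp
          refine ⟨?_, hZ1 p hp⟩
          exact (Finset.single_le_sum (f := fun p : ℕ => p) (fun _ _ => Nat.zero_le _) hp).trans
            (Nat.le_add_left _ _)
        · rw [← hc]
          congr 1
          exact Finset.prod_congr rfl fun p hp => by rw [hng p hp]
      refine ((hT0.union (move2 Z)).union (move1 Z)).subset fun n hn => ?_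
      by_cases hZ1 : ∀ p ∈ P, Z < n.factorization p
      · by_cases hZ2 : ∀ q ∈ n.primeFactors \ (U ∪ P), Z < q
        · exact Or.inl (Or.inl ⟨hn, hZ1, hZ2⟩)
        · push Not at hZ2
          obtain ⟨q, hq, hqZ⟩ := hZ2
          exact Or.inr (in1 n hn q hq Z hqZ)
      · push Not at hZ1
        obtain ⟨p, hp, hpZ⟩ := hZ1
        exact Or.inl (Or.inr (in2 n hn p hp Z hpZ))
  · -- a bounded exponent
    obtain ⟨E, hE⟩ := exists_E (fun p hp => (hPprime p hp).two_le) hc
    refine (move2 E).subset fun n hn => ?_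
    by_contra hcon
    have hall : ∀ p ∈ P, E ≤ n.factorization p := by
      intro p hp
      by_contra hlt'
      exact hcon (in2 n hn p hp E (by omega))
    have h2 := hval n hn
    obtain ⟨⟨hn0, hn1, hn2, hn3⟩, hnU, hnP, hng⟩ := hn
    have hR0 : 1 ≤ ∏ p ∈ n.primeFactors \ (U ∪ P), r p (n.factorization p) := by
      refine one_le_prod fun p hp => ?_
      have hp' := (mem_sdiff.mp hp).1
      exact one_le_r (two_le_of_mem hp') (by have := hn2 p hp'; omega)
    have hr0 : ∀ p ∈ P, 0 ≤ r p E := by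
      intro p hp
      have h2p : (2 : ℚ) ≤ p := by exact_mod_cast (hPprime p hp).two_le
      have := r_mono (e := 0) (hPprime p hp).two_le (Nat.zero_le E)
      refine le_trans ?_ this
      unfold r
      apply div_nonneg _ (by linarith)
      rw [pow_zero]
      linarith
    have hP1 : ∏ p ∈ P, r p E ≤ ∏ p ∈ P, r p (n.factorization p) :=
      Finset.prod_le_prod hr0 fun p hp => r_mono (hPprime p hp).two_le (hall p hp)
    have hP0 : 0 ≤ ∏ p ∈ P, r p (n.factorization p) :=
      Finset.prod_nonneg fun p hp => (hr0 p hp).trans (r_mono (hPprime p hp).two_le (hall p hp))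
    have h3 : (∏ p ∈ U, r p (g p)) * ∏ p ∈ P, r p E ≤ 2 := by
      calc (∏ p ∈ U, r p (g p)) * ∏ p ∈ P, r p E
          ≤ (∏ p ∈ U, r p (g p)) * ∏ p ∈ P, r p (n.factorization p) :=
            mul_le_mul_of_nonneg_left hP1 (zero_le_one.trans hapos)
        _ ≤ (∏ p ∈ U, r p (g p)) * (∏ p ∈ P, r p (n.factorization p)) *
            ∏ p ∈ n.primeFactors \ (U ∪ P), r p (n.factorization p) :=
            le_mul_of_one_le_right (mul_nonneg (zero_le_one.trans hapos) hP0) hR0
        _ = 2 := h2.symm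
    linarith

theorem structure_sets (K Z : ℕ) : ∃ C : ℕ, ∀ n : ℕ, Adm K n → n ≤ C ∨ Pat C Z n := by
  obtain ⟨C, hC⟩ := good_SS K Z _ ∅ ∅ (fun _ => 0) (Finset.disjoint_empty_left _) rfl
  refine ⟨C, fun n hn => hC n ⟨hn, Finset.empty_subset _, Finset.empty_subset _, ?_⟩⟩
  intro p hp
  exact absurd hp (Finset.notMem_empty _)

end H49W
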