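import Pool.Agent.Lib.H49W.Struct

/-!
Valuations of `r p e`, parity law, finiteness corollaries.
-/

namespace H49W

open Finset

theorem geom_parity {p : ℕ} (hp : Odd p) (m : ℕ) : (∑ k ∈ range m, p ^ k) % 2 = m % 2 := by
  induction m with
  | zero => simp
  | succ m ih =>
    rw [Finset.sum_range_succ, Nat.add_mod, ih]
    have : p ^ m % 2 = 1 := Nat.odd_iff.mp hp.pow
    rw [this, Nat.add_mod m 1 2]

theorem geom_mul {p : ℕ} (hp : 1 ≤ p) (m : ℕ) : (∑ k ∈ range m, p ^ k) * (p - 1) = p ^ m - 1 := by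
  have := Nat.geomSum_eq (m := p)
  have h := geom_sum_mul_of_one_le (x := p) hp m
  exact h

theorem padicValNat_two_of_odd {m : ℕ} (h : Odd m) : padicValNat 2 m = 0 :=
  padicValNat.eq_zero_of_not_dvd fun hd => (Nat.not_even_iff_odd.mpr h) (even_iff_two_dvd.mpr hd)

/-- The key valuation identity for odd `p`. -/
theorem val_key {p e : ℕ} (hp : Odd p) (hp1 : 1 < p) (he : 1 ≤ e) :
    padicValNat 2 (∑ k ∈ range (e + 1), p ^ k) + 1 =
      padicValNat 2 (p ^ e + 1) + padicValNat 2 (e + 1) := by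
  have hpar := geom_parity hp (e + 1)
  have h2p : ¬ 2 ∣ p := fun h => (Nat.not_even_iff_odd.mpr hp) (even_iff_two_dvd.mpr h)
  have h2p1 : 2 ∣ p - 1 := by
    obtain ⟨k, rfl⟩ := hp
    exact ⟨k, by omega⟩
  rcases Nat.even_or_odd e with hev | hod
  · -- e even
    have hS : Odd (∑ k ∈ range (e + 1), p ^ k) := by
      rw [Nat.odd_iff, hpar]
      exact Nat.odd_iff.mp hev.add_one
    rw [padicValNat_two_of_odd hS, padicValNat_two_of_odd hev.add_one]
    have h4 : (p ^ e + 1) % 4 = 2 := by
      obtain ⟨j, rfl⟩ := hev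
      have hsq : p ^ (j + j) = (p ^ j) * (p ^ j) := pow_add _ _ _
      have ho : Odd (p ^ j) := hp.pow
      obtain ⟨i, hi⟩ := ho
      rw [hsq, hi]
      have : (2 * i + 1) * (2 * i + 1) = 4 * (i * i + i) + 1 := by ring
      omega
    have h5 : p ^ e + 1 = 2 * ((p ^ e + 1) / 2) := by omega
    have h6 : Odd ((p ^ e + 1) / 2) := by rw [Nat.odd_iff]; omega
    rw [h5, padicValNat.mul (by norm_num) (by intro h; rw [h] at h6; exact absurd h6 (by decide)),
      padicValNat_self, padicValNat_two_of_odd h6]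
  · -- e odd
    have hev1 : Even (e + 1) := hod.add_one
    have h1 := padicValNat.pow_two_sub_pow (x := p) (y := 1) hp1 h2p1 h2p (n := e + 1) (by omega) hev1
    have h2 := padicValNat.pow_two_sub_pow (x := p) (y := 1) hp1 h2p1 h2p (n := 2 * e) (by omega)
      (even_two_mul e)
    rw [one_pow] at h1 h2
    rw [← geom_mul hp1.le, padicValNat.mul] at h1
    rotate_left
    · exact (Finset.sum_pos (fun k _ => pow_pos (by omega) k) ⟨0, by simp⟩).ne'
    · omega
    have h3 : p ^ (2 * e) - 1 = (p ^ e + 1) * ((∑ k ∈ range e, p ^ k) * (p - 1)) := by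
      rw [geom_mul hp1.le, mul_comm 2 e, pow_mul]
      have := Nat.sq_sub_sq (p ^ e) 1
      rw [one_pow] at this
      exact this
    have hS' : Odd (∑ k ∈ range e, p ^ k) := by
      rw [Nat.odd_iff, geom_parity hp e]
      exact Nat.odd_iff.mp hod
    have hS'0 : (∑ k ∈ range e, p ^ k) ≠ 0 := by
      intro h; rw [h] at hS'; exact absurd hS' (by decide)
    rw [h3, padicValNat.mul (by positivity) (mul_ne_zero hS'0 (by omega)),
      padicValNat.mul hS'0 (by omega), padicValNat_two_of_odd hS', padicValNat.mul (by norm_num) (by omega),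
      padicValNat_self, padicValNat_two_of_odd hod] at h2
    omega

theorem prod_val (l : ℕ) [Fact l.Prime] (s : Finset ℕ) (F : ℕ → ℚ) (h : ∀ p ∈ s, F p ≠ 0) :
    padicValRat l (∏ p ∈ s, F p) = ∑ p ∈ s, padicValRat l (F p) := by
  induction s using Finset.induction_on with
  | empty => simp
  | insert a s ha ih =>
    rw [Finset.prod_insert ha, Finset.sum_insert ha,
      padicValRat.mul (h a (mem_insert_self _ _))
        (Finset.prod_ne_zero_iff.mpr fun p hp => h p (mem_insert_of_mem hp)),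
      ih fun p hp => h p (mem_insert_of_mem hp)]

theorem r_eq (p e : ℕ) (hp : 2 ≤ p) :
    r p e = ((∑ k ∈ range (e + 1), p ^ k : ℕ) : ℚ) / ((p ^ e + 1 : ℕ) : ℚ) := by
  have h := sum_pow_eq p e hp
  rw [h]
  have : ((p : ℚ) ^ e + 1) ≠ 0 := by positivity
  push_cast
  rw [mul_div_assoc, div_self this, mul_one]

theorem val_r (l : ℕ) [Fact l.Prime] {p e : ℕ} (hp : 2 ≤ p) :
    padicValRat l (r p e) =
      (padicValNat l (∑ k ∈ range (e + 1), p ^ k) : ℤ) - (padicValNat l (p ^ e + 1) : ℤ) := by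
  rw [r_eq p e hp, padicValRat.div, padicValRat.of_nat, padicValRat.of_nat]
  · have : 0 < ∑ k ∈ range (e + 1), p ^ k :=
      Finset.sum_pos (fun k _ => pow_pos (by omega) k) ⟨0, by simp⟩
    exact_mod_cast this.ne'
  · positivity

theorem val_two_r {p e : ℕ} (hp : Odd p) (hp1 : 1 < p) (he : 1 ≤ e) :
    padicValRat 2 (r p e) = (padicValNat 2 (e + 1) : ℤ) - 1 := by
  rw [val_r 2 (by omega)]
  have := val_key hp hp1 he
  omega

theorem val_two_r_two {e : ℕ} (he : 1 ≤ e) : padicValRat 2 (r 2 e) = 0 := by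
  rw [val_r 2 le_rfl]
  have h1 : Odd (∑ k ∈ range (e + 1), 2 ^ k) := by
    rw [Nat.geomSum_eq le_rfl]
    have : 2 ∣ 2 ^ (e + 1) := dvd_pow_self 2 (by omega)
    have h3 : 0 < 2 ^ (e + 1) := by positivity
    rw [Nat.odd_iff]
    omega
  have h2 : Odd (2 ^ e + 1) := by
    have : 2 ∣ 2 ^ e := dvd_pow_self 2 (by omega)
    rw [Nat.odd_iff]
    omega
  rw [padicValNat_two_of_odd h1, padicValNat_two_of_odd h2]
  simp

theorem r_pos {p e : ℕ} (hp : 2 ≤ p) : 0 < r p e := by
  rw [r_eq p e hp]
  have : 0 < ∑ k ∈ range (e + 1), p ^ k :=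
    Finset.sum_pos (fun k _ => pow_pos (by omega) k) ⟨0, by simp⟩
  positivity

theorem lim_pos {p : ℕ} (hp : 2 ≤ p) : 0 < lim p := zero_lt_one.trans (one_lt_lim hp)

theorem val_lim (l : ℕ) [Fact l.Prime] {p : ℕ} (hp : 2 ≤ p) :
    padicValRat l (lim p) = (padicValNat l p : ℤ) - (padicValNat l (p - 1) : ℤ) := by
  have hp' : (2 : ℚ) ≤ p := by exact_mod_cast hp
  unfold lim
  rw [padicValRat.div (by positivity) (by linarith)]
  have : (p : ℚ) - 1 = ((p - 1 : ℕ) : ℚ) := by
    rw [Nat.cast_sub (by omega)]; simp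
  rw [this, padicValRat.of_nat, padicValRat.of_nat]

/-- **Parity law**. -/
theorem parity_law (a m : ℕ) (hm : Odd m) (h : InA (2 ^ a * m)) :
    padicValNat 2 m.divisors.card = m.primeFactors.card + 1 := by
  have hm0 : m ≠ 0 := by rintro rfl; exact absurd hm (by decide)
  have hn0 : 2 ^ a * m ≠ 0 := mul_ne_zero (by positivity) hm0
  have hcop : Nat.Coprime (2 ^ a) m := (Nat.coprime_two_left.mpr hm).pow_left a
  have h2 := (inA_iff hn0).mp h
  rw [Nat.primeFactors_mul (by positivity) hm0] at h2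
  have hdisj : Disjoint (2 ^ a).primeFactors m.primeFactors := hcop.disjoint_primeFactors
  rw [Finset.prod_union hdisj] at h2
  have hodd : ∀ p ∈ m.primeFactors, Odd p := fun p hp =>
    hm.of_dvd_nat (Nat.dvd_of_mem_primeFactors hp)
  have hfac : ∀ p ∈ m.primeFactors, (2 ^ a * m).factorization p = m.factorization p := by
    intro p hp
    rw [Nat.factorization_mul (by positivity) hm0, Finsupp.add_apply]
    have : (2 ^ a).factorization p = 0 := by
      apply Nat.factorization_eq_zero_of_not_dvd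
      intro hd
      have hpp := Nat.prime_of_mem_primeFactors hp
      have h3 := hpp.dvd_of_dvd_pow hd
      have h4 : p = 2 := (Nat.prime_dvd_prime_iff_eq hpp Nat.prime_two).mp h3
      have := hodd p hp
      rw [h4] at this
      exact absurd this (by decide)
    rw [this, zero_add]
  have hv := congrArg (padicValRat 2) h2
  rw [padicValRat.mul, prod_val, prod_val] at hv
  rotate_left
  · exact fun p hp => (r_pos (two_le_of_mem hp)).ne'
  · exact fun p hp => (r_pos (two_le_of_mem hp)).ne'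
  · exact Finset.prod_ne_zero_iff.mpr fun p hp => (r_pos (two_le_of_mem hp)).ne'
  · exact Finset.prod_ne_zero_iff.mpr fun p hp => (r_pos (two_le_of_mem hp)).ne'
  have h1 : ∑ p ∈ (2 ^ a).primeFactors, padicValRat 2 (r p ((2 ^ a * m).factorization p)) = 0 := by
    refine Finset.sum_eq_zero fun p hp => ?_
    have hpp := Nat.prime_of_mem_primeFactors hp
    have h3 := hpp.dvd_of_dvd_pow (Nat.dvd_of_mem_primeFactors hp)
    have h4 : p = 2 := (Nat.prime_dvd_prime_iff_eq hpp Nat.prime_two).mp h3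
    subst h4
    refine val_two_r_two ?_
    rw [Nat.factorization_mul (by positivity) hm0, Finsupp.add_apply]
    have : 0 < (2 ^ a).factorization 2 :=
      Nat.pos_of_ne_zero (Finsupp.mem_support_iff.mp (by rwa [Nat.support_factorization]))
    omega
  have h22 : padicValRat 2 2 = 1 := by
    have := padicValRat.self (p := 2) (by norm_num)
    exact_mod_cast this
  rw [h1, zero_add, h22] at hv
  have h3 : ∑ p ∈ m.primeFactors, padicValRat 2 (r p ((2 ^ a * m).factorization p)) =
      ∑ p ∈ m.primeFactors, ((padicValNat 2 (m.factorization p + 1) : ℤ) - 1) := by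
    refine Finset.sum_congr rfl fun p hp => ?_
    rw [hfac p hp]
    have hpos : 0 < m.factorization p :=
      Nat.pos_of_ne_zero (Finsupp.mem_support_iff.mp (by rwa [Nat.support_factorization]))
    exact val_two_r (hodd p hp) (Nat.prime_of_mem_primeFactors hp).one_lt (by omega)
  rw [h3, Finset.sum_sub_distrib, Finset.sum_const, nsmul_eq_mul, mul_one] at hv
  have h4 : (padicValNat 2 m.divisors.card : ℤ) =
      ∑ p ∈ m.primeFactors, (padicValNat 2 (m.factorization p + 1) : ℤ) := by
    rw [Nat.card_divisors hm0]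
    have h5 := prod_val 2 m.primeFactors (fun p => ((m.factorization p + 1 : ℕ) : ℚ))
      (fun p _ => by positivity)
    rw [← Nat.cast_prod, padicValRat.of_nat] at h5
    rw [h5]
    refine Finset.sum_congr rfl fun p _ => ?_
    rw [padicValRat.of_nat]
  rw [← h4] at hv
  omega

end H49W
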